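import Pool.Agent.Lib.MP_c86c76_al.An2.St

/-!
Angular cut-off functions.
-/

set_option autoImplicit false

namespace Pool.Agent.MA2

open Complex MeasureTheory Filter Topology Set Function
open scoped InnerProductSpace
open Pool.Agent.MA (cf Nr rc kk Tr bb gz DD d1 d2 en dg)

/-- The angular function of the origin. -/
noncomputable def ang_lam (z : ℂ) : ℝ := 1 - Real.smoothTransition (z.re / ‖z‖ + 1 / 2)

theorem ang_bd (f : ℂ → ℝ) (K : Set ℂ) (hK : IsCompact K) (hf : ∀ z ∈ K, ContDiffAt ℝ 2 f z) :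
    ∃ M, ∀ z ∈ K, ‖fderiv ℝ f z‖ ≤ M :=
  hK.exists_bound_of_continuousOn fun z hz =>
    ((hf z hz).fderiv_right (m := 1) (by norm_num)).continuousAt.continuousWithinAt

theorem ang_smooth (z : ℂ) (hz : z ≠ 0) : ContDiffAt ℝ 2 ang_lam z := by
  have h1 : ContDiffAt ℝ 2 (fun w : ℂ => w.re / ‖w‖ + 1 / 2) z :=
    ((Complex.reCLM.contDiff.contDiffAt).div (contDiffAt_norm ℂ hz) (norm_ne_zero_iff.2 hz)).add
      contDiffAt_const
  exact contDiffAt_const.sub (Real.smoothTransition.contDiffAt.comp z h1)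

theorem ang_mem (z : ℂ) : 0 ≤ ang_lam z ∧ ang_lam z ≤ 1 := by
  unfold ang_lam
  have h1 := Real.smoothTransition.nonneg (z.re / ‖z‖ + 1 / 2)
  have h2 := Real.smoothTransition.le_one (z.re / ‖z‖ + 1 / 2)
  constructor <;> linarith

theorem ang_one (z : ℂ) (hz : z ≠ 0) (h : z.re ≤ -(‖z‖ / 2)) : ang_lam z = 1 := by
  have h0 : 0 < ‖z‖ := norm_pos_iff.2 hz
  have h1 : z.re / ‖z‖ ≤ -(1 / 2) := by
    rw [div_le_iff₀ h0]
    linarith
  unfold ang_lam
  rw [Real.smoothTransition.zero_of_nonpos (by linarith), sub_zero]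

theorem ang_zero (z : ℂ) (hz : z ≠ 0) (h : ‖z‖ / 2 ≤ z.re) : ang_lam z = 0 := by
  have h0 : 0 < ‖z‖ := norm_pos_iff.2 hz
  have h1 : 1 / 2 ≤ z.re / ‖z‖ := by
    rw [le_div_iff₀ h0]
    linarith
  unfold ang_lam
  rw [Real.smoothTransition.one_of_one_le (by linarith), sub_self]

theorem ang_hom (z : ℂ) (r : ℝ) (hr : 0 < r) : ang_lam (r * z) = ang_lam z := by
  unfold ang_lam
  rw [Complex.re_ofReal_mul, norm_mul, Complex.norm_real, Real.norm_of_nonneg hr.le,
    mul_div_mul_left _ _ hr.ne']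

theorem ang_der : ∃ M : ℝ, ∀ z, z ≠ 0 → ‖fderiv ℝ ang_lam z‖ ≤ M / ‖z‖ := by
  obtain ⟨M, hM⟩ := ang_bd ang_lam (Metric.sphere 0 1) (isCompact_sphere 0 1) fun z hz =>
    ang_smooth z (by
      rintro rfl
      simp at hz)
  refine ⟨M, fun z hz => ?_⟩
  have h0 : 0 < ‖z‖ := norm_pos_iff.2 hz
  set r : ℝ := ‖z‖⁻¹ with hr
  have hr0 : 0 < r := inv_pos.2 h0
  have h1 : ‖r • z‖ = 1 := by
    rw [norm_smul, Real.norm_of_nonneg hr0.le, hr, inv_mul_cancel₀ h0.ne']
  have h2 : r • z ≠ 0 := by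
    intro h
    rw [h, norm_zero] at h1
    exact zero_ne_one h1
  have h3 : HasFDerivAt (fun w : ℂ => r • w) (r • ContinuousLinearMap.id ℝ ℂ) z :=
    (hasFDerivAt_id z).const_smul r
  have h4 := ((ang_smooth _ h2).differentiableAt (by norm_num)).hasFDerivAt.comp z h3
  have h5 : (ang_lam ∘ fun w : ℂ => r • w) = ang_lam := by
    funext w
    exact ang_hom w r hr0
  rw [h5] at h4
  rw [h4.fderiv]
  have h6 := hM (r • z) (by simpa using h1)
  have h7 : ‖r • ContinuousLinearMap.id ℝ ℂ‖ ≤ r := by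
    rw [norm_smul, Real.norm_of_nonneg hr0.le]
    exact mul_le_of_le_one_right hr0.le ContinuousLinearMap.norm_id_le
  calc _ ≤ ‖fderiv ℝ ang_lam (r • z)‖ * ‖r • ContinuousLinearMap.id ℝ ℂ‖ :=
        ContinuousLinearMap.opNorm_comp_le _ _
    _ ≤ M * r := mul_le_mul h6 h7 (norm_nonneg _) ((norm_nonneg _).trans h6)
    _ = M / ‖z‖ := by rw [hr, div_eq_mul_inv]

theorem ang_neg (x : ℝ) (hx : x < 0) : ∀ᶠ z in 𝓝 (x : ℂ), ang_lam z = 1 := by
  have h1 : ∀ᶠ z : ℂ in 𝓝 (x : ℂ), z.re < -(‖z‖ / 2) := by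
    refine ContinuousAt.eventually_lt Complex.continuous_re.continuousAt (by fun_prop) ?_
    rw [Complex.ofReal_re, Complex.norm_real, Real.norm_of_nonpos hx.le]
    linarith
  filter_upwards [h1] with z hz
  refine ang_one z ?_ hz.le
  rintro rfl
  simp at hz

theorem ang_pos (x : ℝ) (hx : 0 < x) : ∀ᶠ z in 𝓝 (x : ℂ), ang_lam z = 0 := by
  have h1 : ∀ᶠ z : ℂ in 𝓝 (x : ℂ), ‖z‖ / 2 < z.re := by
    refine ContinuousAt.eventually_lt (by fun_prop) Complex.continuous_re.continuousAt ?_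
    rw [Complex.ofReal_re, Complex.norm_real, Real.norm_of_nonneg hx.le]
    linarith
  filter_upwards [h1] with z hz
  refine ang_zero z ?_ hz.le
  rintro rfl
  simp at hz

theorem ang_shift (x : ℝ) : Tendsto (fun z : ℂ => z - 1) (𝓝 (x : ℂ)) (𝓝 ((x - 1 : ℝ) : ℂ)) := by
  rw [Complex.ofReal_sub, Complex.ofReal_one]
  exact (continuous_id.sub continuous_const).tendsto _

/-- The bump function. -/
noncomputable def ang_chi : ContDiffBump (0 : ℂ) := ⟨2, 5 / 2, by norm_num, by norm_num⟩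

/-- The angular function of the point one. -/
noncomputable def ang_La (z : ℂ) : ℝ := ang_chi z * ang_lam (z - 1) + (1 - ang_chi z) * ang_lam z

theorem ang_near (z : ℂ) (hz : ‖z‖ < 2) : ang_La z = ang_lam (z - 1) := by
  have h : ang_chi z = 1 := ang_chi.one_of_mem_closedBall (by
    rw [mem_closedBall_zero_iff]
    exact hz.le)
  unfold ang_La
  rw [h]
  ring

theorem ang_far (z : ℂ) (hz : 5 / 2 < ‖z‖) : ang_La z = ang_lam z := by
  have h : ang_chi z = 0 := ang_chi.zero_of_le_dist (by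
    rw [dist_zero_right]
    exact hz.le)
  unfold ang_La
  rw [h]
  ring

theorem ang_La_smooth (z : ℂ) (hz : z ≠ 1) : ContDiffAt ℝ 2 ang_La z := by
  have h1 : ContDiffAt ℝ 2 (fun w : ℂ => ang_lam (w - 1)) z :=
    ContDiffAt.comp (g := ang_lam) (f := fun w : ℂ => w - 1) z
      (ang_smooth (z - 1) (sub_ne_zero.2 hz)) (contDiffAt_id.sub contDiffAt_const)
  by_cases h0 : z = 0
  · refine h1.congr_of_eventuallyEq ?_
    have h2 : ∀ᶠ w : ℂ in 𝓝 z, ‖w‖ < 2 := by
      refine ContinuousAt.eventually_lt (by fun_prop) continuousAt_const ?_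
      rw [h0]
      norm_num
    filter_upwards [h2] with w hw
    exact ang_near w hw
  · have h3 : ContDiffAt ℝ 2 ang_chi z := ang_chi.contDiff.contDiffAt
    exact (h3.mul h1).add ((contDiffAt_const.sub h3).mul (ang_smooth z h0))

theorem angSt : AngSt := by
  obtain ⟨M, hM⟩ := ang_der
  obtain ⟨M', hM'⟩ := ang_bd ang_La (Metric.closedBall 0 3 ∩ {z | 1 / 4 ≤ ‖z - 1‖})
    ((isCompact_closedBall 0 3).inter_right (isClosed_le continuous_const (by fun_prop)))
    fun z hz => ang_La_smooth z (by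
      rintro rfl
      have h := hz.2
      norm_num at h)
  refine ⟨ang_lam, ang_La, max M M', ⟨ang_smooth, ang_mem, ang_one, ang_zero, fun z hz => ?_,
    ang_hom⟩, ang_La_smooth, fun z => ?_, ang_near, ang_far, fun x hx => ?_, fun x hx => ?_,
    fun z h1 h2 => ?_⟩
  · exact (hM z hz).trans (div_le_div_of_nonneg_right (le_max_left _ _) (norm_nonneg _))
  · have h1 := ang_mem z
    have h2 := ang_mem (z - 1)
    have h3 : 0 ≤ ang_chi z := ang_chi.nonneg
    have h4 : ang_chi z ≤ 1 := ang_chi.le_one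
    unfold ang_La
    constructor
    · exact add_nonneg (mul_nonneg h3 h2.1) (mul_nonneg (sub_nonneg.2 h4) h1.1)
    · nlinarith [mul_nonneg h3 (sub_nonneg.2 h2.2), mul_nonneg (sub_nonneg.2 h4) (sub_nonneg.2 h1.2)]
  · have h1 := (ang_shift x).eventually (ang_neg (x - 1) (by linarith))
    by_cases h0 : x < 0
    · filter_upwards [h1, ang_neg x h0] with z h2 h3
      unfold ang_La
      rw [h2, h3]
      ring
    · have h2 : ∀ᶠ w : ℂ in 𝓝 (x : ℂ), ‖w‖ < 2 := by
        refine ContinuousAt.eventually_lt (by fun_prop) continuousAt_const ?_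
        rw [Complex.norm_real, Real.norm_of_nonneg (not_lt.1 h0)]
        linarith
      filter_upwards [h1, h2] with z h3 h4
      rw [ang_near z h4, h3]
  · filter_upwards [(ang_shift x).eventually (ang_pos (x - 1) (by linarith)),
      ang_pos x (by linarith)] with z h2 h3
    unfold ang_La
    rw [h2, h3]
    ring
  · exact (hM' z ⟨mem_closedBall_zero_iff.2 h1, h2⟩).trans (le_max_right _ _)

end Pool.Agent.MA2
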