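import Pool.Agent.Lib.MP_c86c76_al.An2.St
import Pool.Agent.Lib.MP_c86c76_al.An.Deg

/-!
The least energy is bounded when a puncture runs into another one.
-/

set_option autoImplicit false

namespace Pool.Agent.MA2

open Complex MeasureTheory Filter Topology Set Function
open Pool.Agent.MA (cf Nr rc kk Tr bb gz DD d1 d2 en dg)

section Ang

variable {lam La : ℂ → ℝ} {M : ℝ}

theorem col_neg (hA : Ang lam M) {v : ℂ} (h : v.re < -(‖v‖ / 2)) : ∀ᶠ w in 𝓝 v, lam w = 1 :=
  (continuous_re.continuousAt.eventually_lt (g := fun w : ℂ => -(‖w‖ / 2)) (by fun_prop) h).mono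
    fun w a => hA.2.2.1 w (by rintro rfl; simp at a) a.le

theorem col_pos (hA : Ang lam M) {v : ℂ} (h : ‖v‖ / 2 < v.re) : ∀ᶠ w in 𝓝 v, lam w = 0 :=
  (ContinuousAt.eventually_lt (f := fun w : ℂ => ‖w‖ / 2) (by fun_prop)
    continuous_re.continuousAt h).mono fun w a => hA.2.2.2.1 w (by rintro rfl; simp at a) a.le

theorem col_hom (hA : Ang lam M) (v : ℂ) {r : ℝ} (hr : 0 < r) : lam (v / r) = lam v := by
  rw [← hA.2.2.2.2.2 _ r hr, mul_div_cancel₀ _ (ofReal_ne_zero.2 hr.ne')]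

theorem col_sub (b z : ℂ) : Tendsto (fun w => w - b) (𝓝 z) (𝓝 (z - b)) :=
  (continuous_id.sub continuous_const).tendsto z

theorem col_zero {f : ℂ → ℝ} {c : ℝ} {z : ℂ} (h : ∀ᶠ w in 𝓝 z, f w = c) : fderiv ℝ f z = 0 :=
  (EventuallyEq.fderiv_eq (f := fun _ => c) h).trans (fderiv_const_apply c)

theorem col_eq {f : ℂ → ℝ} {b z : ℂ} (h : ∀ᶠ w in 𝓝 z, f w = lam (w - b)) :
    fderiv ℝ f z = fderiv ℝ lam (z - b) :=
  (EventuallyEq.fderiv_eq (f := fun w => lam (w - b)) h).trans (fderiv_comp_sub b)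

/-- An angular function of the real point `b`. -/
def ColA (L : ℂ → ℝ) (b : ℝ) : Prop :=
  (∀ z : ℂ, z ≠ b → ContDiffAt ℝ 2 L z) ∧ (∀ z, 0 ≤ L z ∧ L z ≤ 1) ∧
  (∀ x : ℝ, x < b → ∀ᶠ z in 𝓝 (x : ℂ), L z = 1) ∧ ∀ x : ℝ, b < x → ∀ᶠ z in 𝓝 (x : ℂ), L z = 0

theorem col_lam (hA : Ang lam M) (b : ℝ) : ColA (fun z => lam (z - b)) b := by
  refine ⟨fun z h => (hA.1 _ (sub_ne_zero.2 h)).comp z (contDiffAt_id.sub contDiffAt_const),
    fun z => hA.2.1 _, fun x h => (col_sub _ _).eventually (col_neg hA ?_),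
    fun x h => (col_sub _ _).eventually (col_pos hA ?_)⟩
  · rw [← ofReal_sub, norm_real, ofReal_re, Real.norm_of_nonpos (by linarith)]
    linarith
  · rw [← ofReal_sub, norm_real, ofReal_re, Real.norm_of_nonneg (by linarith)]
    linarith

theorem col_sc (hA : Ang lam M) (hL : Lam lam La M) (a : ℝ) {r : ℝ} (hr : 0 < r) :
    ColA (fun z => La ((z - a) / r)) (a + r) ∧
    (∀ z : ℂ, ‖z - a‖ < 2 * r → ∀ᶠ w in 𝓝 z, La ((w - a) / r) = lam (w - (a + r : ℝ))) ∧
    (∀ z : ℂ, 5 / 2 * r < ‖z - a‖ → ∀ᶠ w in 𝓝 z, La ((w - a) / r) = lam (w - a)) ∧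
    ∀ z : ℂ, ‖z - a‖ ≤ 3 * r → r / 4 ≤ ‖z - (a + r : ℝ)‖ →
      ‖fderiv ℝ (fun w => La ((w - a) / r)) z‖ ≤ M / r := by
  have r0 : (r : ℂ) ≠ 0 := ofReal_ne_zero.2 hr.ne'
  have e1 : ∀ w : ℂ, (w - a) / r - 1 = (w - (a + r : ℝ)) / r := fun w => by
    push_cast
    field_simp
    ring
  have e2 : ∀ w : ℂ, ‖w / r‖ = ‖w‖ / r := fun w => by
    rw [norm_div, norm_real, Real.norm_of_nonneg hr.le]
  have e3 : ∀ w : ℂ, w ≠ (a + r : ℝ) → (w - a) / r ≠ 1 := fun w h =>
    sub_ne_zero.1 (e1 w ▸ div_ne_zero (sub_ne_zero.2 h) r0)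
  have c1 : Continuous fun w : ℂ => ‖w - a‖ := by fun_prop
  have t1 : ∀ x : ℝ, Tendsto (fun w : ℂ => (w - a) / r) (𝓝 x) (𝓝 (((x - a) / r : ℝ) : ℂ)) :=
    fun x => Continuous.tendsto' (by fun_prop) _ _ (by push_cast; rfl)
  refine ⟨⟨fun z h => (hL.1 _ (e3 z h)).comp z ((contDiffAt_id.sub contDiffAt_const).div_const _),
    fun z => hL.2.1 _, fun x h => (t1 x).eventually (hL.2.2.2.2.1 _ ?_),
    fun x h => (t1 x).eventually (hL.2.2.2.2.2.1 _ ?_)⟩, fun z h => ?_, fun z h => ?_,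
    fun z h h' => ?_⟩
  · rw [div_lt_one hr]
    linarith
  · rw [one_lt_div hr]
    linarith
  · filter_upwards [c1.continuousAt.eventually_lt continuousAt_const h] with w a
    rw [hL.2.2.1 _ (by rwa [e2, div_lt_iff₀ hr]), e1, col_hom hA _ hr]
  · filter_upwards [continuousAt_const.eventually_lt c1.continuousAt h] with w a
    rw [hL.2.2.2.1 _ (by rwa [e2, lt_div_iff₀ hr]), col_hom hA _ hr]
  · have d : HasFDerivAt (fun w : ℂ => (w - a) / r) (r⁻¹ • ContinuousLinearMap.id ℝ ℂ) z := by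
      refine (((hasFDerivAt_id (𝕜 := ℝ) z).sub_const (a : ℂ)).const_smul r⁻¹).congr_of_eventuallyEq
        (Eventually.of_forall fun w => ?_)
      simp [div_eq_inv_mul]
    have n1 : z ≠ (a + r : ℝ) := by
      rintro rfl
      simp only [sub_self, norm_zero] at h'
      linarith
    have d2 := ((hL.1 _ (e3 z n1)).differentiableAt (by norm_num)).hasFDerivAt.comp z d
    refine (congrArg norm d2.fderiv).trans_le ((ContinuousLinearMap.opNorm_comp_le _ _).trans ?_)
    rw [norm_smul, ContinuousLinearMap.norm_id, mul_one, Real.norm_of_nonneg (inv_pos.2 hr).le,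
      div_eq_mul_inv M]
    refine mul_le_mul_of_nonneg_right (hL.2.2.2.2.2.2 _ ?_ ?_) (inv_pos.2 hr).le
    · rwa [e2, div_le_iff₀ hr]
    · rw [e1, e2, le_div_iff₀ hr]
      linarith

theorem col_L (hA : Ang lam M) (hL : Lam lam La M) {a b : ℝ} (h : a ≤ b) : ∃ L : ℂ → ℝ,
    ColA L b ∧ (∀ᶠ w in 𝓝 (b : ℂ), L w = lam (w - b)) ∧
      ∀ z : ℂ, 3 * (b - a) < ‖z - a‖ → ∀ᶠ w in 𝓝 z, L w = lam (w - a) := by
  rcases h.eq_or_lt with rfl | h
  · exact ⟨_, col_lam hA a, Eventually.of_forall fun _ => rfl,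
      fun _ _ => Eventually.of_forall fun _ => rfl⟩
  · obtain ⟨h1, h2, h3, -⟩ := col_sc hA hL a (sub_pos.2 h)
    rw [add_sub_cancel] at h1 h2
    refine ⟨_, h1, h2 b ?_, fun z e => h3 z (by linarith)⟩
    rw [← ofReal_sub, norm_real, Real.norm_of_nonneg (by linarith)]
    linarith

/-- Angular functions of all points of a configuration. -/
theorem col_fam (hA : Ang lam M) (hL : Lam lam La M) {n : ℕ} {t : Fin (n + 1) → ℝ}
    (ht : StrictMono t) : ∃ (L : Fin (n + 1) → ℂ → ℝ) (δ B C : ℝ), 0 < δ ∧ 0 ≤ C ∧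
    (∀ m, ColA (L m) (t m)) ∧ (∀ m m', m ≠ m' → 2 * δ < |t m - t m'|) ∧
    (∀ m, t m - t 0 + δ < B) ∧
    (∀ m (z : ℂ), ‖z - t m‖ ≤ δ → ∀ m',
      fderiv ℝ (L m') z = if m' = m then fderiv ℝ lam (z - t m) else 0) ∧
    (∀ m (z : ℂ), B ≤ ‖z - t 0‖ → fderiv ℝ (L m) z = fderiv ℝ lam (z - t 0)) ∧
    ∀ m (z : ℂ), ‖z - t 0‖ ≤ B → δ ≤ ‖z - t m‖ → ‖fderiv ℝ (L m) z‖ ≤ C := by
  have t0 : ∀ m, t 0 ≤ t m := fun m => ht.monotone (Fin.zero_le m)
  choose L l1 l2 l3 using fun m => col_L hA hL (t0 m)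
  have e1 : ∀ m, ∀ᶠ z in 𝓝 (t m : ℂ), ∀ m',
      fderiv ℝ (L m') z = if m' = m then fderiv ℝ lam (z - t m) else 0 := fun m =>
    eventually_all.2 fun m' => by
      rcases lt_trichotomy m' m with h | rfl | h
      · exact ((l1 m').2.2.2 _ (ht h)).eventually_nhds.mono fun z a => by
          rw [if_neg h.ne, col_zero a]
      · exact (l2 m').eventually_nhds.mono fun z a => by rw [if_pos rfl, col_eq a]
      · exact ((l1 m').2.2.1 _ (ht h)).eventually_nhds.mono fun z a => by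
          rw [if_neg h.ne', col_zero a]
  have e2 : ∀ᶠ δ : ℝ in 𝓝 0, ∀ m m', m ≠ m' → 2 * δ < |t m - t m'| :=
    eventually_all.2 fun m => eventually_all.2 fun m' => by
      by_cases h : m = m'
      · exact Eventually.of_forall fun _ a => absurd h a
      · exact (ContinuousAt.eventually_lt (f := fun δ : ℝ => 2 * δ) (by fun_prop)
          continuousAt_const (by simpa [sub_eq_zero] using ht.injective.ne h)).mono fun _ a _ => a
  obtain ⟨δ, ⟨d1, d2⟩, d0⟩ := ((((eventually_all.2 fun m =>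
    eventually_closedBall_subset (e1 m)).and e2).filter_mono nhdsWithin_le_nhds).and
      (self_mem_nhdsWithin (s := Ioi (0 : ℝ)))).exists
  obtain ⟨B, hB⟩ := (eventually_all.2 fun m => eventually_gt_atTop (3 * (t m - t 0) + δ)).exists
  have e3 : ∀ m, ∃ C, ∀ z ∈ Metric.closedBall (t 0 : ℂ) B ∩ {z | δ ≤ ‖z - t m‖},
      ‖fderiv ℝ (L m) z‖ ≤ C := fun m =>
    ((isCompact_closedBall _ _).inter_right
      (isClosed_le continuous_const (by fun_prop))).exists_bound_of_continuousOn fun z hz =>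
        (((l1 m).1 z (by rintro rfl; exact not_le.2 d0 (by simpa using hz.2))).continuousAt_fderiv
          (by norm_num)).continuousWithinAt
  choose C hC using e3
  have d0' : 0 < δ := d0
  refine ⟨L, δ, B, ∑ m, |C m|, d0, by positivity, l1, d2, fun m => by linarith [hB m, t0 m],
    fun m z h => d1 m (mem_closedBall_iff_norm.2 h), fun m z h => col_eq (l3 m z ?_),
    fun m z h h' => (hC m z ⟨mem_closedBall_iff_norm.2 h, h'⟩).trans ((le_abs_self _).trans
      (Finset.single_le_sum (f := fun m => |C m|) (fun _ _ => abs_nonneg _) (Finset.mem_univ m)))⟩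
  linarith [hB m]

end Ang

theorem col_pi {n : ℕ} {i j : Fin (n + 1)} (hj : j ≠ 0) (hij : i ≠ j) :
    ∃ π : Equiv.Perm (Fin (n + 1)), π 0 = 0 ∧ (π.symm j : ℕ) = π.symm i + 1 ∧
      ∀ T : Fin (n + 1) → ℝ, (∀ m m', m ≠ j → m' ≠ j → m < m' → T m < T m') →
        (∀ m, m ≠ j → m ≤ i → T m < T j) → (∀ m, m ≠ j → i < m → T j < T m) →
        StrictMono (T ∘ π) := by
  obtain ⟨κ, k1, k2⟩ : ∃ κ : Fin (n + 1) → ℕ, κ j = 2 * i + 1 ∧ ∀ m, m ≠ j → κ m = 2 * m :=
    ⟨fun m => if m = j then 2 * i + 1 else 2 * m, if_pos rfl, fun m h => if_neg h⟩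
  have inj : Injective κ := fun m m' h => by
    by_cases a : m = j <;> by_cases b : m' = j
    · rw [a, b]
    · rw [a, k1, k2 _ b] at h
      omega
    · rw [b, k1, k2 _ a] at h
      omega
    · rw [k2 _ a, k2 _ b] at h
      exact Fin.ext (by omega)
  have s := (Tuple.monotone_sort κ).strictMono_of_injective (inj.comp (Equiv.injective _))
  generalize Tuple.sort κ = π at s
  have p : ∀ m m', π.symm m < π.symm m' ↔ κ m < κ m' := fun m m' => by
    rw [← s.lt_iff_lt]
    simp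
  refine ⟨π, ?_, ?_, fun T h1 h2 h3 a b h => ?_⟩
  · refine (π.eq_symm_apply.1 (Fin.le_zero_iff.1 (not_lt.1 fun h => ?_)).symm)
    have := (p (π 0) 0).1 (by simpa using h)
    rw [k2 0 hj.symm] at this
    simp at this
  · have h : (π.symm i : ℕ) < π.symm j := (p i j).2 (by rw [k1, k2 i hij]; omega)
    by_contra e
    have c : (π.symm i : ℕ) + 1 < π.symm j := by omega
    have a := (p i (π ⟨_, c.trans (π.symm j).2⟩)).1 (by simp [Fin.lt_def])
    have b := (p (π ⟨_, c.trans (π.symm j).2⟩) j).1 (by simpa [Fin.lt_def] using c)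
    rw [k2 i hij] at a
    omega
  · have c : κ (π a) < κ (π b) := s h
    change T (π a) < T (π b)
    by_cases x : π a = j <;> by_cases y : π b = j
    · rw [x, y] at c
      omega
    · rw [x, k1, k2 _ y] at c
      exact x ▸ h3 _ y (by omega)
    · rw [y, k1, k2 _ x] at c
      exact y ▸ h2 _ x (by omega)
    · rw [k2 _ x, k2 _ y] at c
      exact h1 _ _ x y (by omega)

theorem col_kk {n : ℕ} {T : Fin n → ℝ} {π : Equiv.Perm (Fin n)} (h : StrictMono (T ∘ π)) (x : ℝ)
    (b : Fin n) : kk T x ≤ π.symm b ↔ x ≤ T b := by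
  have e : kk (T ∘ π) x = kk T x := Finset.card_equiv π (by simp)
  have e2 : (T ∘ π) (π.symm b) = T b := by simp
  rw [← e, ← e2]
  exact ⟨fun a => not_lt.1 fun c => by have := MA.deg_lt_kk h.monotone c; omega,
    MA.deg_kk_le h.monotone⟩

/-- The centres of the annuli. -/
def colC {n : ℕ} (i : Fin (n + 1)) : Option (Option (Fin (n + 1))) → Fin (n + 1)
  | none => 0
  | some none => i
  | some (some m) => m

/-- The loops of the annuli. -/
def colK {n : ℕ} (π : Equiv.Perm (Fin (n + 1))) (i : Fin (n + 1)) :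
    Option (Option (Fin (n + 1))) → ℕ × ℕ
  | none => (0, n + 1)
  | some none => (π.symm i, π.symm i + 2)
  | some (some m) => (π.symm m, π.symm m + 1)

/-- The ranges of the annuli. -/
def colJ {n : ℕ} (B s δ : ℝ) (ρ : Fin (n + 1) → ℝ) : Option (Option (Fin (n + 1))) → Set ℝ
  | none => Ici (Real.log B)
  | some none => Icc (Real.log s) (Real.log δ)
  | some (some m) => Iic (Real.log (ρ m))

theorem col_int (a : ℂ) (c : ℝ) {s : ℝ} (hs : 0 ≤ s) :
    Integrable ((Metric.closedBall a s).indicator fun _ => c) ∧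
      ∫ z, (Metric.closedBall a s).indicator (fun _ => c) z = s ^ 2 * Real.pi * c := by
  refine ⟨(integrable_indicator_iff measurableSet_closedBall).2
    (integrableOn_const measure_closedBall_lt_top.ne), ?_⟩
  rw [integral_indicator_const _ measurableSet_closedBall, measureReal_def, volume_closedBall]
  simp [hs]

theorem colSt (hA : AngSt) (hK : KapSt) (hP : PathSt) (hN : NeckSt) (hT : TreeSt) : ColSt := by
  intro H _ _ _ n τ t i j hτ ht hj hij
  obtain ⟨lam, La, M, hA, hL⟩ := hA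
  obtain ⟨K0, k0, hT⟩ := hT lam M (n + 1) (n + 3) hA
  obtain ⟨Cp, p0, hP⟩ := hP
  obtain ⟨Cn, n0, hN⟩ := hN
  obtain ⟨π, q0, q1, q2⟩ := col_pi hj hij
  obtain ⟨L, δ, B, C, d0, c0, l1, l2, l3, l4, l5, l6⟩ := col_fam hA hL ht
  have M0 : 0 ≤ M := by simpa using (norm_nonneg _).trans (hA.2.2.2.2.1 1 one_ne_zero)
  have B0 : 0 < B := by linarith [l3 0]
  have kap : ∀ c, ∃ K, Kap (lp τ π (colK π i c).1 (colK π i c).2) 0 K := fun c => by
    obtain ⟨e1, e2, -, e3⟩ := hτ π q0
    obtain ⟨y, K, h⟩ : Fk τ π (colK π i c).1 (colK π i c).2 := by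
      rcases c with _ | _ | m
      exacts [e3, e2 _ (q1 ▸ Nat.le_of_lt_succ (π.symm j).2), e1 _ (Nat.le_of_lt_succ (π.symm m).2)]
    exact ⟨_, (hK H _ y K h).2.2.2.1 0⟩
  choose K hKc using kap
  obtain ⟨S, hS⟩ : ∃ S, S = ∑ m ∈ Finset.range (n + 1), ‖τ.ga π m 0 - τ.ga π (m + 1) 0‖ := ⟨_, rfl⟩
  refine ⟨K0 * (B ^ 2 * Real.pi * (C * S) ^ 2 + 9 * Real.pi * (4 * M * S) ^ 2 +
    ∑ c, (Cp + 2 * Cn) * K c), ?_⟩
  filter_upwards [Ioo_mem_nhdsGT (show 0 < δ / 9 by positivity)] with r ⟨r0, r1⟩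
  obtain ⟨g1, g2, g3, g4⟩ := col_sc hA hL (t i) r0
  obtain ⟨T, hT'⟩ : ∃ T, T = update t j (t i + r) := ⟨_, rfl⟩
  have Tj : T j = t i + r := by rw [hT', update_self]
  have Tm : ∀ m, m ≠ j → T m = t m := fun m h => by rw [hT', update_of_ne h]
  rw [← hT']
  have mono : StrictMono (T ∘ π) := by
    refine q2 T (fun m m' a b h => ?_) (fun m a h => ?_) fun m a h => ?_
    · rw [Tm m a, Tm m' b]
      exact ht h
    · rw [Tm m a, Tj]
      linarith [ht.monotone h]
    · have := l2 m i h.ne'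
      rw [abs_of_pos (sub_pos.2 (ht h))] at this
      rw [Tm m a, Tj]
      linarith
  obtain ⟨ρ, ρi, ρj, ρm⟩ : ∃ ρ : Fin (n + 1) → ℝ, ρ i = r / 4 ∧ ρ j = r / 4 ∧
      ∀ m, m ≠ i → m ≠ j → ρ m = δ :=
    ⟨fun m => if m = i ∨ m = j then r / 4 else δ, if_pos (.inl rfl), if_pos (.inr rfl),
      fun m a b => if_neg fun h => h.elim a b⟩
  have cs : ∀ m, m = i ∨ m = j ∨ (m ≠ i ∧ m ≠ j) := fun m => by tauto
  have ρ0 : ∀ m, 0 < ρ m := fun m => by
    rcases cs m with rfl | rfl | ⟨a, b⟩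
    · linarith
    · linarith
    · rwa [ρm m a b]
  have prof : ∀ c, ∃ p : ℝ → H, ContDiff ℝ 2 p ∧ (∀ s, s ∉ colJ B (3 * r) δ ρ c → p s = 0) ∧
      IntegrableOn (pe (lp τ π (colK π i c).1 (colK π i c).2) p) (colJ B (3 * r) δ ρ c) ∧
      ∫ s in colJ B (3 * r) δ ρ c, pe (lp τ π (colK π i c).1 (colK π i c).2) p s ≤
        (Cp + 2 * Cn) * K c := fun c => by
    have K0 := (hK H _ _ _ (hKc c)).1
    have a1 := mul_nonneg p0 K0
    have a2 := mul_nonneg n0 K0
    rcases c with _ | _ | m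
    · obtain ⟨p, h1, h2, h3, h4⟩ := (hP H _ _ _ (Real.log B) (hKc none)).1
      exact ⟨p, h1, fun s h => h2 s (not_le.1 h).le, h3, h4.trans (by linarith)⟩
    · obtain ⟨p, h1, h2, h3, h4, h5⟩ := hN H _ _ _ _ _ (Real.log (3 * r)) (Real.log δ)
        (hKc (some none)) (hKc (some none)) (by
          have e1 : 1 ≤ Real.log 3 := (Real.le_log_iff_exp_le (by norm_num)).2
            (Real.exp_one_lt_d9.le.trans (by norm_num))
          have e2 := Real.log_le_log (show 0 < 3 * (3 * r) by positivity) (show _ ≤ δ by linarith)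
          rw [Real.log_mul (by norm_num) (by positivity)] at e2
          linarith)
      refine ⟨p, h1, fun s h => (not_and_or.1 h).elim (fun a => h2 s (not_le.1 a).le)
        fun a => h3 s (not_le.1 a).le, h4, h5.trans ?_⟩
      simp only [sub_self, norm_zero, ne_eq, OfNat.ofNat_ne_zero, not_false_eq_true, zero_pow,
        zero_div]
      linarith
    · obtain ⟨p, h1, h2, h3, h4⟩ := (hP H _ _ _ (Real.log (ρ m)) (hKc (some (some m)))).2
      exact ⟨p, h1, fun s h => h2 s (not_le.1 h).le, h3, h4.trans (by linarith)⟩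
  choose p p1 p2 p3 p4 using prof
  have clo : ∀ c, IsClosed (colJ B (3 * r) δ ρ c) := by
    rintro (_ | _ | m)
    exacts [isClosed_Ici, isClosed_Icc, isClosed_Iic]
  obtain ⟨L', Lj, Lm⟩ : ∃ L' : Fin (n + 1) → ℂ → ℝ,
      L' j = (fun z => L i z + La ((z - t i) / r) - lam (z - t i)) ∧ ∀ m, m ≠ j → L' m = L m :=
    ⟨update L j _, update_self _ _ _, fun m h => update_of_ne h _ _⟩
  obtain ⟨Λ, hΛ⟩ : ∃ Λ : ℕ → ℂ → ℝ, ∀ m, m < n + 1 → ∃ b, m = π.symm b ∧ Λ m = L' b :=
    ⟨fun m => if h : m < n + 1 then L' (π ⟨m, h⟩) else 0, fun m h => ⟨π ⟨m, h⟩, by simp, dif_pos h⟩⟩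
  have g5 := col_lam hA (t i)
  have zone : ∀ z : ℂ, (∀ m, (T m : ℂ) ≠ z) → ∀ c,
      Real.log ‖z - T (colC i c)‖ ∈ colJ B (3 * r) δ ρ c ↔
        c.elim (B ≤ ‖z - t 0‖) fun c => c.elim (3 * r ≤ ‖z - t i‖ ∧ ‖z - t i‖ ≤ δ)
          fun m => ‖z - T m‖ ≤ ρ m := fun z hz c => by
    have h := norm_pos_iff.2 (sub_ne_zero.2 (hz (colC i c)).symm)
    rcases c with _ | _ | m
    · exact Tm 0 hj.symm ▸ Real.log_le_log_iff B0 h
    · exact Tm i hij ▸ and_congr (Real.log_le_log_iff (by positivity) h) (Real.log_le_log_iff h d0)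
    · exact Real.log_le_log_iff h (ρ0 m)
  have tri : ∀ (z : ℂ) (x y : ℝ), |x - y| ≤ ‖z - x‖ + ‖z - y‖ ∧ ‖z - x‖ ≤ ‖z - y‖ + |x - y| :=
    fun z x y => by
      have e : |x - y| = ‖(y : ℂ) - x‖ := by rw [← ofReal_sub, norm_real, abs_sub_comm]; rfl
      rw [e]
      exact ⟨(norm_sub_le_norm_sub_add_norm_sub _ z _).trans_eq (by rw [norm_sub_rev, add_comm]),
        norm_sub_le_norm_sub_add_norm_sub _ _ _⟩
  have geo : ∀ z : ℂ, (∀ m m', m ≠ m' → 2 * δ < ‖z - t m‖ + ‖z - t m'‖) ∧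
      (∀ m, ‖z - t 0‖ + δ < B + ‖z - t m‖) ∧ ‖z - t i‖ ≤ ‖z - (t i + r : ℝ)‖ + r ∧
      r ≤ ‖z - t i‖ + ‖z - (t i + r : ℝ)‖ := fun z => by
    have e : |t i - (t i + r)| = r := by rw [sub_add_cancel_left, abs_neg, abs_of_pos r0]
    have e2 := tri z (t i) (t i + r)
    rw [e] at e2
    refine ⟨fun m m' h => (l2 m m' h).trans_le (tri z _ _).1, fun m => ?_, e2.2, e2.1⟩
    have := (tri z (t 0) (t m)).2
    rw [abs_of_nonpos (sub_nonpos.2 (ht.monotone (Fin.zero_le m)))] at this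
    linarith [l3 m]
  have dj : ∀ z : ℂ, (∀ m, (T m : ℂ) ≠ z) → fderiv ℝ (L' j) z = fderiv ℝ (L i) z +
      fderiv ℝ (fun z => La ((z - t i) / r)) z - fderiv ℝ lam (z - t i) := fun z hz => by
    have a : z ≠ t i := Tm i hij ▸ (hz i).symm
    have d1 := ((l1 i).1 z a).differentiableAt (by norm_num)
    have d2 := (g1.1 z (Tj ▸ (hz j).symm)).differentiableAt (by norm_num)
    rw [Lj, fderiv_fun_sub (d1.fun_add d2) ((g5.1 z a).differentiableAt (by norm_num)),
      fderiv_fun_add d1 d2, fderiv_comp_sub]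
  have far : ∀ z : ℂ, (∀ m, (T m : ℂ) ≠ z) → 3 * r ≤ ‖z - t i‖ →
      fderiv ℝ (L' j) z = fderiv ℝ (L i) z := fun z hz h => by
    rw [dj z hz, col_eq (g3 z (by linarith)), add_sub_cancel_right]
  have nea : ∀ z : ℂ, (∀ m, (T m : ℂ) ≠ z) → ‖z - t i‖ ≤ δ →
      fderiv ℝ (L' j) z = fderiv ℝ (fun z => La ((z - t i) / r)) z := fun z hz h => by
    rw [dj z hz, l4 i z h i, if_pos rfl, add_sub_cancel_left]
  have pos : ∀ b m : Fin (n + 1), ((π.symm m : ℕ) ≤ π.symm b ∧ (π.symm b : ℕ) < π.symm m + 1) ↔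
      b = m := fun b m => ⟨fun h => π.symm.injective (Fin.ext (by omega)), fun h => by
        rw [h]; omega⟩
  obtain ⟨i1, i2⟩ := col_int (t 0) ((C * S) ^ 2) B0.le
  obtain ⟨i3, i4⟩ := col_int (t i) ((4 * M * S / r) ^ 2) (show 0 ≤ 3 * r by positivity)
  refine And.imp_right (fun h => le_trans h ?_) (hT H τ π T _ (colC i) (colJ B (3 * r) δ ρ)
    (fun c => (colK π i c).1) (fun c => (colK π i c).2) p (fun _ => 0) 0 _ Λ
    (fun z => (Metric.closedBall (t 0 : ℂ) B).indicator (fun _ => (C * S) ^ 2) z +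
      (Metric.closedBall (t i : ℂ) (3 * r)).indicator (fun _ => (4 * M * S / r) ^ 2) z) mono
    (by simp) (fun _ => rfl) (fun c => ⟨(clo c).measurableSet, ?_, ?_, p1 c, fun s h => ?_, p3 c⟩)
    (fun m hm z hz => ?_) (fun m hm x hx => ?_) (fun c z h hz => ⟨?_, fun m hm => ?_⟩)
    (fun z hz h => ?_) (fun z => add_nonneg (indicator_nonneg (fun _ _ => by positivity) _)
      (indicator_nonneg (fun _ _ => by positivity) _)) (i1.add i3))
  · rw [integral_add i1 i3, i2, i4]
    refine mul_le_mul_of_nonneg_left (add_le_add (le_of_eq ?_)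
      (Finset.sum_le_sum fun c _ => p4 c)) k0
    field_simp
    ring
  · rcases c with _ | _ | m <;> simp [colK]
  · have := (π.symm j).2
    rcases c with _ | _ | m
    exacts [le_rfl, by change _ + 2 ≤ _; omega, (π.symm m).2]
  · exact (EventuallyEq.deriv_eq (f := fun _ => 0) (Eventually.mono ((clo c).isOpen_compl.mem_nhds h)
      (p2 c))).trans (deriv_const _ _)
  · obtain ⟨b, -, e⟩ := hΛ m hm
    rw [e]
    by_cases a : b = j
    · have a1 : z ≠ t i := Tm i hij ▸ (hz i).symm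
      rw [a, Lj]
      refine ⟨(((l1 i).1 z a1).add (g1.1 z (Tj ▸ (hz j).symm))).sub (g5.1 z a1), abs_le.2 ?_⟩
      have := (l1 i).2.1 z
      have := g1.2.1 z
      have := g5.2.1 z
      constructor <;> linarith
    · rw [Lm b a]
      have := (l1 b).2.1 z
      exact ⟨(l1 b).1 z (Tm b a ▸ (hz b).symm), abs_le.2 ⟨by linarith, by linarith⟩⟩
  · obtain ⟨b, rfl, e⟩ := hΛ m hm
    simp only [e, col_kk mono]
    by_cases a : b = j
    · rw [a, Lj, Tj]
      have : ∀ᶠ z in 𝓝 (x : ℂ), L i z = lam (z - t i) := by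
        rcases lt_or_gt_of_ne (Tm i hij ▸ hx i) with h | h
        · filter_upwards [(l1 i).2.2.2 x h, g5.2.2.2 x h] with z a b using a.trans b.symm
        · filter_upwards [(l1 i).2.2.1 x h, g5.2.2.1 x h] with z a b using a.trans b.symm
      rcases lt_or_gt_of_ne (Tj ▸ hx j) with h | h
      · filter_upwards [this, g1.2.2.2 x h] with z a b
        rw [if_neg h.not_ge, a, b, add_zero, sub_self]
      · filter_upwards [this, g1.2.2.1 x h] with z a b
        rw [if_pos h.le, a, b, add_sub_cancel_left]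
    · rw [Lm b a, Tm b a]
      rcases lt_or_gt_of_ne (Tm b a ▸ hx b) with h | h
      · simpa only [if_neg h.not_ge] using (l1 b).2.2.2 x h
      · simpa only [if_pos h.le] using (l1 b).2.2.1 x h
  · rw [zero_add, Finset.sum_eq_single c (fun c' _ e => ?_) (by simp), sub_zero]
    rw [sub_zero]
    refine p2 c' _ fun h' => e ?_
    have a := (zone z hz c).1 h.2
    have b := (zone z hz c').1 h'
    obtain ⟨s1, s2, s3, s4⟩ := geo z
    have out : ∀ m, ‖z - T m‖ ≤ ρ m → ‖z - t 0‖ < B ∧ ¬ (3 * r ≤ ‖z - t i‖ ∧ ‖z - t i‖ ≤ δ) := by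
      intro m hh
      rcases cs m with rfl | rfl | ⟨a, b⟩
      · rw [Tm m hij, ρi] at hh
        exact ⟨by linarith [s2 m], fun a => by linarith [a.1]⟩
      · rw [Tj, ρj] at hh
        exact ⟨by linarith [s2 i], fun a => by linarith [a.1]⟩
      · rw [Tm m b, ρm m a b] at hh
        exact ⟨by linarith [s2 m], fun c => by linarith [c.2, s1 m i a]⟩
    have home : ∀ m, ‖z - T m‖ ≤ ρ m → ‖z - t (if m = j then i else m)‖ ≤ δ := by
      intro m hh
      rcases cs m with rfl | rfl | ⟨a, b⟩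
      · rw [Tm m hij, ρi] at hh
        rw [if_neg hij]
        linarith
      · rw [Tj, ρj] at hh
        rw [if_pos rfl]
        linarith
      · rwa [if_neg b, ← Tm m b, ← ρm m a b]
    rcases c with _ | _ | m <;> rcases c' with _ | _ | m' <;> simp only [Option.elim] at a b
    · rfl
    · linarith [s2 i, b.2]
    · linarith [(out _ b).1]
    · linarith [s2 i, a.2]
    · rfl
    · exact absurd a (out _ b).2
    · linarith [(out _ a).1]
    · exact absurd b (out _ a).2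
    · have e : (if m = j then i else m) = if m' = j then i else m' :=
        by_contra fun e => by linarith [s1 _ _ e, home m a, home m' b]
      split_ifs at e with x y y
      · rw [x, y]
      · rw [x, Tj, ρj] at a
        rw [← e, Tm i hij, ρi] at b
        linarith
      · rw [y, Tj, ρj] at b
        rw [e, Tm i hij, ρi] at a
        linarith
      · rw [e]
  · obtain ⟨b, rfl, e⟩ := hΛ m hm
    have a := (zone z hz c).1 h.2
    obtain ⟨s1, s2, s3, s4⟩ := geo z
    rw [e]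
    rcases c with _ | _ | m <;> simp only [Option.elim, colK, colC, pos] at a ⊢
    · rw [if_pos ⟨Nat.zero_le _, hm⟩, Tm 0 hj.symm]
      by_cases x : b = j
      · rw [x, far z hz (by linarith [s2 i]), l5 i z a]
      · rw [Lm b x, l5 b z a]
    · rw [Tm i hij]
      by_cases x : b = j
      · rw [x, far z hz a.1, l4 i z a.2, if_pos rfl, if_pos (by omega)]
      · rw [Lm b x, l4 i z a.2]
        refine if_congr ⟨fun y => by rw [y]; omega, fun y => (pos b i).1 ⟨y.1, ?_⟩⟩ rfl rfl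
        have : (π.symm b : ℕ) ≠ π.symm j := fun y => x (π.symm.injective (Fin.ext y))
        omega
    · rcases cs m with rfl | rfl | ⟨x, y⟩
      · rw [Tm m hij, ρi] at a
        rw [Tm m hij]
        by_cases x : b = j
        · rw [x, if_neg hij.symm, nea z hz (by linarith), col_eq (g2 z (by linarith))]
          refine col_zero (col_neg hA ?_)
          have e1 := (le_abs_self _).trans (abs_re_le_norm (z - t m))
          have e2 := (tri z (t m + r) (t m)).2
          rw [add_sub_cancel_left, abs_of_pos r0] at e2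
          simp only [sub_re, ofReal_re] at e1 ⊢
          linarith
        · rw [Lm b x, l4 m z (by linarith)]
      · rw [Tj, ρj] at a
        rw [Tj]
        by_cases x : b = m
        · rw [x, if_pos rfl, nea z hz (by linarith), col_eq (g2 z (by linarith))]
        · rw [if_neg x, Lm b x, l4 i z (by linarith), ite_eq_right_iff]
          refine fun _ => col_zero (col_pos hA ?_)
          have e1 := (neg_le_abs _).trans (abs_re_le_norm (z - (t i + r : ℝ)))
          simp only [sub_re, ofReal_re] at e1 ⊢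
          linarith
      · rw [Tm m y, ρm m x y] at a
        rw [Tm m y]
        by_cases w : b = j
        · rw [w, if_neg (Ne.symm y), far z hz (by linarith [s1 m i x]), l4 m z a,
            if_neg (Ne.symm x)]
        · rw [Lm b w, l4 m z a]
  · have o : ∀ c, Real.log ‖z - T (colC i c)‖ ∉ colJ B (3 * r) δ ρ c := fun c a =>
      h c ⟨(hz _).symm, a⟩
    simp only [p2 _ _ (o _), sub_zero, Finset.sum_const_zero, add_zero]
    have o1 : ‖z - t 0‖ < B := not_le.1 fun a => o none ((zone z hz none).2 a)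
    have o2 : ∀ m, ρ m < ‖z - T m‖ := fun m =>
      not_le.1 fun a => o (some (some m)) ((zone z hz _).2 a)
    have key : ∀ β, 0 ≤ β → (∀ b, ‖fderiv ℝ (L' b) z‖ ≤ β) → ‖∑ m ∈ Finset.range (n + 1),
        (fderiv ℝ (Λ m) z).smulRight (τ.ga π m 0 - τ.ga π (m + 1) 0)‖ ^ 2 ≤ (β * S) ^ 2 :=
      fun β b0 hb => by
        refine pow_le_pow_left₀ (norm_nonneg _) ((norm_sum_le _ _).trans ?_) 2
        rw [hS, Finset.mul_sum]
        refine Finset.sum_le_sum fun m hm => ?_
        obtain ⟨b, -, e⟩ := hΛ m (Finset.mem_range.1 hm)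
        rw [ContinuousLinearMap.norm_smulRight_apply, e]
        exact mul_le_mul_of_nonneg_right (hb b) (norm_nonneg _)
    by_cases a : δ ≤ ‖z - t i‖
    · refine (key C c0 fun b => ?_).trans ?_
      · rcases cs b with rfl | rfl | ⟨x, y⟩
        · exact Lm b hij ▸ l6 b z o1.le a
        · exact far z hz (by linarith) ▸ l6 i z o1.le a
        · exact Lm b y ▸ l6 b z o1.le (Tm b y ▸ ρm b x y ▸ (o2 b).le)
      · rw [indicator_of_mem (mem_closedBall_iff_norm.2 o1.le)]
        exact le_add_of_nonneg_right (indicator_nonneg (fun _ _ => by positivity) _)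
    · have a1 := (not_le.1 a).le
      have a2 : ‖z - t i‖ ≤ 3 * r := (not_le.1 fun b => o (some none) ((zone z hz _).2 ⟨b, a1⟩)).le
      refine (key (4 * M / r) (by positivity) fun b => ?_).trans ?_
      · rcases cs b with rfl | rfl | ⟨x, y⟩
        · have := o2 b
          rw [Tm b hij, ρi] at this
          rw [Lm b hij, l4 b z a1, if_pos rfl]
          refine (hA.2.2.2.2.1 _ (sub_ne_zero.2 (Tm b hij ▸ (hz b).symm))).trans ?_
          rw [div_le_div_iff₀ (by linarith) r0]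
          nlinarith
        · rw [nea z hz a1]
          refine (g4 z a2 (Tj ▸ ρj ▸ (o2 b).le)).trans ?_
          gcongr
          linarith
        · rw [Lm b y, l4 i z a1, if_neg x, norm_zero]
          positivity
      · rw [indicator_of_mem (mem_closedBall_iff_norm.2 a2), div_mul_eq_mul_div]
        exact le_add_of_nonneg_left (indicator_nonneg (fun _ _ => by positivity) _)

end Pool.Agent.MA2
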