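import Pool.Agent.Lib.MP_c86c76_al.An2.St

/-!
The least energy is constant, hence zero.
-/

set_option autoImplicit false

namespace Pool.Agent.MA2

open Complex MeasureTheory Filter Topology Set Function
open Pool.Agent.MA (cf Nr rc kk Tr bb gz DD d1 d2 en dg QQ KreinSt LioSt ChSt BdSt SegSt)

theorem con_rc {n : ℕ} (t : Fin n → ℝ) (j : Fin n) (y : ℝ) :
    rc (update t j y) = update (rc t) j (y : ℂ) := by
  funext i
  by_cases h : i = j
  · subst h
    simp [rc]
  · simp [rc, update_of_ne h]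

theorem con_nonneg {H : Type} [NormedAddCommGroup H] [InnerProductSpace ℂ H] {n : ℕ}
    (τ : Tr n (H ≃ᵃⁱ[ℂ] H)) (T : Fin n → ℂ) : 0 ≤ EE τ T :=
  Real.sInf_nonneg (by
    rintro _ ⟨U, -, rfl⟩
    exact integral_nonneg fun z => by positivity)

theorem conSt (hLi : LioSt) (hLc : LcSt) (hS : SupSt) (hC : ColSt) (hI : InfSt) (hBd : BdSt)
    (_hB : BasSt) : ConSt := by
  classical
  intro H _ _ _ n τ t j x hy ht hj hx
  have inj : Injective (rc t) := fun a b e => ht.injective (Complex.ofReal_injective e)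
  let A : Finset ℂ := (Finset.univ.filter (· ≠ j)).image (rc t)
  have hA : ∀ s, s ∈ A ↔ ∃ i, i ≠ j ∧ rc t i = s := fun s => by simp [A]
  obtain ⟨h1, h2, M, h3⟩ := hBd A (fun s => EE τ (update (rc t) j s))
    (fun s => Ne τ (update (rc t) j s)) ⟨_, (hA _).2 ⟨0, hj.symm, rfl⟩⟩ (fun s => con_nonneg τ _)
    (fun κ k0 k1 => by
      obtain ⟨c, c0, hc⟩ := hLc κ k0 k1
      exact ⟨c, c0, fun s s' d d0 hd e =>
        hc H _ τ (rc t) j s s' d inj d0 (fun i hi => hd _ ((hA _).2 ⟨i, hi, rfl⟩)) e⟩)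
    (fun a ha => by
      obtain ⟨i, hi, rfl⟩ := (hA a).1 ha
      obtain ⟨C, h⟩ := hC H n τ t i j hy ht hj hi
      refine ⟨C, h.mono fun r hr => ?_⟩
      have := hr.2
      rwa [con_rc, ofReal_add] at this)
    (by
      obtain ⟨C, h⟩ := hI H n τ t j hy ht hj
      exact ⟨C, h.mono fun r hr => by rwa [con_rc] at hr⟩)
  have h4 := hLi A _ M h2 h3 fun s0 h0 =>
    hS H _ τ (rc t) j s0 inj (fun i hi e => h0 ((hA _).2 ⟨i, hi, e⟩))
      (Filter.Eventually.mono (A.finite_toSet.isClosed.isOpen_compl.mem_nhds h0) h1)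
  have h5 : rc t j ∉ A := fun h => by
    obtain ⟨i, hi, e⟩ := (hA _).1 h
    exact hi (inj e)
  have h6 : (x : ℂ) ∉ A := fun h => by
    obtain ⟨i, hi, e⟩ := (hA _).1 h
    exact hx i hi (Complex.ofReal_injective e)
  have h7 := h1 _ h5
  have h8 := h4 _ h5 _ h6
  simp only [update_eq_self] at h7 h8
  exact ⟨h7, by rw [con_rc, h8]⟩

/-- The configurations between the standard one and the degenerate one. -/
noncomputable def conHb (n : ℕ) (R : ℝ) (m : ℕ) : Fin (n + 1) → ℝ :=
  fun k => if (k : ℕ) < m then (k : ℝ) else dg n R k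

theorem con_lt {n : ℕ} {R : ℝ} (hR : 2 ≤ R) {k : Fin (n + 1)} (hk : k ≠ 0) :
    ((k : ℕ) : ℝ) < dg n R k := by
  rw [dg, if_neg hk]
  calc ((k : ℕ) : ℝ) < 2 ^ (k : ℕ) := by exact_mod_cast Nat.lt_two_pow_self
    _ ≤ R ^ (k : ℕ) := pow_le_pow_left₀ (by norm_num) hR _

theorem con_mono {n : ℕ} {R : ℝ} (hR : 2 ≤ R) (m : ℕ) : StrictMono (conHb n R m) := by
  intro k l h
  have h' : (k : ℕ) < l := h
  have h1 : ((k : ℕ) : ℝ) < (l : ℕ) := by exact_mod_cast h'
  have hl : l ≠ 0 := h.ne_bot
  simp only [conHb]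
  split_ifs with a b b
  · exact h1
  · exact h1.trans (con_lt hR hl)
  · omega
  · by_cases hk : k = 0
    · subst hk
      simpa [dg] using h1.trans (con_lt hR hl)
    · rw [dg, dg, if_neg hk, if_neg hl]
      exact pow_lt_pow_right₀ (by linarith) h'

theorem mainSt (hC : ConSt) (hD : DegSt) (hF : FinSt) (_hB : BasSt) : MainSt := by
  intro H _ _ _ n τ hn hy h3
  have ht : StrictMono fun k : Fin (n + 1) => ((k : ℕ) : ℝ) := fun k l h =>
    Nat.cast_lt.2 h
  refine hF H (n + 1) τ _ ht (hC H n τ _ (Fin.last n) _ hy ht ?_ fun i hi => ht.injective.ne hi).1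
    (le_antisymm (le_of_forall_pos_le_add fun ε e0 => ?_) (con_nonneg τ _))
  · intro e
    have := congrArg Fin.val e
    simp at this
    omega
  obtain ⟨R, hE, hR⟩ := ((hD H n τ hn h3 ε e0).and (eventually_ge_atTop 2)).exists
  have key : ∀ m, m ≤ n + 1 → EE τ (rc (conHb n R m)) = EE τ (rc (dg n R)) := by
    intro m
    induction m with
    | zero => exact fun _ => rfl
    | succ m ih =>
      intro hm
      rw [← ih (by omega)]
      have e : conHb n R (m + 1) = update (conHb n R m) ⟨m, by omega⟩ m := by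
        funext k
        by_cases h : k = ⟨m, by omega⟩
        · subst h
          simp [conHb]
        · have : (k : ℕ) ≠ m := fun e => h (Fin.ext e)
          rw [update_of_ne h]
          exact if_congr (by omega) rfl rfl
      rw [e]
      by_cases h0 : m = 0
      · subst h0
        congr 2
        exact update_eq_self_iff.2 (by simp [conHb, dg])
      · refine (hC H n τ _ _ _ hy (con_mono hR m) (fun e => h0 (congrArg Fin.val e))
          fun i hi => ?_).2.symm
        have h1 : (i : ℕ) ≠ m := fun e => hi (Fin.ext e)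
        simp only [conHb]
        split_ifs with a
        · exact_mod_cast h1
        · have h2 : (m : ℝ) < (i : ℕ) := by exact_mod_cast (by omega : m < i)
          exact (h2.trans (con_lt hR fun e => by simp [e] at a; exact h0 a)).ne'
  have e : conHb n R (n + 1) = fun k : Fin (n + 1) => ((k : ℕ) : ℝ) :=
    funext fun k => if_pos k.2
  rw [← e, key _ le_rfl, zero_add]
  exact hE.2

end Pool.Agent.MA2
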