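import Pool.Agent.Lib.MP_c86c76_al.An2.St
import Pool.Agent.Lib.MP_c86c76_al.An.Par

/-!
Cut-off functions that vanish near a finite set and near infinity.
-/

set_option autoImplicit false

namespace Pool.Agent.MA2

open Complex MeasureTheory Filter Topology Set Function
open Pool.Agent.MA (dir dir_int)

/-- Sequences of smooth functions with compact support whose Dirichlet integral tends to zero. -/
def cutG (φ : ℕ → ℂ → ℝ) : Prop :=
  (∀ k, ContDiff ℝ 2 (φ k) ∧ HasCompactSupport (φ k)) ∧ Tendsto (fun k => dir (φ k)) atTop (𝓝 0)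

lemma cut_dir_nonneg (φ : ℂ → ℝ) : 0 ≤ dir φ := integral_nonneg fun _ => by positivity

lemma cut_bound : ∃ M : ℝ, ∀ x, ‖deriv Real.smoothTransition x‖ ≤ M := by
  have hS : ContDiff ℝ 2 Real.smoothTransition := Real.smoothTransition.contDiff
  obtain ⟨M, hM⟩ := isCompact_Icc.exists_bound_of_continuousOn
    (hS.continuous_deriv (by norm_num)).continuousOn (s := Icc (0 : ℝ) 1)
  have h0 : 0 ≤ M := (norm_nonneg _).trans (hM 0 ⟨le_rfl, zero_le_one⟩)
  refine ⟨M, fun x => ?_⟩
  rcases lt_or_ge x 0 with h | h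
  · have e : Real.smoothTransition =ᶠ[𝓝 x] fun _ => 0 :=
      (eventually_lt_nhds h).mono fun w hw => Real.smoothTransition.zero_of_nonpos hw.le
    rw [e.deriv_eq, deriv_const, norm_zero]
    exact h0
  rcases lt_or_ge 1 x with h1 | h1
  · have e : Real.smoothTransition =ᶠ[𝓝 x] fun _ => 1 :=
      (eventually_gt_nhds h1).mono fun w hw => Real.smoothTransition.one_of_one_le hw.le
    rw [e.deriv_eq, deriv_const, norm_zero]
    exact h0
  · exact hM x ⟨h, h1⟩

lemma cut_comp {φ : ℕ → ℂ → ℝ} (h : cutG φ) :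
    cutG fun k z => Real.smoothTransition (φ k z) := by
  have hS : ContDiff ℝ 2 Real.smoothTransition := Real.smoothTransition.contDiff
  obtain ⟨M, hM⟩ := cut_bound
  refine ⟨fun k => ⟨hS.comp (h.1 k).1, (h.1 k).2.comp_left Real.smoothTransition.zero⟩, ?_⟩
  have t := h.2.const_mul (M ^ 2)
  rw [mul_zero] at t
  refine squeeze_zero (fun k => cut_dir_nonneg _) (fun k => ?_) t
  have c1 : ContDiff ℝ 1 (φ k) := (h.1 k).1.of_le (by norm_num)
  have i1 := dir_int c1 (h.1 k).2
  unfold dir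
  rw [← integral_const_mul]
  refine integral_mono_of_nonneg (Eventually.of_forall fun z => by positivity)
    (i1.const_mul _) (Eventually.of_forall fun z => ?_)
  have d1 : HasFDerivAt (φ k) (fderiv ℝ (φ k) z) z :=
    (c1.differentiable one_ne_zero z).hasFDerivAt
  have d2 : HasDerivAt Real.smoothTransition (deriv Real.smoothTransition (φ k z)) (φ k z) :=
    (hS.differentiable (by norm_num) _).hasDerivAt
  have d3 : HasFDerivAt (fun z => Real.smoothTransition (φ k z)) _ z := d2.comp_hasFDerivAt z d1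
  dsimp only
  rw [d3.fderiv, norm_smul, mul_pow]
  have := hM (φ k z)
  gcongr

lemma cut_add (hD : MA.DirSt) {φ ψ : ℕ → ℂ → ℝ} (h : cutG φ) (g : cutG ψ) :
    cutG fun k z => φ k z + ψ k z := by
  refine ⟨fun k => ⟨(h.1 k).1.add (g.1 k).1, (h.1 k).2.add (g.1 k).2⟩, ?_⟩
  have t := (h.2.const_mul 2).add (g.2.const_mul 2)
  rw [mul_zero, add_zero] at t
  exact squeeze_zero (fun k => cut_dir_nonneg _) (fun k => (hD.2.2 _ _
    ((h.1 k).1.of_le (by norm_num)) (h.1 k).2 ((g.1 k).1.of_le (by norm_num)) (g.1 k).2).2) t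

lemma cut_sub (hD : MA.DirSt) {φ ψ : ℕ → ℂ → ℝ} (h : cutG φ) (g : cutG ψ) :
    cutG fun k z => φ k z - ψ k z := by
  refine ⟨fun k => ⟨(h.1 k).1.sub (g.1 k).1, (h.1 k).2.sub (g.1 k).2⟩, ?_⟩
  have t := (h.2.const_mul 2).add (g.2.const_mul 2)
  rw [mul_zero, add_zero] at t
  exact squeeze_zero (fun k => cut_dir_nonneg _) (fun k => (hD.2.2 _ _
    ((h.1 k).1.of_le (by norm_num)) (h.1 k).2 ((g.1 k).1.of_le (by norm_num)) (g.1 k).2).1) t

lemma cut_sum (hD : MA.DirSt) {ι : Type} (s : Finset ι) (φ : ι → ℕ → ℂ → ℝ)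
    (h : ∀ i, cutG (φ i)) : cutG fun k z => ∑ i ∈ s, φ i k z := by
  classical
  induction s using Finset.induction_on with
  | empty =>
    simp only [Finset.sum_empty]
    refine ⟨fun k => ⟨contDiff_const, HasCompactSupport.zero⟩, ?_⟩
    simp [dir]
  | insert i s hi ih =>
    simp only [Finset.sum_insert hi]
    exact cut_add hD (h i) ih

lemma cut_shift (hD : MA.DirSt) {φ : ℕ → ℂ → ℝ} (h : cutG φ) (a : ℂ) :
    cutG fun k z => φ k (z - a) := by
  refine ⟨fun k => ⟨(h.1 k).1.comp (contDiff_id.sub contDiff_const), ?_⟩, ?_⟩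
  · exact (h.1 k).2.comp_homeomorph (Homeomorph.subRight a)
  · refine h.2.congr fun k => ?_
    have := hD.1 (φ k) a 1 one_pos
    simpa using this.symm

lemma cut_log (hL : MA.LogSt) (ρ : ℕ → ℝ) (hρ : ∀ k, 0 < ρ k) : ∃ φ : ℕ → ℂ → ℝ, cutG φ ∧
    (∀ k z, 0 ≤ φ k z ∧ φ k z ≤ 1) ∧ (∀ k z, ‖z‖ ≤ ρ k → φ k z = 1) ∧
    ∀ (k : ℕ) (z : ℂ), ρ k * ((k : ℝ) + 2) ≤ ‖z‖ → φ k z = 0 := by
  obtain ⟨C, hC⟩ := hL
  have h2 : ∀ k : ℕ, (1 : ℝ) < (k : ℝ) + 2 := fun k => by
    have := Nat.cast_nonneg (α := ℝ) k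
    linarith
  choose η h1 e1 e0 d using fun k : ℕ => hC (ρ k) ((k : ℝ) + 2) (hρ k) (h2 k)
  have g : cutG η := by
    refine ⟨fun k => ⟨h1 k, ?_⟩, ?_⟩
    · refine HasCompactSupport.intro (isCompact_closedBall (0 : ℂ) (ρ k * ((k : ℝ) + 2)))
        fun z hz => e0 k z ?_
      rw [mem_closedBall_zero_iff, not_le] at hz
      exact hz.le
    · refine squeeze_zero (fun k => cut_dir_nonneg _) d ?_
      exact (Real.tendsto_log_atTop.comp
        (tendsto_atTop_add_const_right _ 2 tendsto_natCast_atTop_atTop)).const_div_atTop C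
  refine ⟨_, cut_comp g, fun k z => ⟨Real.smoothTransition.nonneg _,
    Real.smoothTransition.le_one _⟩, fun k z h => ?_, fun k z h => ?_⟩
  · simp only [e1 k z h, Real.smoothTransition.one]
  · simp only [e0 k z h, Real.smoothTransition.zero]

theorem cutSt (hL : MA.LogSt) (hD : MA.DirSt) : CutSt := by
  intro n T
  obtain ⟨a, ga, ba, a1, -⟩ := cut_log hL (fun k => (k : ℝ) + 1) fun k => by positivity
  obtain ⟨b, gb, bb, b1, b0⟩ := cut_log hL (fun k => 1 / ((k : ℝ) + 2) ^ 2) fun k => by positivity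
  have g := cut_comp (cut_sub hD ga (cut_sum hD Finset.univ (fun i k z => b k (z - T i))
    fun i => cut_shift hD gb (T i)))
  refine ⟨_, fun k => ⟨(g.1 k).1, (g.1 k).2, fun i => ?_, fun z =>
    ⟨Real.smoothTransition.nonneg _, Real.smoothTransition.le_one _⟩⟩, fun z hz => ?_, g.2⟩
  · have hp : (0 : ℝ) < 1 / ((k : ℝ) + 2) ^ 2 := by positivity
    filter_upwards [Metric.closedBall_mem_nhds (T i) hp] with z hz
    rw [mem_closedBall_iff_norm] at hz
    refine Real.smoothTransition.zero_of_nonpos ?_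
    have s := Finset.single_le_sum (f := fun j => b k (z - T j))
      (fun j _ => (bb k _).1) (Finset.mem_univ i)
    have := b1 k _ hz
    have := (ba k z).2
    linarith
  · have t1 : ∀ᶠ k : ℕ in atTop, ‖z‖ ≤ (k : ℝ) + 1 :=
      (tendsto_atTop_add_const_right _ 1 tendsto_natCast_atTop_atTop).eventually_ge_atTop _
    have t2 : ∀ᶠ k : ℕ in atTop, ∀ i, 1 / ((k : ℝ) + 2) ^ 2 * ((k : ℝ) + 2) ≤ ‖z - T i‖ := by
      refine eventually_all.2 fun i => ?_
      have hp : 0 < ‖z - T i‖ := norm_pos_iff.2 (sub_ne_zero.2 (hz i).symm)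
      have := ((tendsto_atTop_add_const_right _ 2
        (tendsto_natCast_atTop_atTop (R := ℝ))).const_div_atTop 1).eventually_le_const hp
      refine this.mono fun k hk => le_trans (le_of_eq ?_) hk
      field_simp
    filter_upwards [t1, t2] with k h1 h2
    rw [a1 k z h1, Finset.sum_eq_zero fun i _ => b0 k _ (h2 i), sub_zero]
    exact Real.smoothTransition.one

end Pool.Agent.MA2
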