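import Pool.Agent.Lib.MP_c86c76_al.An2.Deg1

/-!
The least energy tends to zero at the degenerate configuration.
-/

set_option autoImplicit false

namespace Pool.Agent.MA2

open Complex MeasureTheory Filter Topology Set Function
open Pool.Agent.MA (cf Nr rc kk Tr bb gz DD d1 d2 en dg)

section Hilbert

variable {H : Type} [NormedAddCommGroup H] [InnerProductSpace ℂ H]

lemma deg_deriv_lo {p : ℝ → H} {y : H} {a s : ℝ} (h : ∀ s, s ≤ a → p s = y) (hs : s < a) :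
    deriv p s = 0 := by
  have e : p =ᶠ[𝓝 s] fun _ => y := (gt_mem_nhds hs).mono fun r hr => h r hr.le
  rw [e.deriv_eq, deriv_const]

lemma deg_deriv_hi {p : ℝ → H} {y : H} {a s : ℝ} (h : ∀ s, a ≤ s → p s = y) (hs : a < s) :
    deriv p s = 0 := by
  have e : p =ᶠ[𝓝 s] fun _ => y := (lt_mem_nhds hs).mono fun r hr => h r hr.le
  rw [e.deriv_eq, deriv_const]

omit [InnerProductSpace ℂ H] in
lemma deg_rad {Y v : ℕ → H} (h0 : Y 0 = Y 1) {n k : ℕ} (hk : k ≤ n)
    (h1 : ∀ i, i < k → v i = Y (i + 1)) (h2 : ∀ i, k < i → i ≤ n → v i = Y i) :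
    Y 1 + ∑ i ∈ Finset.range (n + 1), (v i - Y i) = v k := by
  obtain ⟨d, rfl⟩ := Nat.exists_eq_add_of_le hk
  rw [show k + d + 1 = k + 1 + d by omega, Finset.sum_range_add, Finset.sum_range_succ,
    Finset.sum_congr rfl fun i hi => by rw [h1 i (Finset.mem_range.1 hi)], Finset.sum_range_sub,
    Finset.sum_eq_zero fun i hi => by
      rw [h2 _ (by omega) (by have := Finset.mem_range.1 hi; omega), sub_self], h0]
  abel

lemma deg_lp {n : ℕ} (τ : Tr n (H ≃ᵃⁱ[ℂ] H)) (k l : ℕ) (y : H) :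
    ‖τ.ga 1 k y - τ.ga 1 l y‖ = ‖lp τ 1 k l y - y‖ := by
  rw [← dist_eq_norm, ← dist_eq_norm, ← (τ.ga 1 l).dist_map (lp τ 1 k l y) y]
  congr 1
  show _ = (τ.ga 1 l * ((τ.ga 1 l)⁻¹ * τ.ga 1 k)) y
  rw [mul_inv_cancel_left]

lemma deg_prof {CP CN R e D : ℝ} (hCP : 0 ≤ CP) (hCN : 0 ≤ CN)
    (hP : ∀ (T : H ≃ᵃⁱ[ℂ] H) (y : H) (K s0 : ℝ), Kap T y K →
      (∃ p : ℝ → H, ContDiff ℝ 2 p ∧ (∀ s, s ≤ s0 → p s = y) ∧ IntegrableOn (pe T p) (Ici s0) ∧
        ∫ s in Ici s0, pe T p s ≤ CP * K) ∧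
      ∃ p : ℝ → H, ContDiff ℝ 2 p ∧ (∀ s, s0 ≤ s → p s = y) ∧ IntegrableOn (pe T p) (Iic s0) ∧
        ∫ s in Iic s0, pe T p s ≤ CP * K)
    (hN : ∀ (T : H ≃ᵃⁱ[ℂ] H) (y y' : H) (K K' s0 s1 : ℝ), Kap T y K → Kap T y' K' → s0 + 1 ≤ s1 →
      ∃ p : ℝ → H, ContDiff ℝ 2 p ∧ (∀ s, s ≤ s0 → p s = y) ∧ (∀ s, s1 ≤ s → p s = y') ∧
        IntegrableOn (pe T p) (Icc s0 s1) ∧
        ∫ s in Icc s0 s1, pe T p s ≤ CN * (K + K' + ‖y - y'‖ ^ 2 / (s1 - s0)))
    {n j : ℕ} (hn : 1 ≤ n) (hR : 36 ≤ R) (he : 0 ≤ e) (hD0 : 0 ≤ D) (T : H ≃ᵃⁱ[ℂ] H) (y y' : H)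
    (h1 : j ≠ 0 → Kap T y e) (h2 : j ≠ n → Kap T y' e) (hD : j ≠ n → ‖y - y'‖ ^ 2 ≤ D) :
    ∃ p : ℝ → H, ContDiff ℝ 2 p ∧ (j ≠ 0 → ∀ s, s ≤ Real.log (3 * R ^ j) → p s = y) ∧
      (j ≠ n → ∀ s, Real.log (R ^ (j + 1) / 4) ≤ s → p s = y') ∧
      IntegrableOn (pe T p) (degJ n R j) ∧
      ∫ s in degJ n R j, pe T p s ≤ CP * e + CN * (e + e + D / Real.log (R / 12)) := by
  have R0 : 0 < R := by linarith
  have hl : 1 ≤ Real.log (R / 12) := by
    rw [Real.le_log_iff_exp_le (by positivity)]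
    linarith [Real.exp_one_lt_d9]
  have hq : 0 ≤ CN * (e + e + D / Real.log (R / 12)) := by
    have : 0 < Real.log (R / 12) := by linarith
    positivity
  by_cases a : j = 0
  · have b : j ≠ n := by omega
    obtain ⟨p, k1, k2, k3, k4⟩ := (hP T y' e (Real.log (R ^ (j + 1) / 4)) (h2 b)).2
    have e1 : degJ n R j = Iic (Real.log (R ^ (j + 1) / 4)) :=
      Set.ext fun s => ⟨fun h => h.2 b, fun h => ⟨fun h' => absurd a h', fun _ => h⟩⟩
    rw [e1]
    exact ⟨p, k1, fun h => absurd a h, fun _ => k2, k3, by linarith⟩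
  by_cases b : j = n
  · obtain ⟨p, k1, k2, k3, k4⟩ := (hP T y e (Real.log (3 * R ^ j)) (h1 a)).1
    have e1 : degJ n R j = Ici (Real.log (3 * R ^ j)) :=
      Set.ext fun s => ⟨fun h => h.1 a, fun h => ⟨fun _ => h, fun h' => absurd b h'⟩⟩
    rw [e1]
    exact ⟨p, k1, fun _ => k2, fun h => absurd b h, k3, by linarith⟩
  have e2 : Real.log (R ^ (j + 1) / 4) - Real.log (3 * R ^ j) = Real.log (R / 12) := by
    rw [← Real.log_div (by positivity) (by positivity)]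
    congr 1
    field_simp
    ring
  obtain ⟨p, k1, k2, k3, k4, k5⟩ := hN T y y' e e (Real.log (3 * R ^ j))
    (Real.log (R ^ (j + 1) / 4)) (h1 a) (h2 b) (by linarith)
  have e1 : degJ n R j = Icc (Real.log (3 * R ^ j)) (Real.log (R ^ (j + 1) / 4)) :=
    Set.ext fun s => ⟨fun h => ⟨h.1 a, h.2 b⟩, fun h => ⟨fun _ => h.1, fun _ => h.2⟩⟩
  rw [e1]
  refine ⟨p, k1, fun _ => k2, fun _ => k3, k4, k5.trans ?_⟩
  rw [e2]
  have h3 : ‖y - y'‖ ^ 2 / Real.log (R / 12) ≤ D / Real.log (R / 12) :=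
    div_le_div_of_nonneg_right (hD b) (by linarith)
  have h4 := mul_le_mul_of_nonneg_left h3 hCN
  have h5 := mul_nonneg hCP he
  nlinarith

/-- The estimate on a core. -/
lemma deg_G {lam La : ℂ → ℝ} {M R e : ℝ} (hA : Ang lam M) (hL : Lam lam La M) (hR : 36 ≤ R)
    {n k : ℕ} (g : ℕ → H) (k1 : 1 ≤ k) (k2 : k ≤ n) {z : ℂ} (h1 : R ^ k / 4 < ‖z‖)
    (h2 : ‖z‖ < 3 * R ^ k) (h3 : R ^ k / 4 ≤ ‖z - ((R ^ k : ℝ) : ℂ)‖)
    (g1 : ‖g 0 - g k‖ ^ 2 ≤ e) (g2 : ‖g k - g (k + 1)‖ ^ 2 ≤ e) :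
    ‖∑ m ∈ Finset.range (n + 1), (fderiv ℝ (degL lam La R m) z).smulRight (g m - g (m + 1))‖ ^ 2 ≤
      34 * M ^ 2 * e / (R ^ k) ^ 2 := by
  have R0 : 0 < R := by linarith
  have p : ∀ i : ℕ, 0 < R ^ i := fun i => by positivity
  have q : ∀ i l : ℕ, i < l → 36 * R ^ i ≤ R ^ l := fun i l h =>
    le_trans (by rw [pow_succ]; nlinarith [p i]) (pow_le_pow_right₀ (by linarith) h)
  obtain ⟨d, rfl⟩ := Nat.exists_eq_add_of_le k2
  have e1 : ∑ m ∈ Finset.range k, (fderiv ℝ (degL lam La R m) z).smulRight (g m - g (m + 1)) =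
      (fderiv ℝ lam z).smulRight (g 0 - g k) := by
    rw [← Finset.sum_range_sub' g k]
    ext1 v
    rw [sum_apply, ContinuousLinearMap.smulRight_apply, Finset.smul_sum]
    refine Finset.sum_congr rfl fun m hm => ?_
    rw [(deg_far hA hL R0 fun _ => by
      linarith [q m k (Finset.mem_range.1 hm), p m]).fderiv_eq,
      ContinuousLinearMap.smulRight_apply]
  rw [show k + d + 1 = k + 1 + d by omega, Finset.sum_range_add, Finset.sum_range_succ, e1,
    Finset.sum_eq_zero fun i _ => by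
      rw [deg_in hA hL R0 (by omega) (by linarith [q k (k + 1 + i) (by omega), p k])]
      ext1 v
      simp, add_zero]
  have z0 : 0 < ‖z‖ := by linarith [p k]
  have a1 := hA.2.2.2.2.1 z (norm_pos_iff.1 z0)
  have a2 := deg_core hL R0 (m := k) (by omega) h2.le h3
  have M0 : 0 ≤ M / R ^ k := (norm_nonneg _).trans a2
  have M1 : 0 ≤ M := by
    have := mul_nonneg M0 (p k).le
    rwa [div_mul_cancel₀ _ (p k).ne'] at this
  have a3 : ‖fderiv ℝ lam z‖ ≤ 4 * (M / R ^ k) := by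
    refine a1.trans ?_
    rw [← mul_div_assoc, div_le_div_iff₀ z0 (p k)]
    nlinarith
  have a4 := norm_add_le ((fderiv ℝ lam z).smulRight (g 0 - g k))
    ((fderiv ℝ (degL lam La R k) z).smulRight (g k - g (k + 1)))
  rw [ContinuousLinearMap.norm_smulRight_apply, ContinuousLinearMap.norm_smulRight_apply] at a4
  have a5 := mul_le_mul_of_nonneg_right a3 (norm_nonneg (g 0 - g k))
  have a6 := mul_le_mul_of_nonneg_right a2 (norm_nonneg (g k - g (k + 1)))
  have a7 := pow_le_pow_left₀ (norm_nonneg _) (a4.trans (add_le_add a5 a6)) 2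
  refine a7.trans ?_
  rw [show 34 * M ^ 2 * e / (R ^ k) ^ 2 = 34 * (M / R ^ k) ^ 2 * e by ring]
  generalize M / R ^ k = c at *
  generalize ‖g 0 - g k‖ = a at *
  generalize ‖g k - g (k + 1)‖ = b at *
  nlinarith [sq_nonneg (4 * c * a - c * b), mul_le_mul_of_nonneg_left g1 (sq_nonneg c),
    mul_le_mul_of_nonneg_left g2 (sq_nonneg c)]

end Hilbert

theorem degSt (hA : AngSt) (hK : KapSt) (hP : PathSt) (hN : NeckSt) (hT : TreeSt) : DegSt := by
  intro H _ _ _ n τ hn h3 ε hε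
  obtain ⟨lam, La, M, hA, hL⟩ := hA
  obtain ⟨CP, hCP, hP⟩ := hP
  obtain ⟨CN, hCN, hN⟩ := hN
  obtain ⟨K0, hK0, hT⟩ := hT lam M (n + 1) (n + 1 + n) hA
  set A : ℝ := (n + 1) * (36 * (34 * M ^ 2)) + (n + 1) * (CP + 2 * CN) + n * CP with hAdef
  have A0 : 0 ≤ A := by positivity
  set e : ℝ := ε / 2 / (K0 * A + 1) with hedef
  have he : 0 < e := by positivity
  have he' : K0 * A * e ≤ ε / 2 := by
    rw [hedef, ← mul_div_assoc, div_le_iff₀ (by positivity)]
    nlinarith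
  have hy : ∀ k : ℕ, ∃ y : H, 1 ≤ k → k ≤ n → Kap (lp τ 1 k (k + 1)) y e ∧
      Kap (lp τ 1 0 k) y e ∧ Kap (lp τ 1 0 (k + 1)) y e := fun k => by
    by_cases h : 1 ≤ k ∧ k ≤ n
    · obtain ⟨y, hy⟩ := h3 k h.1 h.2 e he
      exact ⟨y, fun _ _ => hy⟩
    · exact ⟨0, fun a b => absurd ⟨a, b⟩ h⟩
  choose y hy using hy
  obtain ⟨Y, Y0, hY⟩ : ∃ Y : ℕ → H, Y 0 = Y 1 ∧ ∀ k, 1 ≤ k → k ≤ n →
      Kap (lp τ 1 k (k + 1)) (Y k) e ∧ Kap (lp τ 1 0 k) (Y k) e ∧
        Kap (lp τ 1 0 (k + 1)) (Y k) e :=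
    ⟨fun k => y (max k 1), rfl, fun k a b => by simpa only [max_eq_left a] using hy k a b⟩
  set D : ℝ := ∑ j ∈ Finset.range (n + 1), ‖Y j - Y (j + 1)‖ ^ 2 with hDdef
  have D0 : 0 ≤ D := Finset.sum_nonneg fun _ _ => by positivity
  have t0 : Tendsto (fun R : ℝ => K0 * ((n + 1) * CN) * (D / Real.log (R / 12))) atTop (𝓝 0) := by
    have := ((tendsto_const_nhds (x := D)).div_atTop (Real.tendsto_log_atTop.comp
      (tendsto_id.atTop_div_const (show (0 : ℝ) < 12 by norm_num)))).const_mul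
        (K0 * ((n + 1) * CN))
    rwa [mul_zero] at this
  filter_upwards [eventually_ge_atTop 36, t0.eventually (ge_mem_nhds (half_pos hε))] with R hR hb
  have R0 : 0 < R := by linarith
  have R1 : 1 < R := by linarith
  have pp : ∀ i : ℕ, 0 < R ^ i := fun i => by positivity
  have qq : ∀ i l : ℕ, i < l → 36 * R ^ i ≤ R ^ l := fun i l h =>
    le_trans (by rw [pow_succ]; nlinarith [pp i]) (pow_le_pow_right₀ R1.le h)
  have q0 : ∀ i l : ℕ, i ≤ l → R ^ i ≤ R ^ l := fun i l h => pow_le_pow_right₀ R1.le h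
  choose p p1 p2 p3 p4 p5 using fun j : ℕ => deg_prof (n := n) (j := min j n) hCP hCN (hP H) (hN H)
    hn hR he.le D0 (lp τ 1 0 (min j n + 1)) (Y (min j n)) (Y (min j n + 1))
    (fun h => (hY _ (by omega) (by omega)).2.2) (fun h => (hY _ (by omega) (by omega)).2.1)
    fun _ => Finset.single_le_sum (f := fun j => ‖Y j - Y (j + 1)‖ ^ 2)
      (fun _ _ => by positivity) (Finset.mem_range.2 (by omega))
  choose c c1 c2 c3 c4 using fun i : Fin n => (hP H (lp τ 1 (i + 1) (i + 1 + 1)) (Y (i + 1)) e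
    (Real.log (R ^ ((i : ℕ) + 1) / 4)) (hY _ (by omega) i.2).1).2
  have t0' : ((dg n R 0 : ℝ) : ℂ) = 0 := by simp [dg]
  have ts : ∀ i : Fin n, dg n R i.succ = R ^ ((i : ℕ) + 1) := fun i => MA.deg_ne R (by simp)
  have lo : ∀ j, j ≠ 0 → j ≤ n → ∀ z : ℂ, z ≠ 0 → ‖z‖ ≤ 3 * R ^ j → p j (Real.log ‖z‖) = Y j :=
    fun j a b z hz h => by
      have := p2 j (by omega) (Real.log ‖z‖)
      rw [min_eq_left b] at this
      exact this (Real.log_le_log (norm_pos_iff.2 hz) h)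
  have hi : ∀ j, j < n → ∀ z : ℂ, R ^ (j + 1) / 4 ≤ ‖z‖ → p j (Real.log ‖z‖) = Y (j + 1) :=
    fun j b z h => by
      have := p3 j (by omega) (Real.log ‖z‖)
      rw [min_eq_left b.le] at this
      exact this (Real.log_le_log (by positivity) h)
  have cu : ∀ (i : Fin n) (z : ℂ), R ^ ((i : ℕ) + 1) / 4 ≤ ‖z - ((R ^ ((i : ℕ) + 1) : ℝ) : ℂ)‖ →
      c i (Real.log ‖z - ((R ^ ((i : ℕ) + 1) : ℝ) : ℂ)‖) - Y (i + 1) = 0 := fun i z h =>
    sub_eq_zero.2 (c2 i _ (Real.log_le_log (by positivity) h))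
  have nr : ∀ (k : ℕ) (z : ℂ), ‖z‖ - R ^ k ≤ ‖z - ((R ^ k : ℝ) : ℂ)‖ ∧
      R ^ k - ‖z‖ ≤ ‖z - ((R ^ k : ℝ) : ℂ)‖ := fun k z => by
    have := abs_le.1 (abs_norm_sub_norm_le z ((R ^ k : ℝ) : ℂ))
    rw [norm_real, Real.norm_of_nonneg (pp k).le] at this
    constructor <;> linarith [this.1, this.2]
  let u : ℂ → H := fun z => Y 1 + ∑ i ∈ Finset.range (n + 1), (p i (Real.log ‖z‖) - Y i) +
    ∑ i : Fin n, (c i (Real.log ‖z - ((R ^ ((i : ℕ) + 1) : ℝ) : ℂ)‖) - Y (i + 1))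
  have rad : ∀ k, k ≤ n → ∀ z : ℂ, z ≠ 0 → (k ≠ 0 → R ^ k / 4 ≤ ‖z‖) →
      (k ≠ n → ‖z‖ ≤ 3 * R ^ (k + 1)) →
      Y 1 + ∑ i ∈ Finset.range (n + 1), (p i (Real.log ‖z‖) - Y i) = p k (Real.log ‖z‖) :=
    fun k hk z hz a b => deg_rad (v := fun i => p i (Real.log ‖z‖)) Y0 hk
      (fun i h => hi i (by omega) z (by linarith [a (by omega), q0 (i + 1) k h]))
      fun i h h' => lo i (by omega) h' z hz (by linarith [b (by omega), q0 (k + 1) i h])
  obtain ⟨F0, F1, F2⟩ := degF_int R0 n (c := 34 * M ^ 2 * e) (by positivity)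
  obtain ⟨a, b⟩ := hT H τ 1 (dg n R) (Fin (n + 1) ⊕ Fin n) (Sum.elim (fun _ => 0) Fin.succ)
    (Sum.elim (fun j => degJ n R j) fun i => Iic (Real.log (R ^ ((i : ℕ) + 1) / 4)))
    (Sum.elim (fun _ => 0) fun i => i + 1) (Sum.elim (fun j => j + 1) fun i => i + 1 + 1)
    (Sum.elim (fun j => p j) c) (Sum.elim (fun j => Y j) fun i => Y (i + 1)) (Y 1) u
    (degL lam La R) (degF n R (34 * M ^ 2 * e)) (MA.deg_mono R1) (by simp)
    (fun z => by
      simp only [u, Fintype.sum_sum_type, Sum.elim_inl, Sum.elim_inr, t0', sub_zero, ts]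
      rw [Fin.sum_univ_eq_sum_range (fun i => p i (Real.log ‖z‖) - Y i), add_assoc])
    (by
      rintro (j | i)
      · have hj : (j : ℕ) ≤ n := Nat.lt_succ_iff.1 j.2
        have k2 := p2 j
        have k3 := p3 j
        have k4 := p4 j
        rw [min_eq_left hj] at k2 k3 k4
        refine ⟨degJ_meas n R j, Nat.zero_le _, j.2, p1 j, fun s hs => ?_, k4⟩
        rcases not_and_or.1 hs with h | h
        · obtain ⟨h1, h2⟩ := Classical.not_imp.1 h
          exact deg_deriv_lo (k2 h1) (lt_of_not_ge h2)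
        · obtain ⟨h1, h2⟩ := Classical.not_imp.1 h
          exact deg_deriv_hi (k3 h1) (lt_of_not_ge h2)
      · exact ⟨measurableSet_Iic, Nat.le_succ _, Nat.succ_le_succ i.2, c1 i,
          fun s hs => deg_deriv_hi (c2 i) (lt_of_not_ge hs), c3 i⟩)
    (fun m hm z hz => deg_cd hA hL R0 hm hz) (fun m hm x hx => deg_real hA hL R1 hm hx)
    (by
      rintro (j | i) z ⟨z0, hz⟩ _
      · simp only [Sum.elim_inl, t0', sub_zero] at z0 hz ⊢
        have hj : (j : ℕ) ≤ n := Nat.lt_succ_iff.1 j.2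
        obtain ⟨h1, h2⟩ := (degJ_mem R0 z0).1 hz
        refine ⟨?_, fun m hm => ?_⟩
        · simp only [u]
          rw [rad j hj z z0 (fun h => by linarith [h1 h, pp j])
            (fun h => by linarith [h2 h, pp (j + 1)]), Finset.sum_eq_zero fun i _ => cu i z ?_,
            add_zero]
          by_cases h : (i : ℕ) + 1 ≤ j
          · linarith [(nr (i + 1) z).1, h1 (by omega), q0 _ _ h, pp (i + 1)]
          · linarith [(nr (i + 1) z).2, h2 (by have := i.2; omega), q0 (j + 1) (i + 1) (by omega),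
              pp (i + 1)]
        · by_cases h : m < j + 1
          · rw [if_pos ⟨Nat.zero_le _, h⟩]
            exact (deg_far hA hL R0 fun h0 => by
              linarith [h1 (by omega), q0 m j (by omega), pp m]).fderiv_eq
          · rw [if_neg fun e => h e.2]
            exact deg_in hA hL R0 (by omega)
              (by linarith [h2 (by omega), q0 (j + 1) m (by omega), pp m])
      · simp only [Sum.elim_inr, ts] at z0 hz ⊢
        have hi' := i.2
        have h0 : ‖z - ((R ^ ((i : ℕ) + 1) : ℝ) : ℂ)‖ ≤ R ^ ((i : ℕ) + 1) / 4 :=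
          (Real.log_le_log_iff (norm_pos_iff.2 (sub_ne_zero.2 z0)) (by positivity)).1 hz
        have h1 := (nr (i + 1) z).1
        have h2 := (nr (i + 1) z).2
        have h4 := pp (i + 1)
        have zz : z ≠ 0 := norm_pos_iff.1 (by linarith)
        refine ⟨?_, fun m hm => ?_⟩
        · simp only [u]
          rw [rad (i + 1) hi' z zz (fun _ => by linarith)
            (fun _ => by linarith [q0 (i + 1) (i + 1 + 1) (by omega)]),
            lo (i + 1) (by omega) hi' z zz (by linarith),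
            Finset.sum_eq_single i (fun l _ hl => cu l z ?_) (by simp), add_sub_cancel]
          rcases lt_or_gt_of_ne (Fin.val_ne_of_ne hl) with h | h
          · linarith [(nr (l + 1) z).1, qq (l + 1) (i + 1) (by omega), pp (l + 1)]
          · linarith [(nr (l + 1) z).2, qq (i + 1) (l + 1) (by omega), pp (l + 1)]
        · rcases lt_trichotomy m (i + 1) with h | h | h
          · rw [if_neg (by omega), (deg_far hA hL R0 fun _ => by
              linarith [qq m (i + 1) h, pp m]).fderiv_eq]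
            have h5 := abs_le.1 (abs_re_le_norm (z - ((R ^ ((i : ℕ) + 1) : ℝ) : ℂ)))
            rw [sub_re, ofReal_re] at h5
            rw [(show lam =ᶠ[𝓝 z] fun _ => 0 from deg_lam_zero hA (by linarith [h5.1])).fderiv_eq]
            simp
          · rw [if_pos (by omega), h]
            exact deg_near hA hL R0 (by omega) (by linarith)
          · rw [if_neg (by omega)]
            exact deg_in hA hL R0 (by omega) (by linarith [qq (i + 1) m h]))
    (fun z hz hc => by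
      have z0 : z ≠ 0 := fun e => hz 0 (by rw [t0', e])
      obtain ⟨k, k1, k2, k3, k4⟩ := deg_place R0 hn z0 fun j hj h =>
        hc (Sum.inl ⟨j, Nat.lt_succ_of_le hj⟩) (by
          simp only [Sum.elim_inl, t0', ann, sub_zero]
          exact ⟨z0, h⟩)
      have k5 : R ^ k / 4 ≤ ‖z - ((R ^ k : ℝ) : ℂ)‖ := by
        obtain ⟨i, rfl⟩ : ∃ i : Fin n, k = i + 1 := ⟨⟨k - 1, by omega⟩, by simp only; omega⟩
        have h1 : z ≠ ((R ^ ((i : ℕ) + 1) : ℝ) : ℂ) := fun e => hz i.succ (by rw [ts, e])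
        refine le_of_not_gt fun h => hc (Sum.inr i) ?_
        simp only [Sum.elim_inr, ts, ann]
        exact ⟨h1, Real.log_le_log (norm_pos_iff.2 (sub_ne_zero.2 h1)) h.le⟩
      have e1 : u z = Y k := by
        simp only [u]
        rw [rad k k2 z z0 (fun _ => k3.le) (fun _ => by linarith [q0 k (k + 1) (by omega)]),
          lo k (by omega) k2 z z0 k4.le, Finset.sum_eq_zero fun l _ => cu l z ?_, add_zero]
        rcases lt_trichotomy ((l : ℕ) + 1) k with h | h | h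
        · linarith [(nr (l + 1) z).1, qq _ _ h, pp (l + 1)]
        · rw [h]
          exact k5
        · linarith [(nr (l + 1) z).2, qq _ _ h, pp (l + 1)]
      rw [e1]
      refine (deg_G hA hL hR (fun m => τ.ga 1 m (Y k)) k1 k2 k3 k4 k5 ?_ ?_).trans
        (degF_ge R0 k2 (by positivity) k4.le)
      · rw [deg_lp]
        exact (hK H _ _ _ (hY k k1 k2).2.1).2.1
      · rw [deg_lp]
        exact (hK H _ _ _ (hY k k1 k2).1).2.1)
    F0 F1
  refine ⟨a, b.trans ?_⟩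
  rw [Fintype.sum_sum_type]
  simp only [Sum.elim_inl, Sum.elim_inr]
  have s1 : ∑ j : Fin (n + 1), ∫ s in degJ n R j, pe (lp τ 1 0 (j + 1)) (p j) s ≤
      (n + 1) * (CP * e + CN * (e + e + D / Real.log (R / 12))) := by
    refine (Finset.sum_le_card_nsmul _ _ _ fun j _ => ?_).trans (by simp; rfl)
    have := p5 j
    rwa [min_eq_left (Nat.lt_succ_iff.1 j.2)] at this
  have s2 : ∑ i : Fin n, ∫ s in Iic (Real.log (R ^ ((i : ℕ) + 1) / 4)),
      pe (lp τ 1 (i + 1) (i + 1 + 1)) (c i) s ≤ n * (CP * e) :=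
    (Finset.sum_le_card_nsmul _ _ _ fun i _ => c4 i).trans (by simp)
  refine (mul_le_mul_of_nonneg_left (add_le_add F2 (add_le_add s1 s2)) hK0).trans ?_
  have e2 : K0 * ((n + 1) * (36 * (34 * M ^ 2 * e)) +
      ((n + 1) * (CP * e + CN * (e + e + D / Real.log (R / 12))) + n * (CP * e))) =
      K0 * A * e + K0 * ((n + 1) * CN) * (D / Real.log (R / 12)) := by
    rw [hAdef]
    ring
  rw [e2]
  linarith

end Pool.Agent.MA2
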