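import Pool.Agent.Lib.MP_c86c76_al.An2.St
import Pool.Agent.Lib.MP_c86c76_al.An.Bas

/-!
Density of the differences with compact support.
-/

set_option autoImplicit false

namespace Pool.Agent.MA2

open Complex MeasureTheory Filter Topology Set Function
open scoped InnerProductSpace
open Pool.Agent.MA (cf Nr rc kk Tr bb gz DD d1 d2 en dg)

section Hilbert

variable {H : Type} [NormedAddCommGroup H] [InnerProductSpace ℂ H]

lemma den_nsq (v : ℂ → H) (D : ℂ →L[ℝ] H) (z : ℂ) (hv : HasFDerivAt v D z) :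
    ∃ S : ℂ →L[ℝ] ℝ, HasFDerivAt (fun z => ‖v z‖ ^ 2) S z ∧ ‖S‖ ≤ 2 * ‖v z‖ * ‖D‖ := by
  have h1 := hv.inner ℂ hv
  have h2 := (Complex.reCLM.hasFDerivAt).comp z h1
  refine ⟨_, h2.congr_of_eventuallyEq (Eventually.of_forall fun w => ?_), ?_⟩
  · simp only [Function.comp, Complex.reCLM_apply]
    exact (inner_self_eq_norm_sq (𝕜 := ℂ) (v w)).symm
  · refine ContinuousLinearMap.opNorm_le_bound _ (by positivity) fun w => ?_
    simp only [ContinuousLinearMap.comp_apply, ContinuousLinearMap.prod_apply,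
      fderivInnerCLM_apply, Complex.reCLM_apply, Real.norm_eq_abs]
    have h3 := D.le_opNorm w
    have h4 := norm_inner_le_norm (𝕜 := ℂ) (v z) (D w)
    have h5 := norm_inner_le_norm (𝕜 := ℂ) (D w) (v z)
    have h6 := Complex.abs_re_le_norm (⟪v z, D w⟫_ℂ + ⟪D w, v z⟫_ℂ)
    have h7 := norm_add_le (⟪v z, D w⟫_ℂ) (⟪D w, v z⟫_ℂ)
    have h8 := mul_le_mul_of_nonneg_left h3 (norm_nonneg (v z))
    nlinarith

lemma den_alg (x y w e h a s : ℝ) (ha : 0 < a) (hh0 : 0 < h) (hh : h * (1 + a * s ^ 2) = 1)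
    (hx : x ≤ (1 - e) * y + 3 * (1 - h) * y + h * s * w) (hx0 : 0 ≤ x) :
    x ^ 2 ≤ 3 * ((1 - e) ^ 2 * y ^ 2 + 9 * ((1 - h) ^ 2 * y ^ 2) + w ^ 2 / a) := by
  have h1 : h ≤ 1 := by nlinarith [mul_nonneg hh0.le (mul_nonneg ha.le (sq_nonneg s))]
  have h2 : (h * s) ^ 2 ≤ 1 / a := by
    rw [le_div_iff₀ ha]
    have : (h * s) ^ 2 * a = h * (1 - h) := by linear_combination h * hh
    nlinarith
  have h3 : (h * s * w) ^ 2 ≤ w ^ 2 / a := by
    rw [mul_pow, div_eq_mul_one_div, mul_comm]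
    exact mul_le_mul_of_nonneg_left h2 (sq_nonneg w)
  have h4 := pow_le_pow_left₀ hx0 hx 2
  nlinarith [sq_nonneg ((1 - e) * y - 3 * (1 - h) * y), sq_nonneg ((1 - e) * y - h * s * w),
    sq_nonneg (3 * (1 - h) * y - h * s * w)]

lemma den_pt (η : ℂ → ℝ) (u' u'' : ℂ → H) (z : ℂ) (a : ℝ) (ha : 0 < a)
    (hη : DifferentiableAt ℝ η z) (hu' : DifferentiableAt ℝ u' z)
    (hu'' : DifferentiableAt ℝ u'' z) (h0 : 0 ≤ η z) (h1 : η z ≤ 1) :
    ‖fderiv ℝ (fun z => u'' z + (η z * (1 + a * ‖u' z - u'' z‖ ^ 2)⁻¹) • (u' z - u'' z)) z -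
        fderiv ℝ u' z‖ ^ 2 ≤
      3 * ((1 - η z) ^ 2 * ‖fderiv ℝ u' z - fderiv ℝ u'' z‖ ^ 2 +
        9 * ((1 - (1 + a * ‖u' z - u'' z‖ ^ 2)⁻¹) ^ 2 * ‖fderiv ℝ u' z - fderiv ℝ u'' z‖ ^ 2) +
        ‖fderiv ℝ η z‖ ^ 2 / a) := by
  have hv : HasFDerivAt (fun z => u' z - u'' z) (fderiv ℝ u' z - fderiv ℝ u'' z) z :=
    hu'.hasFDerivAt.sub hu''.hasFDerivAt
  obtain ⟨S, hS, hSn⟩ := den_nsq _ _ z hv
  set D := fderiv ℝ u' z - fderiv ℝ u'' z with hD
  set s := ‖u' z - u'' z‖ with hs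
  have hs0 : 0 ≤ s := norm_nonneg _
  have hp : 0 < 1 + a * s ^ 2 := by positivity
  set h := (1 + a * s ^ 2)⁻¹ with hh
  have hh0 : 0 < h := inv_pos.2 hp
  have hh1 : h * (1 + a * s ^ 2) = 1 := inv_mul_cancel₀ hp.ne'
  have hq : HasFDerivAt (fun z => 1 + a * ‖u' z - u'' z‖ ^ 2) (a • S) z :=
    (hS.const_mul a).const_add 1
  have hi : HasFDerivAt (fun z => (1 + a * ‖u' z - u'' z‖ ^ 2)⁻¹) ((-(h ^ 2)) • (a • S)) z := by
    have h2 := (hasDerivAt_inv hp.ne').comp_hasFDerivAt z hq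
    refine h2.congr_fderiv ?_
    rw [hh, inv_pow]
  have hm := hη.hasFDerivAt.mul hi
  have hW : HasFDerivAt
      (fun z => u'' z + (η z * (1 + a * ‖u' z - u'' z‖ ^ 2)⁻¹) • (u' z - u'' z))
      (fderiv ℝ u'' z + ((η z * h) • D +
        (η z • -h ^ 2 • a • S + h • fderiv ℝ η z).smulRight (u' z - u'' z))) z :=
    hu''.hasFDerivAt.add (hm.smul hv)
  rw [hW.fderiv]
  refine den_alg _ _ _ _ h a s ha hh0 hh1 ?_ (norm_nonneg _)
  have hle : h ≤ 1 := by nlinarith [mul_nonneg hh0.le (mul_nonneg ha.le (sq_nonneg s))]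
  have heq : fderiv ℝ u'' z + ((η z * h) • D +
        (η z • -h ^ 2 • a • S + h • fderiv ℝ η z).smulRight (u' z - u'' z)) - fderiv ℝ u' z =
      (η z * h - 1) • D + (η z • -h ^ 2 • a • S + h • fderiv ℝ η z).smulRight (u' z - u'' z) := by
    rw [sub_smul, one_smul]
    have : fderiv ℝ u' z = D + fderiv ℝ u'' z := by rw [hD]; abel
    rw [this]
    abel
  rw [heq]
  refine (norm_add_le _ _).trans ?_
  rw [norm_smul, ContinuousLinearMap.norm_smulRight_apply, ← hs]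
  have hb : ‖η z • -h ^ 2 • a • S + h • fderiv ℝ η z‖ ≤
      h ^ 2 * a * (2 * s * ‖D‖) + h * ‖fderiv ℝ η z‖ := by
    refine (norm_add_le _ _).trans ?_
    rw [norm_smul, norm_smul, norm_smul, norm_smul, norm_neg, Real.norm_of_nonneg h0,
      Real.norm_of_nonneg (sq_nonneg h), Real.norm_of_nonneg ha.le, Real.norm_of_nonneg hh0.le]
    have h3 : h ^ 2 * (a * ‖S‖) ≤ h ^ 2 * a * (2 * s * ‖D‖) := by
      rw [← mul_assoc]
      exact mul_le_mul_of_nonneg_left hSn (by positivity)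
    have h4 : η z * (h ^ 2 * (a * ‖S‖)) ≤ h ^ 2 * (a * ‖S‖) :=
      mul_le_of_le_one_left (by positivity) h1
    linarith
  have hc : ‖η z * h - 1‖ ≤ (1 - η z) + (1 - h) := by
    rw [Real.norm_eq_abs, abs_le]
    constructor <;> nlinarith
  have hd := mul_le_mul_of_nonneg_right hb hs0
  have he' := mul_le_mul_of_nonneg_right hc (norm_nonneg D)
  have hf : h ^ 2 * a * s ^ 2 ≤ 1 - h := by
    have : h ^ 2 * a * s ^ 2 = h * (1 - h) := by linear_combination h * hh1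
    nlinarith
  have hg := mul_le_mul_of_nonneg_right hf (norm_nonneg D)
  nlinarith

variable {n : ℕ}

lemma den_norm (τ : Tr n (H ≃ᵃⁱ[ℂ] H)) (T : Fin n → ℂ) (U' U'' : ℂ → H) (z0 z : ℂ) :
    ‖gz τ T U' z0 z - gz τ T U'' z0 z‖ = ‖U' z - U'' z‖ := by
  unfold gz
  rw [← dist_eq_norm, ← dist_eq_norm]
  exact AffineIsometryEquiv.dist_map _ _ _

lemma den_gz (τ : Tr n (H ≃ᵃⁱ[ℂ] H)) (T : Fin n → ℂ) (U' U'' : ℂ → H) (η : ℂ → ℝ) (a : ℝ)
    (z0 : ℂ) :
    gz τ T (fun z => U'' z + (η z * (1 + a * ‖U' z - U'' z‖ ^ 2)⁻¹) • (U' z - U'' z)) z0 =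
      fun z => gz τ T U'' z0 z +
        (η z * (1 + a * ‖gz τ T U' z0 z - gz τ T U'' z0 z‖ ^ 2)⁻¹) •
          (gz τ T U' z0 z - gz τ T U'' z0 z) := by
  funext z
  rw [den_norm]
  simp only [gz]
  rw [← Complex.coe_smul, ← Complex.coe_smul]
  exact MA.bas_aff_comb _ _ _ _ _

lemma den_ae (T : Fin n → ℂ) : ∀ᵐ z : ℂ, ∀ i, T i ≠ z :=
  (MA.bas_ae_off T).mono fun _ h i e => h i (by rw [e])

lemma den_meas (τ : Tr n (H ≃ᵃⁱ[ℂ] H)) (T : Fin n → ℂ) (U' U'' : ℂ → H) (h' : IsSm τ T U')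
    (h'' : IsSm τ T U'') : AEStronglyMeasurable (fun z => ‖U' z - U'' z‖) volume := by
  have hO : IsOpen {z : ℂ | ∀ i, T i ≠ z} :=
    isOpen_iff_mem_nhds.2 fun z hz => MA.bas_ne_ev hz
  have hc : ContinuousOn (fun z => ‖U' z - U'' z‖) {z : ℂ | ∀ i, T i ≠ z} := fun z0 hz => by
    have h1 := ((h' z0 hz).continuousAt.sub (h'' z0 hz).continuousAt).norm
    refine ContinuousAt.continuousWithinAt ?_
    refine h1.congr (Eventually.of_forall fun z => ?_)
    exact den_norm τ T U' U'' z0 z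
  have h2 := hc.aestronglyMeasurable (μ := volume) hO.measurableSet
  have h3 : ∀ᵐ z : ℂ, z ∈ {z : ℂ | ∀ i, T i ≠ z} := den_ae T
  rwa [Measure.restrict_eq_self_of_ae_mem h3] at h2

end Hilbert

lemma den_dct (f : ℂ → ℝ) (hf : Integrable f) (hf0 : ∀ z, 0 ≤ f z) (g : ℕ → ℂ → ℝ)
    (hg : ∀ k, AEStronglyMeasurable (g k) volume) (h0 : ∀ k z, 0 ≤ g k z ∧ g k z ≤ 1)
    (hl : ∀ᵐ z, Tendsto (fun k => g k z) atTop (𝓝 1)) :
    (∀ k, Integrable fun z => (1 - g k z) ^ 2 * f z) ∧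
      Tendsto (fun k => ∫ z, (1 - g k z) ^ 2 * f z) atTop (𝓝 0) := by
  have hm : ∀ k, AEStronglyMeasurable (fun z => (1 - g k z) ^ 2 * f z) volume := fun k =>
    ((aestronglyMeasurable_const.sub (hg k)).pow 2).mul hf.1
  have hb : ∀ k, ∀ᵐ z, ‖(1 - g k z) ^ 2 * f z‖ ≤ f z := fun k => Eventually.of_forall fun z => by
    rw [Real.norm_of_nonneg (mul_nonneg (sq_nonneg _) (hf0 z))]
    refine mul_le_of_le_one_left (hf0 z) ?_
    have := h0 k z
    nlinarith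
  refine ⟨fun k => hf.mono' (hm k) (hb k), ?_⟩
  have h := tendsto_integral_of_dominated_convergence (f := fun _ => (0 : ℝ)) f hm hf hb
    (hl.mono fun z hz => by
      have h1 := (((tendsto_const_nhds (x := (1 : ℝ))).sub hz).pow 2).mul_const (f z)
      simpa using h1)
  simpa using h

theorem denSt (_hB : BasSt) (hM : MeaSt) (hC : CutSt) : DenSt := by
  intro H _ _ _ n τ T hT U' U'' h' h'' ε hε
  obtain ⟨η, hη, hη1, hη0⟩ := hC n T
  have m' := hM H n τ T U' hT h'.1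
  have m'' := hM H n τ T U'' hT h''.1
  have hf : Integrable fun z => ‖DD τ T U' z - DD τ T U'' z‖ ^ 2 := by
    refine ((h'.2.const_mul 2).add (h''.2.const_mul 2)).mono' ((m'.sub m'').norm.pow 2)
      (Eventually.of_forall fun z => ?_)
    rw [Real.norm_of_nonneg (sq_nonneg _)]
    have h1 := pow_le_pow_left₀ (norm_nonneg _) (norm_sub_le (DD τ T U' z) (DD τ T U'' z)) 2
    simp only [Pi.add_apply]
    nlinarith [sq_nonneg (‖DD τ T U' z‖ - ‖DD τ T U'' z‖)]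
  have hN := den_meas τ T U' U'' h'.1 h''.1
  obtain ⟨i1, l1⟩ := den_dct _ hf (fun z => sq_nonneg _)
    (fun k z => (1 + 1 / ((k : ℝ) + 1) * ‖U' z - U'' z‖ ^ 2)⁻¹)
    (fun k => ((aemeasurable_const.add
      (aemeasurable_const.mul (hN.aemeasurable.pow_const 2))).inv).aestronglyMeasurable)
    (fun k z => ⟨by positivity, inv_le_one_of_one_le₀ (le_add_of_nonneg_right (by positivity))⟩)
    (Eventually.of_forall fun z => by
      have h1 := ((tendsto_const_nhds (x := (1 : ℝ))).add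
        (tendsto_one_div_add_atTop_nhds_zero_nat.mul_const (‖U' z - U'' z‖ ^ 2))).inv₀
          (by norm_num)
      simpa using h1)
  obtain ⟨i2, l2⟩ := den_dct _ hf (fun z => sq_nonneg _) η
    (fun k => (hη k).1.continuous.aestronglyMeasurable) (fun k z => (hη k).2.2.2 z)
    ((den_ae T).mono fun z hz => tendsto_const_nhds.congr' ((hη1 z hz).mono fun k hk => hk.symm))
  obtain ⟨m, hm⟩ := (l1.eventually (gt_mem_nhds (show (0 : ℝ) < ε / 54 by positivity))).exists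
  set a : ℝ := 1 / ((m : ℝ) + 1) with ha
  have ha0 : 0 < a := by positivity
  have l3 := l2.add (hη0.div_const a)
  rw [zero_div, add_zero] at l3
  obtain ⟨k, hk⟩ := (l3.eventually (gt_mem_nhds (show (0 : ℝ) < ε / 6 by positivity))).exists
  obtain ⟨c1, c2, c3, c4⟩ := hη k
  have i3 : Integrable fun z => ‖fderiv ℝ (η k) z‖ ^ 2 / a := by
    refine Integrable.div_const ?_ a
    have e1 : Continuous fun z => ‖fderiv ℝ (η k) z‖ ^ 2 :=
      (c1.continuous_fderiv (by norm_num)).norm.pow 2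
    have e2 : HasCompactSupport ((fun D : ℂ →L[ℝ] ℝ => ‖D‖ ^ 2) ∘ fderiv ℝ (η k)) :=
      (c2.fderiv (𝕜 := ℝ)).comp_left (by simp)
    exact e1.integrable_of_hasCompactSupport e2
  set W : ℂ → H := fun z => U'' z + (η k z * (1 + a * ‖U' z - U'' z‖ ^ 2)⁻¹) • (U' z - U'' z)
    with hW
  have hWs : IsSm τ T W := fun z0 hz => by
    rw [hW, den_gz]
    have hv := (h'.1 z0 hz).sub (h''.1 z0 hz)
    refine (h''.1 z0 hz).add ((c1.contDiffAt.mul (ContDiffAt.inv ?_ (by positivity))).smul hv)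
    exact contDiffAt_const.add (contDiffAt_const.mul (hv.norm_sq ℂ))
  have mW := hM H n τ T W hT hWs
  have iB := (((i2 k).add ((i1 m).const_mul 9)).add i3).const_mul 3
  have hpt : ∀ᵐ z, ‖DD τ T W z - DD τ T U' z‖ ^ 2 ≤
      3 * ((1 - η k z) ^ 2 * ‖DD τ T U' z - DD τ T U'' z‖ ^ 2 +
        9 * ((1 - (1 + a * ‖U' z - U'' z‖ ^ 2)⁻¹) ^ 2 * ‖DD τ T U' z - DD τ T U'' z‖ ^ 2) +
        ‖fderiv ℝ (η k) z‖ ^ 2 / a) := (den_ae T).mono fun z hz => by
    have h1 := den_pt (η k) (gz τ T U' z) (gz τ T U'' z) z a ha0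
      (c1.differentiable (by norm_num) z) ((h'.1 z hz).differentiableAt (by norm_num))
      ((h''.1 z hz).differentiableAt (by norm_num)) (c4 z).1 (c4 z).2
    rw [← den_gz, den_norm] at h1
    exact h1
  have iD : Integrable fun z => ‖DD τ T W z - DD τ T U' z‖ ^ 2 :=
    iB.mono' ((mW.sub m').norm.pow 2) (hpt.mono fun z hz => by
      rw [Real.norm_of_nonneg (sq_nonneg _)]
      exact hz)
  refine ⟨W, tsupport (η k), ⟨hWs, ?_⟩, c2, fun i => ?_, fun z hz => ?_, ?_⟩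
  · refine ((iD.const_mul 2).add (h'.2.const_mul 2)).mono' (mW.norm.pow 2)
      (Eventually.of_forall fun z => ?_)
    rw [Real.norm_of_nonneg (sq_nonneg _)]
    have h0 : ‖DD τ T W z‖ ≤ ‖DD τ T W z - DD τ T U' z‖ + ‖DD τ T U' z‖ := by
      simpa using norm_add_le (DD τ T W z - DD τ T U' z) (DD τ T U' z)
    have h1 := pow_le_pow_left₀ (norm_nonneg _) h0 2
    simp only [Pi.add_apply]
    nlinarith [sq_nonneg (‖DD τ T W z - DD τ T U' z‖ - ‖DD τ T U' z‖)]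
  · exact notMem_tsupport_iff_eventuallyEq.2 (c3 i)
  · rw [hW]
    simp [image_eq_zero_of_notMem_tsupport hz]
  · refine (integral_mono_ae iD iB hpt).trans_lt ?_
    rw [integral_const_mul, integral_add' ((i2 k).add ((i1 m).const_mul 9)) i3,
      integral_add' (i2 k) ((i1 m).const_mul 9), integral_const_mul, integral_div]
    linarith

end Pool.Agent.MA2
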