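import Pool.Agent.Lib.MP_c86c76_al.An2.St

/-!
Least energy zero gives almost fixed points.
-/

set_option autoImplicit false

namespace Pool.Agent.MA2

open Complex MeasureTheory Filter Topology Set Function
open Pool.Agent.MA (cf Nr rc kk Tr bb gz DD d1 d2 en dg QQ KreinSt LioSt ChSt BdSt SegSt)
open scoped InnerProductSpace

/-- The real point `x` lies in the interval number `k`. -/
def finGood {n : ℕ} (t : Fin n → ℝ) (k : ℕ) (x : ℝ) : Prop :=
  ∀ m : Fin n, ((m : ℕ) < k → t m < x) ∧ (k ≤ (m : ℕ) → x < t m)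

theorem finGood_ne {n : ℕ} {t : Fin n → ℝ} {k : ℕ} {x : ℝ} (h : finGood t k x) (m : Fin n) :
    t m ≠ x := by
  rcases lt_or_ge (m : ℕ) k with hm | hm
  · exact ((h m).1 hm).ne
  · exact ((h m).2 hm).ne'

theorem finGood_kk {n : ℕ} {t : Fin n → ℝ} {k : ℕ} {x : ℝ} (h : finGood t k x) (hk : k ≤ n) :
    kk t x = k := by
  have : (Finset.univ.filter fun m => t m < x) =
      Finset.univ.filter fun m : Fin n => (m : ℕ) < k := by
    ext m
    simp only [Finset.mem_filter, Finset.mem_univ, true_and]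
    constructor
    · intro hm
      by_contra hk'
      exact absurd ((h m).2 (not_lt.mp hk')) (not_lt.mpr hm.le)
    · exact (h m).1
  unfold kk
  rw [this, Fin.card_filter_val_lt]
  omega

theorem finGood_exists {n : ℕ} {t : Fin n → ℝ} (ht : StrictMono t) (k : ℕ) :
    ∃ c : ℝ, ∃ ρ > 0, ∀ x : ℝ, |x - c| < ρ → finGood t k x := by
  classical
  obtain ⟨c, hc1, hc2⟩ := Order.exists_between_finsets
    ((Finset.univ.filter fun m : Fin n => (m : ℕ) < k).image t)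
    ((Finset.univ.filter fun m : Fin n => k ≤ (m : ℕ)).image t) (by
      intro x hx y hy
      obtain ⟨a, ha, rfl⟩ := Finset.mem_image.mp hx
      obtain ⟨b, hb, rfl⟩ := Finset.mem_image.mp hy
      simp only [Finset.mem_filter, Finset.mem_univ, true_and] at ha hb
      exact ht (by rw [Fin.lt_def]; omega))
  have hev : ∀ᶠ x in 𝓝 c, finGood t k x := by
    unfold finGood
    rw [eventually_all]
    intro m
    rcases lt_or_ge (m : ℕ) k with hm | hm
    · have h1 : t m < c := hc1 _ (Finset.mem_image.mpr ⟨m, by simpa using hm, rfl⟩)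
      filter_upwards [lt_mem_nhds h1] with x hx
      exact ⟨fun _ => hx, fun h => absurd hm (not_lt.mpr h)⟩
    · have h1 : c < t m := hc2 _ (Finset.mem_image.mpr ⟨m, by simpa using hm, rfl⟩)
      filter_upwards [gt_mem_nhds h1] with x hx
      exact ⟨fun h => absurd h (not_lt.mpr hm), fun _ => hx⟩
  obtain ⟨ρ, hρ, h⟩ := Metric.eventually_nhds_iff.mp hev
  exact ⟨c, ρ, hρ, fun x hx => h (by rwa [Real.dist_eq])⟩

theorem finTube (c : ℝ) (p : ℂ) (hp : |p.im| = 1) (δ : ℝ) (z : ℂ) (hz : z ∈ segment ℝ (c : ℂ) p)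
    (ζ : ℂ) (hζ : ζ ∈ Metric.ball (0 : ℂ) δ) (h : (z + ζ).im = 0) :
    |(z + ζ).re - c| < δ * (1 + ‖p - c‖) := by
  rw [segment_eq_image'] at hz
  obtain ⟨θ, hθ, rfl⟩ := hz
  rw [mem_ball_zero_iff] at hζ
  have h1 : θ * p.im + ζ.im = 0 := by simpa using h
  have h2 : θ ≤ ‖ζ‖ := by
    have h3 : θ * p.im = -ζ.im := by linarith
    have h4 : |θ * p.im| = θ := by rw [abs_mul, hp, abs_of_nonneg hθ.1, mul_one]
    rw [← h4, h3, abs_neg]
    exact abs_im_le_norm ζ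
  have h5 : ((c : ℂ) + θ • (p - c) + ζ).re - c = θ * (p - c).re + ζ.re := by
    simp
    ring
  rw [h5]
  have h6 : |θ * (p - c).re| ≤ δ * ‖p - c‖ := by
    rw [abs_mul, abs_of_nonneg hθ.1]
    exact mul_le_mul (by linarith) (abs_re_le_norm _) (abs_nonneg _) (by linarith [norm_nonneg ζ])
  have h7 := abs_re_le_norm ζ
  have h8 := abs_add_le (θ * (p - c).re) ζ.re
  nlinarith

theorem finPick {ι : Type} [Fintype ι] (f : ι → ℂ → ℝ) (δ e : ℝ) (he : 0 < e) (B : ι → ℝ)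
    (hB : ∀ j, 0 ≤ B j) (hc : ∀ j, ContinuousOn (f j) (Metric.ball 0 δ))
    (hI : ∀ j, ∫⁻ ζ in Metric.ball (0 : ℂ) δ, ENNReal.ofReal (f j ζ) ≤ ENNReal.ofReal (B j))
    (hlt : ∑ j, B j < e * (volume (Metric.ball (0 : ℂ) δ)).toReal) :
    ∃ ζ ∈ Metric.ball (0 : ℂ) δ, ∀ j, f j ζ < e := by
  by_contra hcon
  push Not at hcon
  have hfin : volume (Metric.ball (0 : ℂ) δ) ≠ ⊤ := measure_ball_lt_top.ne
  have h1 : ENNReal.ofReal e * volume (Metric.ball (0 : ℂ) δ) ≤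
      ∫⁻ ζ in Metric.ball (0 : ℂ) δ, ∑ j, ENNReal.ofReal (f j ζ) := by
    rw [← setLIntegral_const]
    refine setLIntegral_mono' Metric.isOpen_ball.measurableSet fun ζ hζ => ?_
    obtain ⟨j, hj⟩ := hcon ζ hζ
    exact (ENNReal.ofReal_le_ofReal hj).trans
      (Finset.single_le_sum (f := fun j => ENNReal.ofReal (f j ζ)) (fun _ _ => zero_le)
        (Finset.mem_univ j))
  rw [lintegral_finsetSum' (f := fun j ζ => ENNReal.ofReal (f j ζ)) _ fun j _ =>
    (ENNReal.continuous_ofReal.comp_continuousOn (hc j)).aemeasurable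
      Metric.isOpen_ball.measurableSet] at h1
  have h2 : ∑ j, ∫⁻ ζ in Metric.ball (0 : ℂ) δ, ENNReal.ofReal (f j ζ) ≤
      ENNReal.ofReal (∑ j, B j) := by
    rw [ENNReal.ofReal_sum_of_nonneg fun j _ => hB j]
    exact Finset.sum_le_sum fun j _ => hI j
  have h3 : ENNReal.ofReal (e * (volume (Metric.ball (0 : ℂ) δ)).toReal) ≤
      ENNReal.ofReal (∑ j, B j) := by
    rw [ENNReal.ofReal_mul he.le, ENNReal.ofReal_toReal hfin]
    exact h1.trans h2
  rw [ENNReal.ofReal_le_ofReal_iff (Finset.sum_nonneg fun j _ => hB j)] at h3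
  linarith

section Hilbert

variable {H : Type} [NormedAddCommGroup H] [InnerProductSpace ℂ H] {n : ℕ}

theorem finMul (f g : H ≃ᵃⁱ[ℂ] H) (x : H) : (f * g) x = f (g x) := rfl

theorem finComp (g : H ≃ᵃⁱ[ℂ] H) (u : ℂ → H) (z0 : ℂ) (hu : ContDiffAt ℝ 1 u z0) :
    ContDiffAt ℝ 1 (fun z => g (u z)) z0 ∧
      ‖fderiv ℝ (fun z => g (u z)) z0‖ ≤ ‖fderiv ℝ u z0‖ := by
  let L : H →L[ℝ] H :=
    (g.linearIsometryEquiv.toContinuousLinearEquiv.toContinuousLinearMap).restrictScalars ℝ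
  have hL : ∀ v, L v = g.linearIsometryEquiv v := fun v => rfl
  have hg : (fun z => g (u z)) = fun z => L (u z) + g 0 := by
    funext z
    have := g.map_vadd (0 : H) (u z)
    simpa [hL] using this
  rw [hg]
  refine ⟨(L.contDiff.contDiffAt.comp z0 hu).add contDiffAt_const, ?_⟩
  have hd : HasFDerivAt (fun z => L (u z) + g 0) (L.comp (fderiv ℝ u z0)) z0 :=
    (L.hasFDerivAt.comp z0 (hu.differentiableAt one_ne_zero).hasFDerivAt).add_const _
  rw [hd.fderiv]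
  refine ContinuousLinearMap.opNorm_le_bound _ (norm_nonneg _) fun v => ?_
  rw [ContinuousLinearMap.comp_apply, hL, LinearIsometryEquiv.norm_map]
  exact (fderiv ℝ u z0).le_opNorm v

/-- The section continued through the interval number `k`. -/
noncomputable def finW (τ : Tr n (H ≃ᵃⁱ[ℂ] H)) (U : ℂ → H) (k : ℕ) : ℂ → H := fun z =>
  if 0 < z.im then U z else if z.im < 0 then (τ.ga 1 k)⁻¹ (U z) else τ.a 1 k (U z)

theorem finW_eq (τ : Tr n (H ≃ᵃⁱ[ℂ] H)) {t : Fin n → ℝ} (ht : StrictMono t) (U : ℂ → H) {k : ℕ}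
    (hk : k ≤ n) (z0 : ℂ) (h : z0.im = 0 → finGood t k z0.re) :
    (∀ i, rc t i ≠ z0) ∧ ∃ g : H ≃ᵃⁱ[ℂ] H,
      finW τ U k =ᶠ[𝓝 z0] fun z => g (gz τ (rc t) U z0 z) := by
  rcases lt_trichotomy z0.im 0 with h0 | h0 | h0
  · have hne : ∀ i, (rc t i).im ≠ z0.im := fun i => by simpa [rc] using h0.ne'
    refine ⟨fun i hi => hne i (by rw [hi]), (τ.ga 1 k)⁻¹, ?_⟩
    filter_upwards [τ.loc z0 (rc t) hne,
      (continuous_im.tendsto z0).eventually (gt_mem_nhds h0)] with z hz hz'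
    simp only [finW, gz, hz, inv_one, if_neg (not_lt.mpr hz'.le), if_pos hz']
    rfl
  · have hg := h h0
    have hz0 : ((z0.re : ℝ) : ℂ) = z0 := by
      apply Complex.ext <;> simp [h0]
    refine ⟨fun i hi => finGood_ne hg i (by rw [← hi]; simp [rc]), τ.a 1 k, ?_⟩
    have hre := τ.re 1 t z0.re (by simpa using ht) (finGood_ne hg)
    rw [hz0, finGood_kk hg hk] at hre
    filter_upwards [hre] with z hz
    simp only [finW, gz, hz]
    split_ifs with h1 h2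
    · rw [← finMul, mul_inv_cancel]
      rfl
    · rw [← finMul, Tr.ga, mul_inv_rev, inv_inv]
    · rw [inv_one]
      rfl
  · have hne : ∀ i, (rc t i).im ≠ z0.im := fun i => by simpa [rc] using h0.ne
    refine ⟨fun i hi => hne i (by rw [hi]), 1, ?_⟩
    filter_upwards [τ.loc z0 (rc t) hne,
      (continuous_im.tendsto z0).eventually (lt_mem_nhds h0)] with z hz hz'
    simp only [finW, gz, hz, inv_one, if_pos hz']
    rfl

theorem finW_loc (τ : Tr n (H ≃ᵃⁱ[ℂ] H)) {t : Fin n → ℝ} (ht : StrictMono t) {U : ℂ → H}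
    (hU : IsSec τ (rc t) U) {k : ℕ} (hk : k ≤ n) (z0 : ℂ) (h : z0.im = 0 → finGood t k z0.re) :
    ContDiffAt ℝ 1 (finW τ U k) z0 ∧
      ‖fderiv ℝ (finW τ U k) z0‖ ^ 2 ≤ ‖DD τ (rc t) U z0‖ ^ 2 := by
  obtain ⟨hne, g, hg⟩ := finW_eq τ ht U hk z0 h
  obtain ⟨h1, h2⟩ := finComp g _ z0 ((hU.1 z0 hne).of_le (by norm_num))
  refine ⟨h1.congr_of_eventuallyEq hg, ?_⟩
  rw [hg.fderiv_eq]
  exact pow_le_pow_left₀ (norm_nonneg _) h2 2

end Hilbert

/-- The end points of the two segments. -/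
def finP (s : Bool) : ℂ := if s then I else -I

theorem finP_im (s : Bool) : |(finP s).im| = 1 := by
  cases s <;> simp [finP]

theorem finSt (hB : BasSt) (hS : SegSt) : FinSt := by
  intro H _ _ _ n τ t ht hne hE ε hε
  have hinj : Injective (rc t) := fun i j hij =>
    ht.injective (by simpa [rc] using hij)
  obtain ⟨-, -, -, hB4, -⟩ := hB H n τ (rc t) hinj
  choose c ρ hρ hc using fun k : Fin (n + 1) => finGood_exists ht (k : ℕ)
  have hδ : ∃ δ : ℝ, 0 < δ ∧ δ < 1 ∧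
      ∀ j : Fin (n + 1) × Bool, δ * (1 + ‖finP j.2 - c j.1‖) < ρ j.1 := by
    have h1 : ∀ᶠ δ : ℝ in 𝓝 0,
        ∀ j : Fin (n + 1) × Bool, δ * (1 + ‖finP j.2 - c j.1‖) < ρ j.1 := by
      rw [eventually_all]
      intro j
      have h2 : Tendsto (fun δ : ℝ => δ * (1 + ‖finP j.2 - c j.1‖)) (𝓝 0) (𝓝 0) := by
        have := (continuous_mul_const (1 + ‖finP j.2 - (c j.1 : ℂ)‖)).tendsto (0 : ℝ)
        simpa using this
      exact h2.eventually (gt_mem_nhds (hρ j.1))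
    have h3 : ∀ᶠ δ : ℝ in 𝓝[>] 0, 0 < δ ∧ δ < 1 ∧
        ∀ j : Fin (n + 1) × Bool, δ * (1 + ‖finP j.2 - c j.1‖) < ρ j.1 := by
      filter_upwards [self_mem_nhdsWithin, nhdsWithin_le_nhds (gt_mem_nhds one_pos),
        nhdsWithin_le_nhds h1] with δ a b d
      exact ⟨a, b, d⟩
    exact h3.exists
  obtain ⟨δ, hδ0, hδ1, hδ⟩ := hδ
  set v : ℝ := (volume (Metric.ball (0 : ℂ) δ)).toReal with hv
  have hv0 : 0 < v :=
    ENNReal.toReal_pos (Metric.measure_ball_pos _ _ hδ0).ne' measure_ball_lt_top.ne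
  set S : ℝ := ∑ j : Fin (n + 1) × Bool, ‖finP j.2 - c j.1‖ ^ 2 with hSdef
  have hS0 : 0 ≤ S := Finset.sum_nonneg fun _ _ => by positivity
  have he : 0 < (ε / 4) ^ 2 := by positivity
  have hη : 0 < (ε / 4) ^ 2 * v / (S + 1) := by positivity
  obtain ⟨U, hU, hen⟩ : ∃ U, IsSec τ (rc t) U ∧ en τ (rc t) U < (ε / 4) ^ 2 * v / (S + 1) := by
    obtain ⟨U0, hU0⟩ := hne
    have h1 : sInf (en τ (rc t) '' {U | IsSec τ (rc t) U}) < (ε / 4) ^ 2 * v / (S + 1) := by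
      have : sInf (en τ (rc t) '' {U | IsSec τ (rc t) U}) = 0 := hE
      rw [this]
      exact hη
    have h3 : (en τ (rc t) '' {U | IsSec τ (rc t) U}).Nonempty := ⟨_, U0, hU0, rfl⟩
    obtain ⟨_, ⟨U, hU, rfl⟩, h2⟩ := exists_lt_of_csInf_lt h3 h1
    exact ⟨U, hU, h2⟩
  obtain ⟨-, -, hint, hle⟩ := hB4 U hU
  have hloc : ∀ j : Fin (n + 1) × Bool, ∀ z ∈ segment ℝ (c j.1 : ℂ) (finP j.2),
      ∀ ζ ∈ Metric.ball (0 : ℂ) δ, ContDiffAt ℝ 1 (finW τ U j.1) (z + ζ) ∧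
        ‖fderiv ℝ (finW τ U j.1) (z + ζ)‖ ^ 2 ≤ ‖DD τ (rc t) U (z + ζ)‖ ^ 2 := by
    intro j z hz ζ hζ
    exact finW_loc τ ht hU (Nat.lt_succ_iff.mp j.1.2) _ fun h =>
      hc j.1 _ ((finTube _ _ (finP_im j.2) δ z hz ζ hζ h).trans (hδ j))
  have hE0 : 0 ≤ ∫ z, ‖DD τ (rc t) U z‖ ^ 2 := integral_nonneg fun _ => by positivity
  obtain ⟨ζ, hζ, hf⟩ := finPick
    (fun (j : Fin (n + 1) × Bool) ζ =>
      ‖finW τ U j.1 (finP j.2 + ζ) - finW τ U j.1 (c j.1 + ζ)‖ ^ 2)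
    δ ((ε / 4) ^ 2) he (fun j => ‖finP j.2 - c j.1‖ ^ 2 * ∫ z, ‖DD τ (rc t) U z‖ ^ 2)
    (fun j => by positivity)
    (fun j ζ hζ => by
      have h1 := (hloc j _ (right_mem_segment _ _ _) ζ hζ).1.continuousAt
      have h2 := (hloc j _ (left_mem_segment _ _ _) ζ hζ).1.continuousAt
      have h3 : ContinuousAt (fun ζ => finW τ U j.1 (finP j.2 + ζ)) ζ :=
        ContinuousAt.comp (f := fun ζ => finP j.2 + ζ) h1 (by fun_prop)
      have h4 : ContinuousAt (fun ζ => finW τ U j.1 (c j.1 + ζ)) ζ :=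
        ContinuousAt.comp (f := fun ζ => (c j.1 : ℂ) + ζ) h2 (by fun_prop)
      exact ((h3.sub h4).norm.pow 2).continuousWithinAt)
    (fun j => hS H (finW τ U j.1) (fun z => ‖DD τ (rc t) U z‖ ^ 2) _ _ δ hδ0 (hloc j)
      (fun _ => by positivity) hint)
    (by
      rw [← Finset.sum_mul, ← hSdef, ← hv]
      have h1 : (∫ z, ‖DD τ (rc t) U z‖ ^ 2) * (S + 1) < (ε / 4) ^ 2 * v :=
        (lt_div_iff₀ (by positivity)).mp (hle.trans_lt hen)
      nlinarith)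
  have hζ' : |ζ.im| < 1 := by
    rw [mem_ball_zero_iff] at hζ
    linarith [abs_im_le_norm ζ]
  obtain ⟨hζ1, hζ2⟩ := abs_lt.mp hζ'
  have key : ∀ k : ℕ, k ≤ n → ‖τ.ga 1 k (U (I + ζ)) - U (-I + ζ)‖ < ε / 2 := by
    intro k hk
    have h1 := hf (⟨k, Nat.lt_succ_iff.mpr hk⟩, true)
    have h2 := hf (⟨k, Nat.lt_succ_iff.mpr hk⟩, false)
    have h1' := lt_of_pow_lt_pow_left₀ 2 (by positivity) h1
    have h2' := lt_of_pow_lt_pow_left₀ 2 (by positivity) h2
    have e1 : finW τ U k (finP true + ζ) = U (I + ζ) := by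
      have : 0 < (I + ζ).im := by simp; linarith
      simp only [finW, finP, if_true, if_pos this]
    have e2 : finW τ U k (finP false + ζ) = (τ.ga 1 k)⁻¹ (U (-I + ζ)) := by
      have h3 : (-I + ζ).im < 0 := by simp; linarith
      have h4 : finP false = -I := by simp [finP]
      simp only [finW, h4, if_neg (not_lt.mpr h3.le), if_pos h3]
    simp only [e1, e2] at h1' h2'
    have h5 : U (-I + ζ) = τ.ga 1 k ((τ.ga 1 k)⁻¹ (U (-I + ζ))) := by
      rw [← finMul, mul_inv_cancel]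
      rfl
    rw [h5, ← dist_eq_norm, AffineIsometryEquiv.dist_map]
    rw [← dist_eq_norm] at h1' h2'
    have := dist_triangle_right (U (I + ζ)) ((τ.ga 1 k)⁻¹ (U (-I + ζ)))
      (finW τ U k (c ⟨k, Nat.lt_succ_iff.mpr hk⟩ + ζ))
    linarith
  refine ⟨U (I + ζ), fun k hk => ?_⟩
  have h1 := key k hk
  have h2 := key 0 (Nat.zero_le _)
  rw [← dist_eq_norm] at h1 h2 ⊢
  have := dist_triangle_right (τ.ga 1 k (U (I + ζ))) (τ.ga 1 0 (U (I + ζ))) (U (-I + ζ))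
  linarith

end Pool.Agent.MA2
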