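import Pool.Agent.Lib.MP_c86c76_al.An2.St
import Pool.Agent.Lib.MP_c86c76_al.An.Inf

/-!
The least energy stays bounded when a puncture runs to infinity.
-/

set_option autoImplicit false

namespace Pool.Agent.MA2

open Complex MeasureTheory Filter Topology Set Function
open Pool.Agent.MA (cf Nr rc kk Tr bb gz DD d1 d2 en dg infK inf_pi)

theorem inf_one {lam : ℂ → ℝ} {M : ℝ} (h : Ang lam M) (a z : ℂ)
    (hz : (z - a).re < -(‖z - a‖ / 2)) : ∀ᶠ w in 𝓝 z, lam (w - a) = 1 := by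
  have : ∀ᶠ w in 𝓝 z, (w - a).re < -(‖w - a‖ / 2) :=
    (isOpen_lt (by fun_prop) (by fun_prop)).mem_nhds hz
  filter_upwards [this] with w hw
  refine h.2.2.1 _ (fun e => ?_) hw.le
  rw [e] at hw
  simp at hw

theorem inf_zero {lam : ℂ → ℝ} {M : ℝ} (h : Ang lam M) (a z : ℂ)
    (hz : ‖z - a‖ / 2 < (z - a).re) : ∀ᶠ w in 𝓝 z, lam (w - a) = 0 := by
  have : ∀ᶠ w in 𝓝 z, ‖w - a‖ / 2 < (w - a).re :=
    (isOpen_lt (by fun_prop) (by fun_prop)).mem_nhds hz
  filter_upwards [this] with w hw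
  refine h.2.2.2.1 _ (fun e => ?_) hw.le
  rw [e] at hw
  simp at hw

theorem inf_ang {lam La : ℂ → ℝ} {M : ℝ} (h1 : Ang lam M) (h2 : Lam lam La M) (a : ℝ) :
    ∃ A : ℝ → ℂ → ℝ, ∀ b, a ≤ b →
      (∀ z : ℂ, (b : ℂ) ≠ z → ContDiffAt ℝ 2 (A b) z) ∧ (∀ z, |A b z| ≤ 3) ∧
      (∀ x : ℝ, x < b → ∀ᶠ z in 𝓝 (x : ℂ), A b z = 1) ∧
      (∀ x : ℝ, b < x → ∀ᶠ z in 𝓝 (x : ℂ), A b z = 0) ∧
      (A b =ᶠ[𝓝 (b : ℂ)] fun z => lam (z - b)) ∧
      (∀ z : ℂ, 5 / 2 * (b - a) < ‖z - a‖ → A b =ᶠ[𝓝 z] fun z => lam (z - a)) ∧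
      (a < b → (∀ z : ℂ, ‖z - a‖ < 2 * (b - a) → A b =ᶠ[𝓝 z] fun z => lam (z - b)) ∧
        ∀ z : ℂ, ‖z - a‖ ≤ 3 * (b - a) → (b - a) / 4 ≤ ‖z - b‖ →
          ‖fderiv ℝ (A b) z‖ ≤ M / (b - a)) := by
  classical
  refine ⟨fun b z => if b = a then lam (z - a) else La ((z - a) / ((b - a : ℝ) : ℂ)), fun b hb => ?_⟩
  rcases hb.eq_or_lt with rfl | hb
  · simp only [if_true]
    refine ⟨fun z hz => (h1.1 _ (sub_ne_zero.2 hz.symm)).comp z (by fun_prop), fun z => ?_,
      fun x hx => inf_one h1 _ _ ?_, fun x hx => inf_zero h1 _ _ ?_, EventuallyEq.rfl,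
      fun _ _ => EventuallyEq.rfl, fun h => absurd h (lt_irrefl _)⟩
    · rw [abs_of_nonneg (h1.2.1 _).1]
      linarith [(h1.2.1 (z - a)).2]
    · rw [← ofReal_sub, ofReal_re, norm_real, Real.norm_eq_abs, abs_of_neg (by linarith)]
      linarith
    · rw [← ofReal_sub, ofReal_re, norm_real, Real.norm_eq_abs, abs_of_pos (by linarith)]
      linarith
  · simp only [if_neg hb.ne']
    set r := b - a with hr
    have r0 : 0 < r := sub_pos.2 hb
    have rc : (r : ℂ) ≠ 0 := ofReal_ne_zero.2 r0.ne'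
    have e1 : ∀ z : ℂ, (z - a) / r - 1 = (z - b) / r := fun z => by
      field_simp
      rw [hr]
      push_cast
      ring
    have n1 : ∀ z : ℂ, ‖z / r‖ = ‖z‖ / r := fun z => by
      rw [norm_div, norm_real, Real.norm_of_nonneg r0.le]
    have l1 : ∀ z : ℂ, lam (z / r) = lam z := fun z => by
      rw [← h1.2.2.2.2.2 z r⁻¹ (inv_pos.2 r0), ofReal_inv, inv_mul_eq_div]
    have ct : ∀ x : ℝ, Tendsto (fun z : ℂ => (z - a) / r) (𝓝 (x : ℂ))
        (𝓝 (((x - a) / r : ℝ) : ℂ)) := fun x => by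
      push_cast
      exact Continuous.tendsto (f := fun z : ℂ => (z - a) / r) (by fun_prop) _
    have nr : ∀ z : ℂ, ‖z - a‖ < 2 * r →
        (fun z : ℂ => La ((z - a) / r)) =ᶠ[𝓝 z] fun z => lam (z - b) := fun z hz => by
      have : ∀ᶠ w : ℂ in 𝓝 z, ‖w - a‖ < 2 * r :=
        (isOpen_lt (by fun_prop) (by fun_prop)).mem_nhds hz
      filter_upwards [this] with w hw
      rw [h2.2.2.1 _ (by rwa [n1, div_lt_iff₀ r0]), e1, l1]
    have sm : ∀ z : ℂ, (b : ℂ) ≠ z → ContDiffAt ℝ 2 La ((z - a) / r) := fun z hz =>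
      h2.1 _ fun e => by
        have := e1 z
        rw [e, sub_self, eq_comm, div_eq_zero_iff, sub_eq_zero] at this
        exact this.elim (fun h => hz h.symm) rc
    refine ⟨fun z hz => (sm z hz).comp z (by fun_prop), fun z => ?_,
      fun x hx => (ct x).eventually (h2.2.2.2.2.1 _ ?_),
      fun x hx => (ct x).eventually (h2.2.2.2.2.2.1 _ ?_), nr _ ?_, fun z hz => ?_,
      fun _ => ⟨nr, fun z hz hz' => ?_⟩⟩
    · rw [abs_of_nonneg (h2.2.1 _).1]
      linarith [(h2.2.1 ((z - a) / r)).2]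
    · rw [div_lt_one r0]
      linarith
    · rw [one_lt_div r0]
      linarith
    · rw [← ofReal_sub, norm_real, Real.norm_of_nonneg r0.le]
      linarith
    · have : ∀ᶠ w : ℂ in 𝓝 z, 5 / 2 * r < ‖w - a‖ :=
        (isOpen_lt (by fun_prop) (by fun_prop)).mem_nhds hz
      filter_upwards [this] with w hw
      rw [h2.2.2.2.1 _ (by rwa [n1, lt_div_iff₀ r0]), l1]
    · have hz2 : (b : ℂ) ≠ z := fun e => by
        rw [← e, sub_self, norm_zero] at hz'
        linarith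
      have h3 : HasFDerivAt (fun w : ℂ => (w - a) / r) (r⁻¹ • ContinuousLinearMap.id ℝ ℂ) z := by
        have := ((hasFDerivAt_id (𝕜 := ℝ) z).sub_const (a : ℂ)).const_smul r⁻¹
        refine this.congr_of_eventuallyEq (Eventually.of_forall fun w => ?_)
        simp [div_eq_inv_mul]
      have h4 := ((sm z hz2).differentiableAt (by norm_num)).hasFDerivAt.comp z h3
      rw [show (fun z : ℂ => La ((z - a) / r)) = La ∘ fun w : ℂ => (w - a) / r from rfl, h4.fderiv]
      have h6 := h2.2.2.2.2.2.2 ((z - a) / r) (by rwa [n1, div_le_iff₀ r0])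
        (by rw [e1, n1, le_div_iff₀ r0]; linarith)
      have h7 : ‖r⁻¹ • ContinuousLinearMap.id ℝ ℂ‖ ≤ r⁻¹ := by
        rw [norm_smul, Real.norm_of_nonneg (inv_pos.2 r0).le]
        exact mul_le_of_le_one_right (inv_pos.2 r0).le ContinuousLinearMap.norm_id_le
      refine (ContinuousLinearMap.opNorm_comp_le _ _).trans ?_
      rw [div_eq_mul_inv M]
      exact mul_le_mul h6 h7 (norm_nonneg _) ((norm_nonneg _).trans h6)

theorem inf_prof (hK : KapSt) (hP : PathSt) (hN : NeckSt) : ∃ C : ℝ,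
    ∀ (H : Type) [NormedAddCommGroup H] [InnerProductSpace ℂ H] [CompleteSpace H]
    (T : H ≃ᵃⁱ[ℂ] H) (y : H) (K : ℝ) (J : Set ℝ), Kap T y K →
    ((∃ s, J = Iic s) ∨ (∃ s, J = Ici s) ∨ ∃ s s', s + 1 ≤ s' ∧ J = Icc s s') →
    ∃ p : ℝ → H, MeasurableSet J ∧ ContDiff ℝ 2 p ∧ (∀ s, s ∉ J → p s = y) ∧
      (∀ s, s ∉ J → deriv p s = 0) ∧ IntegrableOn (pe T p) J ∧ ∫ s in J, pe T p s ≤ C * K := by
  obtain ⟨C1, c1, hP⟩ := hP
  obtain ⟨C2, c2, hN⟩ := hN
  refine ⟨C1 + 2 * C2, fun H _ _ _ T y K J hk hJ => ?_⟩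
  have k0 := (hK H T y K hk).1
  have key : IsClosed J ∧ ∃ p : ℝ → H, ContDiff ℝ 2 p ∧ (∀ s, s ∉ J → p s = y) ∧
      IntegrableOn (pe T p) J ∧ ∫ s in J, pe T p s ≤ (C1 + 2 * C2) * K := by
    rcases hJ with ⟨s, rfl⟩ | ⟨s, rfl⟩ | ⟨s, s', h, rfl⟩
    · obtain ⟨-, p, a, b, c, d⟩ := hP H T y K s hk
      exact ⟨isClosed_Iic, p, a, fun x hx => b x (not_le.1 hx).le, c, d.trans (by nlinarith)⟩
    · obtain ⟨⟨p, a, b, c, d⟩, -⟩ := hP H T y K s hk
      exact ⟨isClosed_Ici, p, a, fun x hx => b x (not_le.1 hx).le, c, d.trans (by nlinarith)⟩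
    · obtain ⟨p, a, b, b', c, d⟩ := hN H T y y K K s s' hk hk h
      refine ⟨isClosed_Icc, p, a, fun x hx => ?_, c, d.trans ?_⟩
      · by_cases e : x ≤ s
        · exact b x e
        · exact b' x (not_lt.1 fun f => hx ⟨(not_le.1 e).le, f.le⟩)
      · simp only [sub_self, norm_zero, ne_eq, OfNat.ofNat_ne_zero, not_false_eq_true, zero_pow,
          zero_div, add_zero]
        nlinarith
  obtain ⟨hc, p, a, b, c, d⟩ := key
  refine ⟨p, hc.measurableSet, a, b, fun s hs => ?_, c, d⟩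
  have : p =ᶠ[𝓝 s] fun _ => y := by
    filter_upwards [hc.isOpen_compl.mem_nhds hs] with x hx using b x hx
  rw [this.deriv_eq, deriv_const]

theorem inf_ball (a : ℂ) (r c : ℝ) (hr : 0 ≤ r) :
    Integrable ((Metric.closedBall a r).indicator fun _ => c) ∧
      ∫ z, (Metric.closedBall a r).indicator (fun _ => c) z = r ^ 2 * Real.pi * c := by
  refine ⟨(integrableOn_const measure_closedBall_lt_top.ne).integrable_indicator
    measurableSet_closedBall, ?_⟩
  rw [integral_indicator_const _ measurableSet_closedBall, Measure.real, Complex.volume_closedBall]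
  simp [hr]

theorem inf_le {n : ℕ} {t : Fin n → ℝ} {π : Equiv.Perm (Fin n)} (h : StrictMono (t ∘ π)) (x : ℝ)
    (m : Fin n) : kk t x ≤ m ↔ ¬ t (π m) < x := by
  have e : kk t x = (Finset.univ.filter fun i => t (π i) < x).card :=
    (Finset.card_equiv π (by simp)).symm
  rw [e]
  constructor
  · intro a b
    have : Finset.Iic m ⊆ Finset.univ.filter fun i => t (π i) < x := fun i hi =>
      Finset.mem_filter.2 ⟨Finset.mem_univ _, (h.monotone (Finset.mem_Iic.1 hi)).trans_lt b⟩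
    have := Finset.card_le_card this
    rw [Fin.card_Iic] at this
    omega
  · intro a
    rw [← Fin.card_Iio m]
    refine Finset.card_le_card fun i hi => Finset.mem_Iio.2 (not_le.1 fun b => a ?_)
    exact (h.monotone b).trans_lt (Finset.mem_filter.1 hi).2

/-- The centres of the annuli. -/
def infA {n : ℕ} (j : Fin (n + 1)) : Option (Option (Option (Fin n))) → Fin (n + 1)
  | none => 0
  | some none => 0
  | some (some none) => j
  | some (some (some m)) => j.succAbove m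

/-- The ranges of the annuli. -/
def infJ (n : ℕ) (δ B ρ : ℝ) : Option (Option (Option (Fin n))) → Set ℝ
  | none => Ici (Real.log (3 * ρ))
  | some none => Icc (Real.log B) (Real.log (ρ / 4))
  | some (some none) => Iic (Real.log (ρ / 4))
  | some (some (some _)) => Iic (Real.log δ)

/-- The annuli. -/
def infR {n : ℕ} (a : ℝ) (s : Fin n → ℝ) (δ B R : ℝ) (z : ℂ) :
    Option (Option (Option (Fin n))) → Prop
  | none => 3 * (R - a) ≤ ‖z - a‖
  | some none => B ≤ ‖z - a‖ ∧ ‖z - a‖ ≤ (R - a) / 4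
  | some (some none) => ‖z - R‖ ≤ (R - a) / 4
  | some (some (some m)) => ‖z - s m‖ ≤ δ

theorem inf_tri (z : ℂ) {a b : ℝ} (h : a ≤ b) :
    ‖z - a‖ ≤ ‖z - b‖ + (b - a) ∧ b - a ≤ ‖z - a‖ + ‖z - b‖ ∧
      b - a - ‖z - b‖ ≤ (z - a).re ∧ (z - b).re ≤ ‖z - a‖ - (b - a) := by
  have e : ‖(b : ℂ) - a‖ = b - a := by
    rw [← ofReal_sub, norm_real, Real.norm_of_nonneg (sub_nonneg.2 h)]
  have h1 := norm_add_le (z - b) ((b : ℂ) - a)
  have h2 := norm_sub_le (z - a) (z - b)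
  have h3 := (abs_le.1 (abs_re_le_norm (z - b))).1
  have h4 := re_le_norm (z - a)
  rw [sub_add_sub_cancel, e] at h1
  rw [sub_sub_sub_cancel_left, e] at h2
  simp only [sub_re, ofReal_re] at h3 h4 ⊢
  exact ⟨h1, h2, by linarith, by linarith⟩

theorem infSt (hA : AngSt) (hK : KapSt) (hP : PathSt) (hN : NeckSt) (hT : TreeSt) : InfSt := by
  intro H _ _ _ n τ t j hτ ht hj
  obtain ⟨π, p0, p1, p2⟩ := inf_pi hj
  obtain ⟨e1, -, e2, e3⟩ := hτ π p0
  obtain ⟨lam, La, M, h1, h2⟩ := hA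
  obtain ⟨K0, k0, hT⟩ := hT lam M (n + 1) (n + 3) h1
  obtain ⟨C, hC⟩ := inf_prof hK hP hN
  obtain ⟨A, hA⟩ := inf_ang h1 h2 (t 0)
  obtain ⟨y⟩ : Nonempty H := ⟨0⟩
  have M0 : 0 ≤ M := by simpa using (norm_nonneg _).trans (h1.2.2.2.2.1 1 one_ne_zero)
  have hs : StrictMono (t ∘ j.succAbove) := ht.comp (Fin.strictMono_succAbove j)
  set s := t ∘ j.succAbove with hs'
  set a := t 0 with ha
  have sa : ∀ m, a ≤ s m := fun m => ht.monotone (Fin.zero_le _)
  have el : ∀ c, ∃ K, Kap (lp τ π (infK n c).1 (infK n c).2) y K := by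
    have : ∀ c, Fk τ π (infK n c).1 (infK n c).2 := by
      rintro (_ | _ | _ | m)
      exacts [e3, e2, e1 n le_rfl, e1 m m.2.le]
    intro c
    obtain ⟨y', K, h⟩ := this c
    exact ⟨_, (hK H _ y' K h).2.2.2.1 y⟩
  choose K hk using el
  have lc : ∀ {f : ℂ → ℝ} {z : ℂ} {c : ℝ}, (∀ᶠ w in 𝓝 z, f w = c) → fderiv ℝ f z = 0 :=
    fun {f z c} h => (EventuallyEq.fderiv_eq (f := fun _ => c) h).trans (fderiv_const_apply c)
  have la : ∀ {f : ℂ → ℝ} {z b : ℂ}, (f =ᶠ[𝓝 z] fun z => lam (z - b)) →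
      fderiv ℝ f z = fderiv ℝ lam (z - b) := fun h => h.fderiv_eq.trans (fderiv_comp_sub _)
  obtain ⟨δ, δ0, δ1, hδ⟩ : ∃ δ : ℝ, 0 < δ ∧ δ ≤ 1 ∧ ∀ m0, ∀ z : ℂ, ‖z - s m0‖ ≤ δ →
      fderiv ℝ (A (s m0)) z = fderiv ℝ lam (z - s m0) ∧
        ∀ m, m ≠ m0 → δ < ‖z - s m‖ ∧ fderiv ℝ (A (s m)) z = 0 := by
    have h3 : ∀ m0, ∀ᶠ z in 𝓝 (s m0 : ℂ), fderiv ℝ (A (s m0)) z = fderiv ℝ lam (z - s m0) ∧
        ∀ m, m ≠ m0 → ‖(s m0 : ℂ) - s m‖ / 2 < ‖z - s m‖ ∧ fderiv ℝ (A (s m)) z = 0 := fun m0 => by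
      refine ((hA _ (sa m0)).2.2.2.2.1.eventually_nhds.mono fun z h => la h).and
        (eventually_all.2 fun m => ?_)
      by_cases e : m = m0
      · exact Eventually.of_forall fun _ h => absurd e h
      have : 0 < ‖(s m0 : ℂ) - s m‖ :=
        norm_sub_pos_iff.2 fun h => e (hs.injective (ofReal_injective h)).symm
      have h4 : ∀ᶠ z : ℂ in 𝓝 (s m0 : ℂ), ‖(s m0 : ℂ) - s m‖ / 2 < ‖z - s m‖ :=
        (isOpen_lt (by fun_prop) (by fun_prop)).mem_nhds (half_lt_self this)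
      rcases lt_or_gt_of_ne (hs.injective.ne e) with b | b
      · filter_upwards [h4, ((hA _ (sa m)).2.2.2.1 _ b).eventually_nhds] with z c d _
        exact ⟨c, lc d⟩
      · filter_upwards [h4, ((hA _ (sa m)).2.2.1 _ b).eventually_nhds] with z c d _
        exact ⟨c, lc d⟩
    have h5 : ∀ᶠ δ : ℝ in 𝓝 0, ∀ m0 m, m ≠ m0 → δ < ‖(s m0 : ℂ) - s m‖ / 2 :=
      eventually_all.2 fun m0 => eventually_all.2 fun m => by
        by_cases e : m = m0
        · exact Eventually.of_forall fun _ h => absurd e h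
        · exact (gt_mem_nhds (half_pos (norm_sub_pos_iff.2 fun h =>
            e (hs.injective (ofReal_injective h)).symm))).mono fun _ h _ => h
    obtain ⟨δ, ⟨⟨b, c⟩, d⟩, e⟩ := (((((eventually_all.2 fun m0 =>
      eventually_closedBall_subset (h3 m0)).and h5).and
        (ge_mem_nhds zero_lt_one)).filter_mono nhdsWithin_le_nhds).and
          (self_mem_nhdsWithin (a := (0 : ℝ)) (s := Ioi 0))).exists
    refine ⟨δ, e, d, fun m0 z hz => ?_⟩
    have := b m0 (mem_closedBall_iff_norm.2 hz)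
    exact ⟨this.1, fun m h => ⟨(c m0 m h).trans (this.2 m h).1, (this.2 m h).2⟩⟩
  obtain ⟨B, B0, hB⟩ : ∃ B : ℝ, 0 < B ∧ ∀ m, 5 / 2 * (s m - a) < B ∧ s m - a + 1 < B :=
    ((eventually_gt_atTop 0).and (eventually_all.2 fun m =>
      (eventually_gt_atTop _).and (eventually_gt_atTop _))).exists
  obtain ⟨D, D0, hD⟩ : ∃ D : ℝ, 0 ≤ D ∧ ∀ m, ∀ z : ℂ, ‖z - a‖ ≤ B → δ ≤ ‖z - s m‖ →
      ‖fderiv ℝ (A (s m)) z‖ ≤ D := by
    refine ((eventually_ge_atTop 0).and (eventually_all.2 fun m => ?_)).exists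
    obtain ⟨D, hD⟩ := ((isCompact_closedBall (a : ℂ) B).inter_right
      (isClosed_le (f := fun _ => δ) (g := fun z : ℂ => ‖z - s m‖) (by fun_prop)
        (by fun_prop))).exists_bound_of_continuousOn (f := fderiv ℝ (A (s m))) fun z hz =>
      (((hA _ (sa m)).1 z fun e => by
        have := hz.2
        rw [mem_ofPred_eq, ← e, sub_self, norm_zero] at this
        linarith).fderiv_right (m := 1) (by norm_num)).continuousAt.continuousWithinAt
    filter_upwards [eventually_ge_atTop D] with D' h z b c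
    exact (hD z ⟨mem_closedBall_iff_norm.2 b, c⟩).trans h
  obtain ⟨G, hG⟩ : ∃ G, G = ∑ m ∈ Finset.range (n + 1), ‖τ.ga π m y - τ.ga π (m + 1) y‖ := ⟨_, rfl⟩
  refine ⟨K0 * (B ^ 2 * Real.pi * (D * G) ^ 2 + 9 * Real.pi * (4 * M * G) ^ 2 + ∑ c, C * K c), ?_⟩
  filter_upwards [eventually_ge_atTop (4 * B + a), (Real.tendsto_log_atTop.comp
    ((tendsto_atTop_add_const_right _ (-a) tendsto_id).atTop_div_const
      (four_pos (α := ℝ)))).eventually_ge_atTop (Real.log B + 1)] with R r1 r2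
  replace r2 : Real.log B + 1 ≤ Real.log ((R - a) / 4) := r2
  have aR : a < R := by linarith
  have ρ0 : 0 < R - a := by linarith
  have tm : ∀ m, update t j R (j.succAbove m) = s m := fun m =>
    update_of_ne (Fin.succAbove_ne j m) _ _
  have t0 : update t j R 0 = a := update_of_ne hj.symm _ _
  have tj : update t j R j = R := update_self _ _ _
  generalize update t j R = t' at tm t0 tj ⊢
  obtain ⟨w, wm, wn⟩ : ∃ w : ℕ → ℝ, (∀ m : Fin n, w m = s m) ∧ w n = R :=
    ⟨fun k => if h : k < n then s ⟨k, h⟩ else R, fun m => dif_pos m.2, dif_neg (lt_irrefl n)⟩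
  have cs : ∀ k, k < n + 1 → k = n ∨ ∃ m : Fin n, k = m := fun k h =>
    (Nat.lt_succ_iff.1 h).eq_or_lt.imp_right fun h => ⟨⟨k, h⟩, rfl⟩
  have wt : ∀ m : Fin (n + 1), t' (π m) = w m ∧ a ≤ w m := fun m => by
    rcases m.eq_castSucc_or_eq_last with ⟨m, rfl⟩ | rfl
    · rw [p2, tm, Fin.val_castSucc, wm]
      exact ⟨rfl, sa m⟩
    · rw [p1, tj, Fin.val_last, wn]
      exact ⟨rfl, aR.le⟩
  have mo : StrictMono (t' ∘ π) := by
    intro b c h
    obtain ⟨b, rfl⟩ := Fin.exists_castSucc_eq.2 (Fin.ne_last_of_lt h)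
    rcases c.eq_castSucc_or_eq_last with ⟨c, rfl⟩ | rfl
    · rw [comp, comp, p2, p2, tm, tm]
      exact hs (Fin.castSucc_lt_castSucc_iff.1 h)
    · rw [comp, comp, p2, p1, tm, tj]
      linarith [(hB b).2]
  choose p hp using fun c => hC H _ y (K c) (infJ n δ B (R - a) c) (hk c) (by
    rcases c with _ | _ | _ | m
    exacts [Or.inr (Or.inl ⟨_, rfl⟩), Or.inr (Or.inr ⟨_, _, r2, rfl⟩), Or.inl ⟨_, rfl⟩,
      Or.inl ⟨_, rfl⟩])
  have hR : ∀ z : ℂ, (∀ i, (t' i : ℂ) ≠ z) → ∀ c,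
      Real.log ‖z - t' (infA j c)‖ ∈ infJ n δ B (R - a) c ↔ infR a s δ B R z c := fun z hz c => by
    have := norm_sub_pos_iff.2 (hz (infA j c)).symm
    rcases c with _ | _ | _ | m
    · simp only [infA, infJ, infR, t0, mem_Ici] at this ⊢
      exact Real.log_le_log_iff (by linarith) this
    · simp only [infA, infJ, infR, t0, mem_Icc] at this ⊢
      exact and_congr (Real.log_le_log_iff B0 this) (Real.log_le_log_iff this (by linarith))
    · simp only [infA, infJ, infR, tj, mem_Iic] at this ⊢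
      exact Real.log_le_log_iff this (by linarith)
    · simp only [infA, infJ, infR, tm, mem_Iic] at this ⊢
      exact Real.log_le_log_iff this δ0
  have dj : ∀ (z : ℂ) c c', infR a s δ B R z c → infR a s δ B R z c' → c' = c := by
    intro z c c' h h'
    have i1 := inf_tri z aR.le
    have i2 := fun m => (inf_tri z (sa m)).1
    rcases c with _ | _ | _ | m <;> rcases c' with _ | _ | _ | m' <;> simp only [infR] at h h'
    all_goals first
      | rfl
      | (exfalso; linarith [i1.1, i1.2.1])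
      | (exfalso; linarith [i1.1, i1.2.1, i2 m, (hB m).2])
      | (exfalso; linarith [i1.1, i1.2.1, i2 m', (hB m').2])
      | (by_cases e : m' = m
         · rw [e]
         · exact absurd h' ((hδ m z h).2 m' e).1.not_ge)
  have An : ∀ z : ℂ, ‖z - a‖ ≤ (R - a) / 4 → fderiv ℝ (A R) z = 0 := fun z hz => by
    have i1 := inf_tri z aR.le
    have i2 := norm_add_le (z - a) ((a : ℂ) - R)
    rw [sub_add_sub_cancel, norm_sub_rev (a : ℂ), ← ofReal_sub, norm_real,
      Real.norm_of_nonneg ρ0.le] at i2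
    refine lc (c := 1) ?_
    filter_upwards [((hA R aR.le).2.2.2.2.2.2 aR).1 z (by linarith),
      inf_one h1 R z (by linarith [i1.2.2.2])] with x b c using b.trans c
  have Am : ∀ (z : ℂ) m, B ≤ ‖z - a‖ → fderiv ℝ (A (s m)) z = fderiv ℝ lam (z - a) :=
    fun z m hz => la ((hA _ (sa m)).2.2.2.2.2.1 z ((hB m).1.trans_le hz))
  have b1 := inf_ball a B ((D * G) ^ 2) B0.le
  have b2 := inf_ball a (3 * (R - a)) ((4 * M / (R - a) * G) ^ 2) (by linarith)
  refine And.imp_right (fun h => le_trans h ?_) (hT H τ π t' _ (infA j) (infJ n δ B (R - a))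
    (fun c => (infK n c).1) (fun c => (infK n c).2) p (fun _ => y) y _ (fun k => A (w k))
    (fun z => (Metric.closedBall (a : ℂ) B).indicator (fun _ => (D * G) ^ 2) z +
      (Metric.closedBall (a : ℂ) (3 * (R - a))).indicator
        (fun _ => (4 * M / (R - a) * G) ^ 2) z) mo (by simp) (fun _ => rfl) ?_ ?_ ?_ ?_ ?_ ?_
    (b1.1.add b2.1))
  · rw [integral_add b1.1 b2.1, b1.2, b2.2]
    refine mul_le_mul_of_nonneg_left (add_le_add (le_of_eq ?_)
      (Finset.sum_le_sum fun c _ => (hp c).2.2.2.2.2)) k0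
    field_simp
    ring
  · intro c
    refine ⟨(hp c).1, ?_, ?_, (hp c).2.1, (hp c).2.2.2.1, (hp c).2.2.2.2.1⟩
    · rcases c with _ | _ | _ | m <;> simp [infK]
    · rcases c with _ | _ | _ | m <;> simp [infK]
  · intro m hm z hz
    have := wt ⟨m, hm⟩
    exact ⟨(hA _ this.2).1 z (this.1 ▸ hz _), (hA _ this.2).2.1 z⟩
  · intro m hm x hx
    have := wt ⟨m, hm⟩
    have e := inf_le mo x ⟨m, hm⟩
    have f := hx (π ⟨m, hm⟩)
    rw [this.1] at e f
    rcases lt_or_gt_of_ne f with b | b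
    · rw [if_neg fun h => e.1 h b]
      exact (hA _ this.2).2.2.2.1 x b
    · rw [if_pos (e.2 b.not_gt)]
      exact (hA _ this.2).2.2.1 x b
  · intro c z hc hz
    have h := (hR z hz c).1 hc.2
    refine ⟨?_, fun k hk => ?_⟩
    · rw [Finset.sum_eq_single c (fun c' _ e => sub_eq_zero.2 ((hp c').2.2.1 _ fun h' =>
        e (dj z c c' h ((hR z hz c').1 h')))) (by simp), add_sub_cancel]
    have i1 := inf_tri z aR.le
    rcases cs k hk with rfl | ⟨m, rfl⟩
    · rw [wn]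
      rcases c with _ | _ | _ | m0 <;> simp only [infR, infK, infA, t0, tj, tm] at h ⊢
      · rw [if_pos ⟨k.zero_le, hk⟩]
        exact la ((hA R aR.le).2.2.2.2.2.1 z (by linarith))
      · rw [if_neg fun h => lt_irrefl _ h.2]
        exact An z h.2
      · rw [if_pos ⟨le_rfl, hk⟩]
        exact la (((hA R aR.le).2.2.2.2.2.2 aR).1 z (by linarith [i1.1]))
      · rw [if_neg (by have := m0.2; omega)]
        exact An z (by linarith [(inf_tri z (sa m0)).1, (hB m0).2])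
    · rw [wm]
      rcases c with _ | _ | _ | m0 <;> simp only [infR, infK, infA, t0, tj, tm] at h ⊢
      · rw [if_pos ⟨Nat.zero_le _, hk⟩]
        exact Am z m (by linarith)
      · rw [if_pos ⟨Nat.zero_le _, m.2⟩]
        exact Am z m h.1
      · rw [if_neg (by have := m.2; omega), Am z m (by linarith [i1.2.1]), ← fderiv_comp_sub]
        exact lc (inf_zero h1 a z (by linarith [i1.1, i1.2.2.1]))
      · by_cases e : m = m0
        · rw [e, if_pos ⟨le_rfl, Nat.lt_succ_self _⟩]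
          exact (hδ m0 z h).1
        · rw [if_neg fun h => e (Fin.ext (by omega))]
          exact ((hδ m0 z h).2 m e).2
  · intro z hz hc
    have h : ∀ c, ¬ infR a s δ B R z c := fun c h => hc c ⟨(hz _).symm, (hR z hz c).2 h⟩
    have hu : y + ∑ c, (p c (Real.log ‖z - t' (infA j c)‖) - y) = y := by
      rw [Finset.sum_eq_zero fun c _ => sub_eq_zero.2 ((hp c).2.2.1 _ fun h' =>
        h c ((hR z hz c).1 h')), add_zero]
    have key : ∀ b, (∀ k, k < n + 1 → ‖fderiv ℝ (A (w k)) z‖ ≤ b) →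
        ‖∑ m ∈ Finset.range (n + 1), (fderiv ℝ (A (w m)) z).smulRight
          (τ.ga π m y - τ.ga π (m + 1) y)‖ ^ 2 ≤ (b * G) ^ 2 := fun b hb => by
      refine pow_le_pow_left₀ (norm_nonneg _) ((norm_sum_le _ _).trans ?_) 2
      rw [hG, Finset.mul_sum]
      refine Finset.sum_le_sum fun m hm => ?_
      rw [ContinuousLinearMap.norm_smulRight_apply]
      exact mul_le_mul_of_nonneg_right (hb m (Finset.mem_range.1 hm)) (norm_nonneg _)
    have o1 : ‖z - a‖ < 3 * (R - a) := not_le.1 (h none)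
    have o3 : (R - a) / 4 < ‖z - R‖ := not_le.1 (h (some (some none)))
    rw [hu]
    by_cases o2 : ‖z - a‖ < B
    · rw [indicator_of_mem (mem_closedBall_iff_norm.2 o2.le)]
      refine (key D fun k hk => ?_).trans (le_add_of_nonneg_right
        (indicator_nonneg (fun _ _ => sq_nonneg _) _))
      rcases cs k hk with rfl | ⟨m, rfl⟩
      · rw [wn, An z (by linarith), norm_zero]
        exact D0
      · rw [wm]
        exact hD m z o2.le (not_le.1 (h (some (some (some m))))).le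
    · have o4 : (R - a) / 4 < ‖z - a‖ := not_le.1 fun e => h (some none) ⟨not_lt.1 o2, e⟩
      rw [indicator_of_mem (mem_closedBall_iff_norm.2 o1.le)]
      refine (key (4 * M / (R - a)) fun k hk => ?_).trans (le_add_of_nonneg_left
        (indicator_nonneg (fun _ _ => sq_nonneg _) _))
      rcases cs k hk with rfl | ⟨m, rfl⟩
      · rw [wn]
        exact (((hA R aR.le).2.2.2.2.2.2 aR).2 z o1.le o3.le).trans
          (div_le_div_of_nonneg_right (by linarith) ρ0.le)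
      · rw [wm, Am z m (not_lt.1 o2)]
        have o5 : 0 < ‖z - a‖ := by linarith
        refine (h1.2.2.2.2.1 _ (norm_pos_iff.1 o5)).trans ?_
        rw [div_le_div_iff₀ o5 ρ0]
        nlinarith
  · exact fun z => add_nonneg (indicator_nonneg (fun _ _ => sq_nonneg _) _)
      (indicator_nonneg (fun _ _ => sq_nonneg _) _)

end Pool.Agent.MA2
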