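import Pool.Agent.Lib.MP_c86c76_al.An2.St

/-!
Soft facts on the cusp norm.
-/

set_option autoImplicit false

namespace Pool.Agent.MA2

lemma kap_sum (n : ℕ) : ∑ m ∈ Finset.range n, 1 / ((m : ℝ) + 1) ^ 2 ≤ 2 - 2 / ((n : ℝ) + 1) := by
  induction n with
  | zero => simp
  | succ n ih =>
    rw [Finset.sum_range_succ]
    have h : (0 : ℝ) ≤ n := n.cast_nonneg
    have : 1 / ((n : ℝ) + 1) ^ 2 ≤ 2 / (n + 1) - 2 / (n + 1 + 1) := by
      rw [div_sub_div _ _ (by positivity) (by positivity), div_le_div_iff₀ (by positivity) (by positivity)]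
      nlinarith [mul_nonneg h h]
    push_cast
    linarith

variable {H : Type} [NormedAddCommGroup H] [InnerProductSpace ℂ H]

lemma kap_norm (g : H ≃ᵃⁱ[ℂ] H) (x y : H) : ‖g x - g y‖ = ‖x - y‖ := by
  simpa only [dist_eq_norm] using g.dist_map x y

theorem kapSt : KapSt := fun H _ _ T y K h => by
  refine ⟨by simpa using h 0, by simpa using h 1, fun n => (Finset.sum_congr rfl fun m _ => ?_).trans_le (h n),
    fun y' n => ?_, fun g n => (Finset.sum_congr rfl fun m _ => ?_).trans_le (h n)⟩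
  · rw [← kap_norm (T ^ (m + 1)), inv_pow, norm_sub_rev]
    simp
  · have e : ∀ m : ℕ, ‖(T ^ (m + 1)) y' - y'‖ ^ 2 / ((m : ℝ) + 1) ^ 2 ≤
        2 * (‖(T ^ (m + 1)) y - y‖ ^ 2 / ((m : ℝ) + 1) ^ 2) + 8 * ‖y - y'‖ ^ 2 * (1 / ((m : ℝ) + 1) ^ 2) :=
      fun m => by
      have h1 := norm_sub_le_norm_sub_add_norm_sub ((T ^ (m + 1)) y') ((T ^ (m + 1)) y) y'
      have h2 := norm_sub_le_norm_sub_add_norm_sub ((T ^ (m + 1)) y) y y'
      rw [kap_norm, norm_sub_rev y' y] at h1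
      rw [← mul_div_assoc, ← mul_div_assoc, ← add_div]
      refine div_le_div_of_nonneg_right ?_ (by positivity)
      have := pow_le_pow_left₀ (norm_nonneg _) (h1.trans (add_le_add_right h2 _)) 2
      nlinarith [sq_nonneg (‖(T ^ (m + 1)) y - y‖ - 2 * ‖y - y'‖)]
    refine (Finset.sum_le_sum fun m _ => e m).trans ?_
    rw [Finset.sum_add_distrib, ← Finset.mul_sum, ← Finset.mul_sum]
    have h1 := (kap_sum n).trans (sub_le_self _ (by positivity))
    nlinarith [h n, sq_nonneg ‖y - y'‖]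
  · rw [conj_pow, ← kap_norm g ((T ^ (m + 1)) y)]
    simp

end Pool.Agent.MA2
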