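import Pool.Agent.Lib.MP_c86c76_al.An2.St

/-!
Comparison of the least energies of near configurations.
-/

set_option autoImplicit false

namespace Pool.Agent.MA2

open Complex MeasureTheory Filter Topology Set Function
open Pool.Agent.MA (cf Nr rc kk Tr bb gz DD d1 d2 en dg QQ KreinSt LioSt ChSt BdSt SegSt)

theorem lc_bb (χ : ℂ → ℝ) (z : ℂ) : ‖bb χ z‖ ≤ ‖fderiv ℝ χ z‖ := by
  have h1 := (fderiv ℝ χ z).le_opNorm 1
  have h2 := (fderiv ℝ χ z).le_opNorm I
  have h3 := norm_sub_le ((fderiv ℝ χ z 1 : ℝ) : ℂ) (I * (fderiv ℝ χ z I : ℝ))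
  rw [norm_mul, norm_I, norm_real, norm_real] at h3
  rw [norm_one] at h1
  rw [norm_I] at h2
  rw [bb, norm_div, Complex.norm_two]
  linarith

theorem lc_bump : ∃ M : ℝ, 0 < M ∧ ∀ (s : ℂ) (d : ℝ), 0 < d → ∃ χ : ℂ → ℝ, ContDiff ℝ 2 χ ∧
    HasCompactSupport χ ∧ (∀ z, ‖z - s‖ ≤ d / 4 → χ z = 1) ∧ (∀ z, d ≤ ‖z - s‖ → χ z = 0) ∧
    ∀ z, ‖bb χ z‖ ≤ M / d := by
  let f : ContDiffBump (0 : ℂ) := ⟨1 / 4, 1, by norm_num, by norm_num⟩
  have hf : ContDiff ℝ 2 f := f.contDiff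
  obtain ⟨C, hC⟩ := (hf.continuous_fderiv two_ne_zero).bounded_above_of_compact_support
    (f.hasCompactSupport.fderiv ℝ)
  refine ⟨|C| + 1, by positivity, fun s d hd => ?_⟩
  have hn : ∀ z, ‖d⁻¹ • (z - s)‖ = ‖z - s‖ / d := fun z => by
    rw [norm_smul, norm_inv, Real.norm_of_nonneg hd.le, div_eq_inv_mul]
  have h0 : ∀ z, d ≤ ‖z - s‖ → f (d⁻¹ • (z - s)) = 0 := fun z h =>
    f.zero_of_le_dist (by rw [dist_zero_right, hn]; exact (one_le_div hd).2 h)
  refine ⟨fun z => f (d⁻¹ • (z - s)), hf.comp (by fun_prop),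
    .intro (isCompact_closedBall s d) fun z h => h0 z (not_le.1 (mt mem_closedBall_iff_norm.2 h)).le,
    fun z h => f.one_of_mem_closedBall ?_, h0, fun z => (lc_bb _ z).trans ?_⟩
  · rw [mem_closedBall_zero_iff, hn, div_le_iff₀ hd]
    change _ ≤ 1 / 4 * d
    linarith
  · have := ((hf.differentiable two_ne_zero _).hasFDerivAt.comp z
      (((hasFDerivAt_id z).sub_const s).const_smul d⁻¹)).fderiv
    refine (congrArg norm this).trans_le ((ContinuousLinearMap.opNorm_comp_le _ _).trans ?_)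
    rw [norm_smul, norm_inv, Real.norm_of_nonneg hd.le, ContinuousLinearMap.norm_id, mul_one,
      div_eq_mul_inv]
    gcongr
    exact ((hC _).trans (le_abs_self C)).trans (lt_add_one _).le

theorem lcSt (hB : BasSt) (hP : PulSt) : LcSt := by
  intro κ h0 h1
  obtain ⟨M, hM, hχ⟩ := lc_bump
  refine ⟨min (1 / 4) (κ / (2 * M)), by positivity, fun H _ _ _ n τ T j s s' d hT hd hs hs' => ?_⟩
  obtain ⟨χ, c1, c2, c3, c4, c5⟩ := hχ s d hd
  have inj : ∀ a, ‖a - s‖ ≤ d / 4 → Injective (update T j a) := fun a ha i k h => by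
    have : ∀ i, i ≠ j → a ≠ T i := fun i hi e => by
      have := hs i hi
      rw [← e, norm_sub_rev] at this
      linarith
    by_cases hi : i = j <;> by_cases hk : k = j
    · rw [hi, hk]
    · exact absurd (by simpa [hi, hk] using h) (this k hk)
    · exact absurd (by simpa [hi, hk] using h.symm) (this i hi)
    · exact hT (by simpa [hi, hk] using h)
  have key : ∀ a b, ‖a - s‖ ≤ d / 4 → ‖b - a‖ ≤ κ / (2 * M) * d → ∀ U, IsSec τ (update T j b) U →
      Ne τ (update T j a) ∧ (1 - κ) * EE τ (update T j a) ≤ (1 + κ) * en τ (update T j b) U := by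
    intro a b ha hb U hU
    have e : update T j b = fun i => update T j a i + (b - a) * χ (update T j a i) := by
      funext i
      rcases eq_or_ne i j with rfl | h
      · simp [c3 a ha]
      · simp [h, c4 (T i) (norm_sub_rev s _ ▸ hs i h)]
    rw [e] at hU ⊢
    obtain ⟨V, hV, h, -⟩ := hP H n τ _ χ (b - a) κ (inj a ha) c1 c2 h1 (fun z =>
      calc _ ≤ 2 * (κ / (2 * M) * d) * (M / d) := by gcongr; exact c5 z
        _ = κ := by field_simp) U hU
    exact ⟨⟨V, hV⟩, (mul_le_mul_of_nonneg_left ((hB H n τ _ (inj a ha)).2.2.2.2.2.2.2 V hV)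
      (sub_pos.2 h1).le).trans h⟩
  have a0 : ‖s - s‖ ≤ d / 4 := by rw [sub_self, norm_zero]; positivity
  have a1 : ‖s' - s‖ ≤ d / 4 := hs'.trans
    ((mul_le_mul_of_nonneg_right (min_le_left _ _) hd.le).trans_eq (by ring))
  have a2 : ‖s' - s‖ ≤ κ / (2 * M) * d := hs'.trans (by gcongr; exact min_le_right _ _)
  have k1 := key s s' a0 a2
  have k2 := key s' s a1 (norm_sub_rev s s' ▸ a2)
  have hN : Ne τ (update T j s) ↔ Ne τ (update T j s') :=
    ⟨fun ⟨U, h⟩ => (k2 U h).1, fun ⟨U, h⟩ => (k1 U h).1⟩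
  have fin : ∀ A B : Fin n → ℂ, (Ne τ A ↔ Ne τ B) →
      (∀ U, IsSec τ B U → Ne τ A ∧ (1 - κ) * EE τ A ≤ (1 + κ) * en τ B U) →
      (1 - κ) * EE τ A ≤ (1 + κ) * EE τ B := fun A B h k => by
    by_cases e : Ne τ B
    · rw [← div_le_iff₀' (by positivity)]
      refine le_csInf (Set.Nonempty.image _ e) ?_
      rintro _ ⟨U, hU, rfl⟩
      exact (div_le_iff₀' (by positivity)).2 (k U hU).2
    · rw [EE, EE, (not_nonempty_iff_eq_empty (s := {U | IsSec τ B U})).1 e,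
        (not_nonempty_iff_eq_empty (s := {U | IsSec τ A U})).1 (mt h.1 e)]
      simp
  exact ⟨hN, fin _ _ hN k1, fin _ _ hN.symm k2⟩

end Pool.Agent.MA2
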