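import Pool.Agent.Lib.MP_c86c76_al.An2.St

/-!
Profiles of necks.
-/

set_option autoImplicit false

namespace Pool.Agent.MA2

open Complex MeasureTheory Filter Topology Set Function

variable {H : Type} [NormedAddCommGroup H] [InnerProductSpace ℂ H]

theorem neck_nonneg (T : H ≃ᵃⁱ[ℂ] H) (p : ℝ → H) (s : ℝ) : 0 ≤ pe T p s := by
  rw [pe]; positivity

theorem neck_cont (T : H ≃ᵃⁱ[ℂ] H) {p : ℝ → H} (hp : ContDiff ℝ 2 p) : Continuous (pe T p) :=
  ((hp.continuous_deriv one_le_two).norm.pow 2).add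
    (((T.continuous.comp hp.continuous).sub hp.continuous).norm.pow 2)

theorem neck_mono (T : H ≃ᵃⁱ[ℂ] H) {p : ℝ → H} {I J : Set ℝ} (h : I ⊆ J)
    (hi : IntegrableOn (pe T p) J) : ∫ s in I, pe T p s ≤ ∫ s in J, pe T p s :=
  setIntegral_mono_set hi (Eventually.of_forall (neck_nonneg T p)) h.eventuallyLE

theorem neck_cs [CompleteSpace H] (T : H ≃ᵃⁱ[ℂ] H) {p : ℝ → H} (hp : ContDiff ℝ 2 p) {a b L : ℝ}
    {J : Set ℝ} (hab : a ≤ b) (hL : b - a ≤ L) (h0 : 0 < L) (hJ : Icc a b ⊆ J)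
    (hi : IntegrableOn (pe T p) J) : ‖p b - p a‖ ^ 2 ≤ L * ∫ s in J, pe T p s := by
  have hc := hp.continuous_deriv one_le_two
  have h1 : ‖p b - p a‖ ≤ ∫ s in a..b, ‖deriv p s‖ := by
    rw [← intervalIntegral.integral_deriv_eq_sub (fun x _ => hp.differentiable two_ne_zero x)
      (hc.intervalIntegrable a b)]
    exact intervalIntegral.norm_integral_le_integral_norm hab
  obtain ⟨m, hm⟩ : ∃ m, m = ‖p b - p a‖ := ⟨_, rfl⟩
  have m0 : 0 ≤ m := hm ▸ norm_nonneg _
  have h2 : ∫ s in a..b, 2 * L * m * ‖deriv p s‖ ≤ ∫ s in a..b, (L ^ 2 * pe T p s + m ^ 2) :=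
    intervalIntegral.integral_mono_on hab ((continuous_const.mul hc.norm).intervalIntegrable a b)
      (((continuous_const.mul (neck_cont T hp)).add continuous_const).intervalIntegrable a b)
      fun s _ => by
        rw [pe]
        nlinarith [sq_nonneg (L * ‖deriv p s‖ - m), sq_nonneg (L * ‖T (p s) - p s‖)]
  rw [intervalIntegral.integral_add (((neck_cont T hp).intervalIntegrable a b).const_mul _)
    intervalIntegrable_const, intervalIntegral.integral_const_mul,
    intervalIntegral.integral_const_mul, intervalIntegral.integral_const, smul_eq_mul,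
    intervalIntegral.integral_of_le hab (f := pe T p)] at h2
  have h3 := neck_mono T (Ioc_subset_Icc_self.trans hJ) hi
  rw [← hm] at h1 ⊢
  refine le_of_mul_le_mul_left ?_ h0
  nlinarith [mul_le_mul_of_nonneg_left h1 (by positivity : 0 ≤ 2 * L * m),
    mul_le_mul_of_nonneg_left h3 (sq_nonneg L), mul_le_mul_of_nonneg_right hL (sq_nonneg m)]

omit [InnerProductSpace ℂ H] in
theorem neck_three (u v w : H) : ‖u + v + w‖ ^ 2 ≤ 3 * (‖u‖ ^ 2 + ‖v‖ ^ 2 + ‖w‖ ^ 2) := by
  have h := pow_le_pow_left₀ (norm_nonneg _) (norm_add₃_le (a := u) (b := v) (c := w)) 2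
  nlinarith [sq_nonneg (‖u‖ - ‖v‖), sq_nonneg (‖u‖ - ‖w‖), sq_nonneg (‖v‖ - ‖w‖)]

theorem neck_smul {c : ℝ} (h0 : 0 ≤ c) (h1 : c ≤ 1) (v : H) : ‖c • v‖ ^ 2 ≤ ‖v‖ ^ 2 := by
  rw [norm_smul, Real.norm_of_nonneg h0]
  exact pow_le_pow_left₀ (by positivity) (mul_le_of_le_one_left (norm_nonneg _) h1) 2

theorem neck_pt (T : H ≃ᵃⁱ[ℂ] H) {p q : ℝ → H} {η : ℝ → ℝ} {s : ℝ} (hp : DifferentiableAt ℝ p s)
    (hq : DifferentiableAt ℝ q s) (hη : DifferentiableAt ℝ η s) (h0 : 0 ≤ η s) (h1 : η s ≤ 1) :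
    pe T (fun s => p s + η s • (q s - p s)) s ≤
      3 * pe T p s + 3 * pe T q s + 3 * (‖deriv η s‖ ^ 2 * ‖q s - p s‖ ^ 2) := by
  have d := (hp.hasDerivAt.fun_add
    (hη.hasDerivAt.fun_smul (hq.hasDerivAt.fun_sub hp.hasDerivAt))).deriv
  have e1 : deriv p s + (η s • (deriv q s - deriv p s) + deriv η s • (q s - p s)) =
      (1 - η s) • deriv p s + η s • deriv q s + deriv η s • (q s - p s) := by module
  have e2 : T (p s + η s • (q s - p s)) - (p s + η s • (q s - p s)) =
      (1 - η s) • (T (p s) - p s) + η s • (T (q s) - q s) + 0 := by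
    rw [add_comm (p s) _, ← vadd_eq_add (_ • _) (p s), T.map_vadd, ← Complex.coe_smul, map_smul,
      ← vsub_eq_sub (q s), T.map_vsub, Complex.coe_smul, Complex.coe_smul]
    simp only [vadd_eq_add, vsub_eq_sub]
    module
  have a1 := neck_three ((1 - η s) • deriv p s) (η s • deriv q s) (deriv η s • (q s - p s))
  have a2 := neck_three ((1 - η s) • (T (p s) - p s)) (η s • (T (q s) - q s)) 0
  have b1 := neck_smul (sub_nonneg.2 h1) (sub_le_self 1 h0) (deriv p s)
  have b2 := neck_smul h0 h1 (deriv q s)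
  have b3 := neck_smul (sub_nonneg.2 h1) (sub_le_self 1 h0) (T (p s) - p s)
  have b4 := neck_smul h0 h1 (T (q s) - q s)
  rw [norm_smul (deriv η s), mul_pow] at a1
  rw [norm_zero] at a2
  rw [pe, pe, pe, d, e1, e2]
  linarith

theorem neckSt (hP : PathSt) (hK : KapSt) : NeckSt := by
  obtain ⟨C, c0, hP⟩ := hP
  have hS : ContDiff ℝ 2 Real.smoothTransition := Real.smoothTransition.contDiff
  obtain ⟨M, hM⟩ := isCompact_Icc.exists_bound_of_continuousOn (s := Icc (0 : ℝ) 1)
    (hS.continuous_deriv one_le_two).continuousOn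
  refine ⟨3 * C + 9 * M ^ 2 * C + 9 * M ^ 2, by positivity,
    fun H _ _ _ T y y' K K' s0 s1 k k' hs => ?_⟩
  obtain ⟨p, p1, p2, p3, p4⟩ := (hP H T y K s0 k).1
  obtain ⟨q, q1, q2, q3, q4⟩ := (hP H T y' K' s1 k').2
  have k0 := (hK H T y K k).1
  have k0' := (hK H T y' K' k').1
  obtain ⟨L, hL⟩ : ∃ L, L = s1 - s0 := ⟨_, rfl⟩
  have l0 : 0 < L := by linarith
  have hl : ContDiff ℝ 2 fun s : ℝ => (s - s0) / L := (contDiff_id.sub contDiff_const).div_const L
  have hη : ContDiff ℝ 2 fun s : ℝ => Real.smoothTransition ((s - s0) / L) := hS.comp hl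
  have hc : ContDiff ℝ 2 fun s => p s + Real.smoothTransition ((s - s0) / L) • (q s - p s) :=
    p1.add (hη.smul (q1.sub p1))
  refine ⟨_, hc, fun s h => ?_, fun s h => ?_, (neck_cont T hc).integrableOn_Icc, ?_⟩
  · simp only [Real.smoothTransition.zero_of_nonpos
      (div_nonpos_of_nonpos_of_nonneg (sub_nonpos.2 h) l0.le), zero_smul, add_zero, p2 s h]
  · simp only [Real.smoothTransition.one_of_one_le ((one_le_div l0).2 (show L ≤ s - s0 by linarith)),
      one_smul, add_sub_cancel, q2 s h]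
  obtain ⟨D, hD⟩ : ∃ D, D = ‖y - y'‖ ^ 2 / L := ⟨_, rfl⟩
  have d0 : 0 ≤ D := by rw [hD]; positivity
  have h1 : ∀ s ∈ Icc s0 s1, pe T (fun s => p s + Real.smoothTransition ((s - s0) / L) •
      (q s - p s)) s ≤ 3 * pe T p s + 3 * pe T q s + 9 * M ^ 2 * (C * K + C * K' + D) / L := by
    intro s h
    refine (neck_pt T (p1.differentiable two_ne_zero s) (q1.differentiable two_ne_zero s)
      (hη.differentiable two_ne_zero s) (Real.smoothTransition.nonneg _)
      (Real.smoothTransition.le_one _)).trans (add_le_add_right ?_ _)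
    have d1 : HasDerivAt (fun s : ℝ => Real.smoothTransition ((s - s0) / L)) _ s :=
      (hS.differentiable two_ne_zero _).hasDerivAt.comp s
        (((hasDerivAt_id s).sub_const s0).div_const L)
    have d2 := hM ((s - s0) / L) ⟨div_nonneg (sub_nonneg.2 h.1) l0.le,
      (div_le_one l0).2 (by linarith [h.2])⟩
    have d3 : ‖deriv (fun s : ℝ => Real.smoothTransition ((s - s0) / L)) s‖ ^ 2 ≤ (M / L) ^ 2 := by
      refine pow_le_pow_left₀ (norm_nonneg _) ?_ 2
      rw [d1.deriv, norm_mul, Real.norm_of_nonneg (one_div_pos.2 l0).le, mul_one_div]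
      exact div_le_div_of_nonneg_right d2 l0.le
    have e1 := neck_cs T p1 h.1 (L := L) (by linarith [h.2]) l0 Icc_subset_Ici_self p3
    have e2 := neck_cs T q1 h.2 (L := L) (by linarith [h.1]) l0 Icc_subset_Iic_self q3
    rw [p2 s0 le_rfl, norm_sub_rev] at e1
    rw [q2 s1 le_rfl, norm_sub_rev] at e2
    have e3 := neck_three (q s - y') (y' - y) (y - p s)
    rw [sub_add_sub_cancel, sub_add_sub_cancel, norm_sub_rev y' y,
      show ‖y - y'‖ ^ 2 = L * D by rw [hD]; field_simp] at e3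
    have e4 : ‖q s - p s‖ ^ 2 ≤ 3 * (L * (C * K + C * K' + D)) := by
      nlinarith [mul_le_mul_of_nonneg_left p4 l0.le, mul_le_mul_of_nonneg_left q4 l0.le]
    calc _ ≤ 3 * ((M / L) ^ 2 * (3 * (L * (C * K + C * K' + D)))) := by gcongr
      _ = _ := by field_simp; ring
  have i1 : IntegrableOn (fun s => 3 * pe T p s) (Icc s0 s1) :=
    (continuous_const.mul (neck_cont T p1)).integrableOn_Icc
  have i2 : IntegrableOn (fun s => 3 * pe T q s) (Icc s0 s1) :=
    (continuous_const.mul (neck_cont T q1)).integrableOn_Icc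
  have i3 : IntegrableOn (fun _ : ℝ => 9 * M ^ 2 * (C * K + C * K' + D) / L) (Icc s0 s1) :=
    continuous_const.integrableOn_Icc
  refine (setIntegral_mono_on (neck_cont T hc).integrableOn_Icc ((i1.add i2).add i3)
    measurableSet_Icc h1).trans ?_
  have h2 := neck_mono T (I := Icc s0 s1) Icc_subset_Ici_self p3
  have h3 := neck_mono T (I := Icc s0 s1) Icc_subset_Iic_self q3
  simp only [Pi.add_apply]
  rw [integral_add (f := fun s => 3 * pe T p s + 3 * pe T q s) (i1.add i2) i3, integral_add i1 i2,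
    integral_const_mul, integral_const_mul,
    setIntegral_const, Real.volume_real_Icc_of_le (by linarith), smul_eq_mul, ← hL, ← hD,
    mul_div_cancel₀ _ l0.ne']
  nlinarith [mul_nonneg c0 d0, mul_nonneg (mul_nonneg (sq_nonneg M) c0) d0,
    mul_nonneg (sq_nonneg M) k0, mul_nonneg (sq_nonneg M) k0']

end Pool.Agent.MA2
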