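import Pool.Agent.Lib.MP_c86c76_al.An2.St

/-!
The pull back of a section under a small deformation of the plane.
-/

set_option autoImplicit false

namespace Pool.Agent.MA2

open Complex MeasureTheory Filter Topology Set Function
open Pool.Agent.MA (cf Nr rc kk Tr bb gz DD d1 d2 en dg QQ KreinSt LioSt ChSt BdSt SegSt)

lemma pb_lin {E : Type} [NormedAddCommGroup E] [NormedSpace ℝ E] (D : ℂ →L[ℝ] E) (v : ℂ) :
    D v = v.re • D 1 + v.im • D I := by
  rw [← map_smul, ← map_smul, ← map_add]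
  congr 1
  simp

lemma pb_norm (χ : ℂ → ℝ) (z : ℂ) : ‖fderiv ℝ χ z‖ ≤ 2 * ‖bb χ z‖ := by
  refine ContinuousLinearMap.opNorm_le_bound _ (by positivity) fun v => ?_
  have h : fderiv ℝ χ z v = 2 * (bb χ z * v).re := by
    rw [pb_lin]; simp [bb]; ring
  rw [h, norm_mul, Real.norm_two, mul_assoc, ← norm_mul]
  exact mul_le_mul_of_nonneg_left (abs_re_le_norm _) zero_le_two

lemma pb_lip {χ : ℂ → ℝ} {s : ℂ} {κ : ℝ} (hχ : Differentiable ℝ χ)
    (h : ∀ z, 2 * ‖s‖ * ‖bb χ z‖ ≤ κ) (z w : ℂ) :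
    ‖(z + s * χ z - (w + s * χ w)) - (z - w)‖ ≤ κ * ‖z - w‖ := by
  have h1 := convex_univ.norm_image_sub_le_of_norm_hasFDerivWithin_le (𝕜 := ℝ)
    (f := fun z => ‖s‖ • χ z) (f' := fun z => ‖s‖ • fderiv ℝ χ z) (C := κ)
    (fun z _ => ((hχ z).hasFDerivAt.const_smul ‖s‖).hasFDerivWithinAt)
    (fun z _ => by
      rw [norm_smul, norm_norm]
      have := mul_le_mul_of_nonneg_left (pb_norm χ z) (norm_nonneg s)
      have := h z
      linarith) (mem_univ w) (mem_univ z)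
  have e : (z + s * χ z - (w + s * χ w)) - (z - w) = s * ((χ z - χ w : ℝ) : ℂ) := by
    push_cast; ring
  rwa [← smul_sub, norm_smul, norm_norm, ← norm_real, ← norm_mul, ← e] at h1

lemma pb_ev {ι : Type} [Finite ι] {p q : ℂ → ι → ℂ} {z0 : ℂ} (hp : ∀ i, Continuous (p · i))
    (hq : ∀ i, Continuous (q · i)) (h : Nr (p z0) (q z0)) : ∀ᶠ z in 𝓝 z0, Nr (p z) (q z) := by
  refine eventually_all.2 fun i => eventually_all.2 fun j => eventually_imp_distrib_left.2 fun e => ?_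
  exact ContinuousAt.eventually_lt
    ((((hq j).sub (hq i)).sub ((hp j).sub (hp i))).norm.continuousAt)
    (((hp j).sub (hp i)).norm.continuousAt) (h i j e)

lemma pb_self {ι : Type} {p : ι → ℂ} (h : Injective p) : Nr p p := fun i j e => by
  rw [sub_self, norm_zero, norm_pos_iff, sub_ne_zero]
  exact fun e' => e (h e').symm

lemma pb_inj {n : ℕ} {T : Fin n → ℂ} (hT : Injective T) {z : ℂ} (hz : ∀ i, T i ≠ z) :
    Injective (cf z T) := by
  rintro (_ | i) (_ | j) e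
  · rfl
  · exact absurd e.symm (hz j)
  · exact absurd e (hz i)
  · exact congrArg some (hT e)

lemma pb_cont {n : ℕ} (T : Fin n → ℂ) {f : ℂ → ℂ} (hf : Continuous f) (i : Option (Fin n)) :
    Continuous fun z => cf (f z) T i := by
  cases i
  exacts [hf, continuous_const]

variable {H : Type} [NormedAddCommGroup H] [InnerProductSpace ℂ H]

lemma pb_aff (g : H ≃ᵃⁱ[ℂ] H) : (g : H → H) = fun x => g.linearIsometryEquiv x + g 0 :=
  funext fun x => by simpa using g.map_vadd 0 x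

lemma pb_der (g : H ≃ᵃⁱ[ℂ] H) (x : H) : HasFDerivAt g
    ((g.linearIsometryEquiv.toContinuousLinearEquiv : H →L[ℂ] H).restrictScalars ℝ) x := by
  rw [pb_aff]
  exact (ContinuousLinearMap.hasFDerivAt
    ((g.linearIsometryEquiv.toContinuousLinearEquiv : H →L[ℂ] H).restrictScalars ℝ)).add_const _

lemma pb_smooth (g : H ≃ᵃⁱ[ℂ] H) : ContDiff ℝ 2 g := by
  rw [pb_aff]
  exact (ContinuousLinearMap.contDiff
    ((g.linearIsometryEquiv.toContinuousLinearEquiv : H →L[ℂ] H).restrictScalars ℝ)).add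
      contDiff_const

lemma pb_split (D : ℂ →L[ℝ] H) (v : ℂ) :
    D v = (v / 2) • (D 1 - I • D I) + (starRingEnd ℂ v / 2) • (D 1 + I • D I) := by
  rw [pb_lin D v, ← coe_smul, ← coe_smul]
  match_scalars
  all_goals
    apply Complex.ext <;> simp
    ring

lemma pb_gauge {n : ℕ} (τ : Tr n (H ≃ᵃⁱ[ℂ] H)) {T : Fin n → ℂ} {φ : ℂ → ℂ} (hT : Injective T)
    (hc : Continuous φ) (hi : Injective φ)
    (hφ : ∀ z w, z ≠ w → ‖(φ z - φ w) - (z - w)‖ < ‖z - w‖) (U : ℂ → H) {z0 : ℂ}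
    (hz : ∀ i, T i ≠ z0) :
    gz τ T (fun z => (τ.c (cf z T) (cf (φ z) fun i => φ (T i)))⁻¹ (U (φ z))) z0 =ᶠ[𝓝 z0]
      fun z => (τ.c (cf z0 T) (cf (φ z0) fun i => φ (T i)))⁻¹
        (gz τ (fun i => φ (T i)) U (φ z0) (φ z)) := by
  have i0 := pb_inj hT hz
  have i1 := pb_inj (hi.comp hT) (z := φ z0) fun i e => hz i (hi e)
  have n0 : Nr (cf z0 T) (cf (φ z0) fun i => φ (T i)) := fun i j e => by
    have e1 : ∀ k, cf (φ z0) (fun i => φ (T i)) k = φ (cf z0 T k) := fun k => by cases k <;> rfl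
    rw [e1, e1]
    exact hφ _ _ fun e' => e (i0 e').symm
  have cP := pb_cont T continuous_id
  have cQ := pb_cont (fun i => φ (T i)) hc
  filter_upwards [pb_ev (p := fun _ => cf z0 T) (fun _ => continuous_const) cP (pb_self i0),
    pb_ev (p := fun _ => cf z0 T) (fun _ => continuous_const) cQ n0, pb_ev cP cQ n0,
    pb_ev (p := fun _ => cf (φ z0) fun i => φ (T i)) (fun _ => continuous_const) cQ (pb_self i1)]
    with z h1 h2 h3 h4
  have e := (τ.co _ _ _ h1 h2 h3).symm.trans (τ.co _ _ _ n0 h2 h4)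
  have e' := congrArg (fun g : H ≃ᵃⁱ[ℂ] H => g⁻¹ (U (φ z))) e
  simp only [mul_inv_rev, AffineIsometryEquiv.coe_mul, comp_apply] at e'
  exact e'

theorem pbSt (_hB : BasSt) (hM : MeaSt) (hC : ChSt) : PbSt := by
  intro H _ _ _ n τ T χ s κ hT hχ _ hκ hs
  have hd : Differentiable ℝ χ := hχ.differentiable two_ne_zero
  have hl := pb_lip hd hs
  set φ : ℂ → ℂ := fun z => z + s * χ z with hφ
  have h1 : ∀ z w, z ≠ w → ‖(φ z - φ w) - (z - w)‖ < ‖z - w‖ := fun z w e =>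
    (hl z w).trans_lt (mul_lt_of_lt_one_left (norm_pos_iff.2 (sub_ne_zero.2 e)) hκ)
  have hi : Injective φ := fun z w e => by_contra fun e' => by
    have := h1 z w e'
    rw [e, sub_self, zero_sub, norm_neg] at this
    exact lt_irrefl _ this
  have h2 : ContDiff ℝ 2 φ := contDiff_id.add (contDiff_const.mul (ofRealCLM.contDiff.comp hχ))
  refine ⟨hi, fun U hU => ?_⟩
  have hs' : IsSm τ T fun z => (τ.c (cf z T) (cf (φ z) fun i => φ (T i)))⁻¹ (U (φ z)) :=
    fun z0 hz => ((pb_smooth _).contDiffAt.comp z0 ((hU.1 (φ z0) fun i e => hz i (hi e)).comp z0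
      h2.contDiffAt)).congr_of_eventuallyEq (pb_gauge τ hT h2.continuous hi h1 U hz)
  have h6 : ∀ z0, (∀ i, T i ≠ z0) → ∀ v,
      DD τ T (fun z => (τ.c (cf z T) (cf (φ z) fun i => φ (T i)))⁻¹ (U (φ z))) z0 v =
        (τ.c (cf z0 T) (cf (φ z0) fun i => φ (T i)))⁻¹.linearIsometryEquiv
          (DD τ (fun i => φ (T i)) U (φ z0) (v + s * (fderiv ℝ χ z0 v : ℝ))) := fun z0 hz v => by
    have h3 := ((hU.1 (φ z0) fun i e => hz i (hi e)).differentiableAt two_ne_zero).hasFDerivAt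
    have h4 : HasFDerivAt φ _ z0 := (hasFDerivAt_id z0).add
      ((ofRealCLM.hasFDerivAt.comp z0 (hd z0).hasFDerivAt).const_mul s)
    have h5 := (((pb_der (τ.c (cf z0 T) (cf (φ z0) fun i => φ (T i)))⁻¹ _).comp z0
      (h3.comp z0 h4)).congr_of_eventuallyEq (pb_gauge τ hT h2.continuous hi h1 U hz)).fderiv
    rw [DD, h5]; rfl
  refine ⟨fun z => (τ.c (cf z T) (cf (φ z) fun i => φ (T i)))⁻¹ (U (φ z)),
    fun z => (τ.c (cf z T) (cf (φ z) fun i => φ (T i)))⁻¹.linearIsometryEquiv,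
    ⟨hs', ?_⟩, fun z0 hz => ?_⟩
  · have hk0 : 0 ≤ κ := le_trans (by positivity) (hs 0)
    have hk1 : 0 < 1 - κ := sub_pos.2 hκ
    obtain ⟨c1, -⟩ := hC χ s κ (fun z => ‖DD τ (fun i => φ (T i)) U z‖ ^ 2) hχ hκ hs hi
      (fun z => by positivity) hU.2
    refine (c1.const_mul (4 / (1 - κ) ^ 2)).mono' ((hM H n τ T _ hT hs').norm.pow 2) ?_
    have hae : ∀ᵐ z : ℂ, ∀ i, T i ≠ z := by
      rw [ae_all_iff]
      intro i
      rw [ae_iff]
      simp only [ne_eq, not_not]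
      exact measure_mono_null (fun z (hz : T i = z) => (hz.symm : z ∈ ({T i} : Set ℂ)))
        (measure_singleton _)
    filter_upwards [hae] with z hz
    set D := DD τ (fun i => φ (T i)) U (φ z)
    have e1 : ‖DD τ T (fun z => (τ.c (cf z T) (cf (φ z) fun i => φ (T i)))⁻¹ (U (φ z))) z‖ ≤
        2 * ‖D‖ := by
      refine ContinuousLinearMap.opNorm_le_bound _ (by positivity) fun v => ?_
      rw [h6 z hz v, LinearIsometryEquiv.norm_map]
      have a1 : ‖s * (fderiv ℝ χ z v : ℝ)‖ ≤ κ * ‖v‖ := by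
        rw [norm_mul, norm_real]
        have := ((fderiv ℝ χ z).le_opNorm v).trans
          (mul_le_mul_of_nonneg_right (pb_norm χ z) (norm_nonneg v))
        have := mul_le_mul_of_nonneg_left this (norm_nonneg s)
        have := mul_le_mul_of_nonneg_right (hs z) (norm_nonneg v)
        linarith
      have a2 : ‖v + s * (fderiv ℝ χ z v : ℝ)‖ ≤ 2 * ‖v‖ := by
        have := norm_add_le v (s * (fderiv ℝ χ z v : ℝ))
        have := mul_le_mul_of_nonneg_right hκ.le (norm_nonneg v)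
        linarith
      calc _ ≤ ‖D‖ * ‖v + s * (fderiv ℝ χ z v : ℝ)‖ := D.le_opNorm _
        _ ≤ ‖D‖ * (2 * ‖v‖) := mul_le_mul_of_nonneg_left a2 (norm_nonneg _)
        _ = 2 * ‖D‖ * ‖v‖ := by ring
    have e2 : (1 - κ) ^ 2 ≤ ‖1 + s * bb χ z‖ ^ 2 - ‖s * bb χ z‖ ^ 2 := by
      have b1 : 2 * ‖s * bb χ z‖ ≤ κ := by rw [norm_mul, ← mul_assoc]; exact hs z
      have b2 : 1 - ‖s * bb χ z‖ ≤ ‖1 + s * bb χ z‖ := by
        have := norm_sub_norm_le (1 : ℂ) (-(s * bb χ z))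
        rwa [norm_one, norm_neg, sub_neg_eq_add] at this
      have b3 := norm_nonneg (s * bb χ z)
      nlinarith
    rw [Real.norm_of_nonneg (by positivity), ← mul_assoc]
    have e3 : 4 ≤ 4 / (1 - κ) ^ 2 * (‖1 + s * bb χ z‖ ^ 2 - ‖s * bb χ z‖ ^ 2) := by
      rw [div_mul_eq_mul_div, le_div_iff₀ (by positivity)]
      linarith
    calc _ ≤ (2 * ‖D‖) ^ 2 := pow_le_pow_left₀ (norm_nonneg _) e1 2
      _ = 4 * ‖D‖ ^ 2 := by ring
      _ ≤ _ := mul_le_mul_of_nonneg_right e3 (by positivity)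
  · have h6 := h6 z0 hz
    have h7 := fun v => pb_split (DD τ (fun i => φ (T i)) U (φ z0)) v
    change ∀ v, _ = (v / 2) • d1 τ (fun i => φ (T i)) U (φ z0) +
      (starRingEnd ℂ v / 2) • d2 τ (fun i => φ (T i)) U (φ z0) at h7
    constructor
    · rw [d1, h6, h6, ← map_smul, ← map_sub, h7, h7]
      congr 1
      match_scalars
      · rw [bb]; linear_combination (-1 / 2 : ℂ) * I_mul_I
      · simp only [bb, map_add, map_mul, map_one, conj_ofReal, conj_I]
        linear_combination (1 / 2 : ℂ) * I_mul_I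
    · rw [d2, h6, h6, ← map_smul, ← map_add, h7, h7]
      congr 1
      match_scalars
      · simp only [bb, map_div₀, map_sub, map_mul, conj_ofReal, conj_I, map_ofNat]
        linear_combination (1 / 2 : ℂ) * I_mul_I
      · simp only [bb, map_add, map_one, map_div₀, map_sub, map_mul, conj_ofReal, conj_I, map_ofNat]
        linear_combination (-1 / 2 : ℂ) * I_mul_I

end Pool.Agent.MA2
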