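import Pool.Agent.Lib.MP_c86c76_al.An2.St

/-!
The pull back of a section, integrated.
-/

set_option autoImplicit false

namespace Pool.Agent.MA2

open Complex MeasureTheory Filter Topology Set Function
open Pool.Agent.MA (cf Nr rc kk Tr bb gz DD d1 d2 en dg QQ KreinSt LioSt ChSt BdSt SegSt)
open scoped InnerProductSpace

section
variable {H : Type} [NormedAddCommGroup H] [InnerProductSpace ℂ H]

theorem pul_one {κ : ℝ} {p q : ℂ} (hκ : κ < 1) (hq : 2 * ‖q‖ ≤ κ) (hp : 1 - ‖q‖ ≤ ‖p‖) (A B : H) :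
    (1 - κ) * (‖p • A + starRingEnd ℂ q • B‖ ^ 2 + ‖q • A + starRingEnd ℂ p • B‖ ^ 2) ≤
      (1 + κ) * ((‖p‖ ^ 2 - ‖q‖ ^ 2) * (‖A‖ ^ 2 + ‖B‖ ^ 2)) := by
  have h1 : ‖p • A + starRingEnd ℂ q • B‖ ≤ ‖p‖ * ‖A‖ + ‖q‖ * ‖B‖ := by
    simpa [norm_smul] using norm_add_le (p • A) (starRingEnd ℂ q • B)
  have h2 : ‖q • A + starRingEnd ℂ p • B‖ ≤ ‖q‖ * ‖A‖ + ‖p‖ * ‖B‖ := by
    simpa [norm_smul] using norm_add_le (q • A) (starRingEnd ℂ p • B)
  have h3 := pow_le_pow_left₀ (norm_nonneg _) h1 2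
  have h4 := pow_le_pow_left₀ (norm_nonneg _) h2 2
  have p0 := norm_nonneg p
  have q0 := norm_nonneg q
  generalize ‖p • A + starRingEnd ℂ q • B‖ ^ 2 = x at *
  generalize ‖q • A + starRingEnd ℂ p • B‖ ^ 2 = y at *
  generalize ‖p‖ = P at *
  generalize ‖q‖ = Q at *
  generalize ‖A‖ = a at *
  generalize ‖B‖ = b at *
  have h5 : x + y ≤ (P + Q) ^ 2 * (a ^ 2 + b ^ 2) := by
    nlinarith [mul_nonneg (mul_nonneg p0 q0) (sq_nonneg (a - b))]
  have h6 : Q ≤ κ * P := by nlinarith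
  have h7 : 0 ≤ (κ * P - Q) * ((P + Q) * (a ^ 2 + b ^ 2)) :=
    mul_nonneg (sub_nonneg.2 h6) (by positivity)
  have h8 := mul_le_mul_of_nonneg_left h5 (sub_pos.2 hκ).le
  nlinarith

theorem pul_two {p q : ℂ} (hJ : 0 ≤ ‖p‖ ^ 2 - ‖q‖ ^ 2) (R : H ≃ₗᵢ[ℂ] H) (A B f : H) :
    4 * (⟪R (p • A + starRingEnd ℂ q • B), p • f⟫_ℂ -
        ⟪R (q • A + starRingEnd ℂ p • B), q • f⟫_ℂ).re - 2 * (‖p • f‖ ^ 2 - ‖q • f‖ ^ 2) -
      (‖R (p • A + starRingEnd ℂ q • B)‖ ^ 2 - ‖R (q • A + starRingEnd ℂ p • B)‖ ^ 2) ≤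
      (‖p‖ ^ 2 - ‖q‖ ^ 2) * (‖A‖ ^ 2 + ‖B‖ ^ 2) := by
  obtain ⟨g, rfl⟩ := R.surjective f
  simp only [← map_smul, R.inner_map_map, R.norm_map]
  have e1 : ⟪p • A + starRingEnd ℂ q • B, p • g⟫_ℂ - ⟪q • A + starRingEnd ℂ p • B, q • g⟫_ℂ =
      ((‖p‖ ^ 2 - ‖q‖ ^ 2 : ℝ) : ℂ) * ⟪A, g⟫_ℂ := by
    simp only [inner_add_left, inner_smul_left, inner_smul_right, conj_conj]
    push_cast
    rw [← mul_conj' p, ← mul_conj' q]
    ring
  have e2 : ⟪p • A, starRingEnd ℂ q • B⟫_ℂ = ⟪q • A, starRingEnd ℂ p • B⟫_ℂ := by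
    simp only [inner_smul_left, inner_smul_right]
    ring
  have e3 := mul_nonneg hJ (sq_nonneg ‖A - g‖)
  rw [norm_sub_sq (𝕜 := ℂ)] at e3
  rw [e1, re_ofReal_mul, norm_add_sq (𝕜 := ℂ), norm_add_sq (𝕜 := ℂ), e2]
  simp only [norm_smul, RCLike.norm_conj, mul_pow, RCLike.re_to_complex] at e3 ⊢
  nlinarith

theorem pul_int {u v : ℂ → H} (hu : MemLp u 2 volume) (hv : MemLp v 2 volume) :
    Integrable fun z => ⟪u z, v z⟫_ℂ :=
  (hu.norm.integrable_mul hv.norm).mono' (hu.1.inner hv.1)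
    (Eventually.of_forall fun _ => norm_inner_le_norm _ _)

omit [InnerProductSpace ℂ H] in
theorem pul_sq {u : ℂ → H} (hu : MemLp u 2 volume) : Integrable fun z => ‖u z‖ ^ 2 :=
  (memLp_two_iff_integrable_sq_norm hu.1).1 hu

theorem pul_mul {f : ℂ → H} (hf : MemLp f 2 volume) {p : ℂ → ℂ} (hp : Continuous p) {c : ℝ}
    (h : ∀ z, ‖p z‖ ≤ c) : MemLp (fun z => p z • f z) 2 volume :=
  hf.of_le_mul (c := c) (hp.aestronglyMeasurable.smul hf.1) (Eventually.of_forall fun z => by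
    rw [norm_smul]
    exact mul_le_mul_of_nonneg_right (h z) (norm_nonneg _))

end

theorem pulSt (hB : BasSt) (hP : PbSt) (hC : ChSt) : PulSt := by
  intro H _ _ _ n τ T χ s κ hT hχ hcs hκ hb U hU
  obtain ⟨hφ, hV⟩ := hP H n τ T χ s κ hT hχ hcs hκ hb
  obtain ⟨V, R, hV, hR⟩ := hV U hU
  obtain ⟨u1, u2, -⟩ := (hB H n τ _ (hφ.comp hT)).2.2.2.1 U hU
  obtain ⟨v1, v2, -⟩ := (hB H n τ T hT).2.2.2.1 V hV
  obtain ⟨c1, c2⟩ := hC χ s κ (fun z => ‖d1 τ (fun i => T i + s * χ (T i)) U z‖ ^ 2 +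
    ‖d2 τ (fun i => T i + s * χ (T i)) U z‖ ^ 2) hχ hκ hb hφ (fun z => by positivity)
    ((pul_sq u1).add (pul_sq u2))
  have ae : ∀ᵐ z : ℂ, ∀ i, T i ≠ z :=
    ((finite_range T).countable.ae_notMem volume).mono fun z h i e => h ⟨i, e⟩
  have nq : ∀ z, ‖s * starRingEnd ℂ (bb χ z)‖ = ‖s * bb χ z‖ := fun z => by simp
  have hq : ∀ z, 2 * ‖s * bb χ z‖ ≤ κ := fun z => by rw [norm_mul, ← mul_assoc]; exact hb z
  have hp : ∀ z, 1 - ‖s * bb χ z‖ ≤ ‖1 + s * bb χ z‖ := fun z => by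
    simpa using norm_sub_norm_le (1 : ℂ) (-(s * bb χ z))
  have cq : ∀ z, starRingEnd ℂ s * bb χ z = starRingEnd ℂ (s * starRingEnd ℂ (bb χ z)) :=
    fun z => by simp
  refine ⟨V, hV, ?_, fun f hf => le_trans ?_ c2⟩
  · have k0 : 0 ≤ 1 + κ := by linarith [hq 0, norm_nonneg (s * bb χ 0)]
    refine le_trans ?_ (mul_le_mul_of_nonneg_left c2 k0)
    rw [en, ← integral_const_mul, ← integral_const_mul]
    refine integral_mono_ae (((pul_sq v1).add (pul_sq v2)).const_mul _) (c1.const_mul _)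
      (ae.mono fun z hz => ?_)
    have := pul_one hκ ((nq z).symm ▸ hq z) ((nq z).symm ▸ hp z)
      (d1 τ (fun i => T i + s * χ (T i)) U (z + s * χ z))
      (d2 τ (fun i => T i + s * χ (T i)) U (z + s * χ z))
    rw [nq] at this
    simp only [(hR z hz).1, (hR z hz).2, (R z).norm_map, cq]
    exact this
  · have cb : Continuous (bb χ) := by
      have := hχ.continuous_fderiv (by norm_num)
      unfold bb
      fun_prop
    have g1 : MemLp (fun z => (1 + s * bb χ z) • f z) 2 volume :=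
      pul_mul hf (c := 2) (by fun_prop) fun z => (norm_add_le _ _).trans (by
        rw [norm_one]; linarith [hq z])
    have g2 : MemLp (fun z => (s * starRingEnd ℂ (bb χ z)) • f z) 2 volume :=
      pul_mul hf (c := 1) (by fun_prop) fun z => by rw [nq]; linarith [hq z]
    have i1 : Integrable fun z => 4 * (⟪d1 τ T V z, (1 + s * bb χ z) • f z⟫_ℂ -
        ⟪d2 τ T V z, (s * starRingEnd ℂ (bb χ z)) • f z⟫_ℂ).re :=
      ((pul_int v1 g1).sub (pul_int v2 g2)).re.const_mul 4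
    have i2 : Integrable fun z => 2 * (‖(1 + s * bb χ z) • f z‖ ^ 2 -
        ‖(s * starRingEnd ℂ (bb χ z)) • f z‖ ^ 2) := ((pul_sq g1).sub (pul_sq g2)).const_mul 2
    have i3 : Integrable fun z => ‖d1 τ T V z‖ ^ 2 - ‖d2 τ T V z‖ ^ 2 :=
      (pul_sq v1).sub (pul_sq v2)
    rw [← integral_sub (pul_sq g1) (pul_sq g2), ← integral_sub (pul_sq v1) (pul_sq v2),
      ← integral_const_mul, ← integral_const_mul, ← integral_sub i1 i2]
    refine (integral_sub (i1.sub i2) i3).symm.trans_le ?_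
    refine integral_mono_ae ((i1.sub i2).sub i3) c1 (ae.mono fun z hz => ?_)
    have hJ : 0 ≤ ‖1 + s * bb χ z‖ ^ 2 - ‖s * starRingEnd ℂ (bb χ z)‖ ^ 2 := by
      rw [nq]
      exact sub_nonneg.2 (pow_le_pow_left₀ (norm_nonneg _) (by linarith [hq z, hp z]) 2)
    have := pul_two hJ (R z) (d1 τ (fun i => T i + s * χ (T i)) U (z + s * χ z))
      (d2 τ (fun i => T i + s * χ (T i)) U (z + s * χ z)) (f z)
    rw [← cq, ← (hR z hz).1, ← (hR z hz).2, nq] at this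
    exact this

end Pool.Agent.MA2
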