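import Pool.Agent.Lib.MP_c86c76_al.An2.St

/-!
Radial functions: integrals over annuli and derivatives.
-/

set_option autoImplicit false

namespace Pool.Agent.MA2

open Complex MeasureTheory Filter Topology Set Function

lemma rad_exp (g : ℝ → ℝ) (s : ℝ) :
    |Real.exp s| • (Real.exp s ^ (Module.finrank ℝ ℂ - 1) •
      (g (Real.log (Real.exp s)) / Real.exp s ^ 2)) = g s := by
  have h := (Real.exp_pos s).ne'
  rw [abs_of_pos (Real.exp_pos s), Complex.finrank_real_complex, Real.log_exp, smul_eq_mul,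
    smul_eq_mul, Nat.add_one_sub_one]
  field_simp

lemma rad_int (g : ℝ → ℝ) (hg : Integrable g) :
    Integrable (fun z : ℂ => g (Real.log ‖z‖) / ‖z‖ ^ 2) ∧
      ∫ z : ℂ, g (Real.log ‖z‖) / ‖z‖ ^ 2 = 2 * Real.pi * ∫ s, g s := by
  have h1 : Real.exp '' univ = Ioi 0 := by rw [image_univ, Real.range_exp]
  have h2 : ∀ x ∈ (univ : Set ℝ), HasDerivWithinAt Real.exp (Real.exp x) univ x :=
    fun x _ => (Real.hasDerivAt_exp x).hasDerivWithinAt
  constructor
  · rw [integrable_fun_norm_addHaar volume (f := fun r => g (Real.log r) / r ^ 2), ← h1,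
      integrableOn_image_iff_integrableOn_abs_deriv_smul MeasurableSet.univ h2
        Real.exp_injective.injOn]
    simp only [rad_exp]
    exact hg.integrableOn
  · rw [integral_fun_norm_addHaar volume fun r => g (Real.log r) / r ^ 2, ← h1,
      integral_image_eq_integral_abs_deriv_smul MeasurableSet.univ h2 Real.exp_injective.injOn]
    simp only [rad_exp]
    rw [Complex.finrank_real_complex, Measure.real, Complex.volume_ball, Measure.restrict_univ]
    simp [mul_assoc]

lemma rad_log (a z : ℂ) (h : z ≠ a) : ContDiffAt ℝ 2 (fun z => Real.log ‖z - a‖) z ∧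
    ‖fderiv ℝ (fun z => Real.log ‖z - a‖) z‖ ≤ 1 / ‖z - a‖ := by
  have h0 : z - a ≠ 0 := sub_ne_zero.2 h
  have h1 : ‖z - a‖ ≠ 0 := norm_ne_zero_iff.2 h0
  have h2 : ContDiffAt ℝ 2 (fun z : ℂ => ‖z - a‖) z :=
    (contDiffAt_id.sub contDiffAt_const).norm ℝ h0
  refine ⟨h2.log h1, ?_⟩
  have h3 : LipschitzWith 1 fun z : ℂ => ‖z - a‖ := LipschitzWith.of_dist_le_mul fun x y => by
    rw [NNReal.coe_one, one_mul, dist_eq_norm x y, ← sub_sub_sub_cancel_right x y a]
    exact dist_norm_norm_le _ _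
  have h4 := norm_fderiv_le_of_lipschitz ℝ h3 (x₀ := z)
  rw [((h2.differentiableAt two_ne_zero).hasFDerivAt.log h1).fderiv, norm_smul, norm_inv, norm_norm,
    one_div]
  exact mul_le_of_le_one_right (by positivity) (by simpa using h4)

theorem radSt : RadSt := by
  refine ⟨fun a J f hJ h0 hf => ?_, fun H _ _ p a z hp h => ?_⟩
  · obtain ⟨h1, h2⟩ := rad_int (J.indicator f) ((integrable_indicator_iff hJ).2 hf)
    have e : ((ann a J).indicator fun z => f (Real.log ‖z - a‖) / ‖z - a‖ ^ 2) =
        fun z => J.indicator f (Real.log ‖z - a‖) / ‖z - a‖ ^ 2 := funext fun z => by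
      by_cases hz : z = a
      · rw [indicator_of_notMem fun e : z ∈ ann a J => e.1 hz, hz]
        simp
      · by_cases h : Real.log ‖z - a‖ ∈ J
        · rw [indicator_of_mem (show z ∈ ann a J from ⟨hz, h⟩), indicator_of_mem h]
        · rw [indicator_of_notMem fun e : z ∈ ann a J => h e.2, indicator_of_notMem h, zero_div]
    rw [e]
    refine ⟨h1.comp_sub_right a, ?_⟩
    rw [integral_sub_right_eq_self (fun z : ℂ => J.indicator f (Real.log ‖z‖) / ‖z‖ ^ 2) a, h2,
      integral_indicator hJ]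
    exact mul_le_mul_of_nonneg_right (by linarith [Real.pi_lt_d2]) (integral_nonneg h0)
  · obtain ⟨h1, h2⟩ := rad_log a z h
    refine ⟨hp.contDiffAt.comp z h1, ?_⟩
    have h3 := ((hp.differentiable two_ne_zero) (Real.log ‖z - a‖)).hasDerivAt.hasFDerivAt.comp z
      (h1.differentiableAt two_ne_zero).hasFDerivAt
    rw [show (fun z => p (Real.log ‖z - a‖)) = p ∘ fun z => Real.log ‖z - a‖ from rfl, h3.fderiv,
      div_eq_mul_one_div]
    refine (ContinuousLinearMap.opNorm_comp_le _ _).trans ?_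
    rw [ContinuousLinearMap.norm_toSpanSingleton]
    exact mul_le_mul_of_nonneg_left h2 (norm_nonneg _)

end Pool.Agent.MA2
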