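import Pool.Agent.Lib.MP_c86c76_al.An2.St
import Pool.Agent.Lib.MP_c86c76_al.An.Sto

/-!
Stokes' formula for sections of finite energy.
-/

set_option autoImplicit false

namespace Pool.Agent.MA2

open Complex MeasureTheory Filter Topology Set Function
open scoped InnerProductSpace
open Pool.Agent.MA (cf Nr rc kk Tr bb gz DD d1 d2 en dg)

theorem sto0St (hB : BasSt) : Sto0St := by
  classical
  intro H _ _ _ n τ T hT U U' U'' K s s' s'' k1 k2 k3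
  obtain ⟨-, b2, b3, -⟩ := hB H n τ T hT
  obtain ⟨P, hP⟩ : ∃ P : ℂ → ℂ → ℂ, ∀ v z, P v z =
      if ∀ i, T i ≠ z then ⟪DD τ T U z v, U' z - U'' z⟫_ℂ else 0 := ⟨_, fun _ _ => rfl⟩
  have h1 : ∀ v z, z ∉ K → P v z = 0 := fun v z hz => by
    rw [hP]
    split_ifs with c
    · rw [k3 z hz]
      simp
    · rfl
  have h2 : ∀ v z, (∀ i, T i ≠ z) → P v =ᶠ[𝓝 z] fun x =>
      ⟪fderiv ℝ (gz τ T U z) x v, gz τ T U' z x - gz τ T U'' z x⟫_ℂ := fun v z c => by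
    filter_upwards [b2 U z c, b3 U s z c] with x e1 e2
    rw [hP, if_pos e1.1, e2, ← (τ.c (cf z T) (cf x T)).linearIsometryEquiv.inner_map_map
      (fderiv ℝ (gz τ T U z) x v), ← vsub_eq_sub (gz τ T U' z x), AffineIsometryEquiv.map_vsub]
    simp [gz, AffineIsometryEquiv.coe_inv, inner_sub_right]
  have h3 : ∀ v, ContDiff ℝ 1 (P v) := fun v => contDiff_iff_contDiffAt.2 fun z => by
    by_cases c : ∀ i, T i ≠ z
    · exact (MA.Sto_der (s.1 z c) (s'.1 z c) (s''.1 z c) v).1.congr_of_eventuallyEq (h2 v z c)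
    · obtain ⟨i, rfl⟩ : ∃ i, T i = z := by simpa using c
      refine (contDiffAt_const (c := (0 : ℂ))).congr_of_eventuallyEq ?_
      filter_upwards [k1.isClosed.isOpen_compl.mem_nhds (k2 i)] with x hx
      exact h1 v x hx
  have h4 := fun v => MA.Sto_int (h3 v) (HasCompactSupport.intro k1 (h1 v))
  have h5 : ∀ᵐ z : ℂ, z ∉ range T := (finite_range T).countable.ae_notMem volume
  rw [integral_congr_ae (g := fun z => -2 * I * (fderiv ℝ (P 1) z I - fderiv ℝ (P I) z 1)),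
    integral_const_mul, integral_sub (h4 1 I).1 (h4 I 1).1, (h4 1 I).2, (h4 I 1).2, sub_zero,
    mul_zero]
  filter_upwards [h5] with z hz
  have c : ∀ i, T i ≠ z := fun i e => hz ⟨i, e⟩
  rw [(h2 1 z c).fderiv_eq, (h2 I z c).fderiv_eq,
    (MA.Sto_der (s.1 z c) (s'.1 z c) (s''.1 z c) 1).2,
    (MA.Sto_der (s.1 z c) (s'.1 z c) (s''.1 z c) I).2,
    (s.1 z c).isSymmSndFDerivAt (by simp) I 1, add_sub_add_right_eq_sub]
  exact MA.Sto_alg _ _ _ _ _ _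

section

variable {H : Type} [NormedAddCommGroup H] [InnerProductSpace ℂ H] {n : ℕ}

theorem sto_dec (L : ℂ →L[ℝ] H) :
    L = ContinuousLinearMap.smulRightL ℝ ℂ H reCLM
        ((2 : ℂ)⁻¹ • ((L 1 - I • L I) + (L 1 + I • L I))) +
      ContinuousLinearMap.smulRightL ℝ ℂ H imCLM
        (((2 : ℂ)⁻¹ * I) • ((L 1 - I • L I) - (L 1 + I • L I))) := by
  have e1 : (2 : ℂ)⁻¹ • ((L 1 - I • L I) + (L 1 + I • L I)) = L 1 := by
    module
  have e2 : ((2 : ℂ)⁻¹ * I) • ((L 1 - I • L I) - (L 1 + I • L I)) = L I := by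
    have : ((2 : ℂ)⁻¹ * I) • ((L 1 - I • L I) - (L 1 + I • L I)) = (-(I * I)) • L I := by
      module
    rw [this, I_mul_I, neg_neg, one_smul]
  rw [e1, e2]
  ext z
  have e : z = z.re • (1 : ℂ) + z.im • I := by
    simp
  conv_lhs => rw [e]
  simp only [map_add, map_smul, add_apply,
    ContinuousLinearMap.smulRightL_apply_apply, ContinuousLinearMap.smulRight_apply, reCLM_apply,
    imCLM_apply]

theorem sto_mem (τ : Tr n (H ≃ᵃⁱ[ℂ] H)) (T : Fin n → ℂ) (U : ℂ → H)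
    (h1 : MemLp (d1 τ T U) 2 volume) (h2 : MemLp (d2 τ T U) 2 volume) :
    MemLp (DD τ T U) 2 volume := by
  have e : DD τ T U = fun z => ContinuousLinearMap.smulRightL ℝ ℂ H reCLM
        ((2 : ℂ)⁻¹ • (d1 τ T U z + d2 τ T U z)) +
      ContinuousLinearMap.smulRightL ℝ ℂ H imCLM
        (((2 : ℂ)⁻¹ * I) • (d1 τ T U z - d2 τ T U z)) := funext fun z => sto_dec _
  rw [e]
  exact ((ContinuousLinearMap.smulRightL ℝ ℂ H reCLM).comp_memLp'
      ((h1.add h2).const_smul ((2 : ℂ)⁻¹))).add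
    ((ContinuousLinearMap.smulRightL ℝ ℂ H imCLM).comp_memLp'
      ((h1.sub h2).const_smul ((2 : ℂ)⁻¹ * I)))

theorem sto_inn {f g : ℂ → H} (hf : MemLp f 2 volume) (hg : MemLp g 2 volume) :
    Integrable fun z => ⟪f z, g z⟫_ℂ := by
  refine Integrable.mono' (g := fun z => ‖f z‖ * ‖g z‖) (hf.norm.integrable_mul hg.norm)
    (hf.1.inner hg.1) (Eventually.of_forall fun z => norm_inner_le_norm _ _)

theorem sto_bd (a b : H) (L L' : ℂ →L[ℝ] H) {δ : ℝ} (hδ : 0 < δ) :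
    ‖⟪a, (L 1 - I • L I) - (L' 1 - I • L' I)⟫_ℂ - ⟪b, (L 1 + I • L I) - (L' 1 + I • L' I)⟫_ℂ‖ ≤
      δ * (‖a‖ ^ 2 + ‖b‖ ^ 2) + 2 / δ * ‖L' - L‖ ^ 2 := by
  have p1 : ‖(L' - L) 1‖ ≤ ‖L' - L‖ := by simpa using (L' - L).le_opNorm 1
  have p2 : ‖I • (L' - L) I‖ ≤ ‖L' - L‖ := by
    rw [norm_smul, norm_I, one_mul]
    simpa using (L' - L).le_opNorm I
  have q1 : ‖(L 1 - I • L I) - (L' 1 - I • L' I)‖ ≤ 2 * ‖L' - L‖ := by
    have : (L 1 - I • L I) - (L' 1 - I • L' I) = I • (L' - L) I - (L' - L) 1 := by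
      simp only [sub_apply]
      module
    rw [this]
    linarith [norm_sub_le (I • (L' - L) I) ((L' - L) 1)]
  have q2 : ‖(L 1 + I • L I) - (L' 1 + I • L' I)‖ ≤ 2 * ‖L' - L‖ := by
    have : (L 1 + I • L I) - (L' 1 + I • L' I) = -((L' - L) 1 + I • (L' - L) I) := by
      simp only [sub_apply]
      module
    rw [this, norm_neg]
    linarith [norm_add_le ((L' - L) 1) (I • (L' - L) I)]
  have r : ∀ x : ℝ, x * (2 * ‖L' - L‖) ≤ δ * x ^ 2 + 1 / δ * ‖L' - L‖ ^ 2 := fun x => by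
    have h : δ * x ^ 2 + 1 / δ * ‖L' - L‖ ^ 2 - x * (2 * ‖L' - L‖) =
        (δ * x - ‖L' - L‖) ^ 2 / δ := by
      field_simp
      ring
    have h' : 0 ≤ (δ * x - ‖L' - L‖) ^ 2 / δ := by positivity
    linarith
  have s1 := (norm_inner_le_norm (𝕜 := ℂ) a _).trans
    (mul_le_mul_of_nonneg_left q1 (norm_nonneg a))
  have s2 := (norm_inner_le_norm (𝕜 := ℂ) b _).trans
    (mul_le_mul_of_nonneg_left q2 (norm_nonneg b))
  have e : 2 / δ * ‖L' - L‖ ^ 2 = 1 / δ * ‖L' - L‖ ^ 2 + 1 / δ * ‖L' - L‖ ^ 2 := by ring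
  refine (norm_sub_le _ _).trans ?_
  linarith [r ‖a‖, r ‖b‖]

end

theorem stoSt (hB : BasSt) (h0 : Sto0St) (hD : DenSt) : StoSt := by
  intro H _ _ _ n τ T hT U U' U'' s s' s''
  obtain ⟨-, -, -, b4, -, b6, -⟩ := hB H n τ T hT
  obtain ⟨m1, m2, -⟩ := b4 U s
  obtain ⟨m1', m2', -⟩ := b4 U' s'
  obtain ⟨m1'', m2'', -⟩ := b4 U'' s''
  refine norm_le_zero_iff.1 (le_of_forall_pos_le_add fun ε hε => ?_)
  have hE := b6 U
  obtain ⟨δ, hδ, hδ'⟩ : ∃ δ : ℝ, 0 < δ ∧ δ * en τ T U ≤ ε / 2 := by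
    refine ⟨ε / 2 / (en τ T U + 1), by positivity, ?_⟩
    rw [div_mul_eq_mul_div, div_le_iff₀ (by positivity)]
    nlinarith
  obtain ⟨W, K, w, k1, k2, k3, k4⟩ := hD H n τ T hT U' U'' s' s'' (ε * δ / 4) (by positivity)
  obtain ⟨w1, w2, -⟩ := b4 W w
  have z0 := h0 H n τ T hT U W U'' K s w s'' k1 k2 k3
  have i1 := (sto_inn m1 (m1'.sub w1)).sub (sto_inn m2 (m2'.sub w2))
  have i2 := (sto_inn m1 (w1.sub m1'')).sub (sto_inn m2 (w2.sub m2''))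
  have iE : Integrable fun z => ‖d1 τ T U z‖ ^ 2 + ‖d2 τ T U z‖ ^ 2 :=
    ((memLp_two_iff_integrable_sq_norm m1.1).1 m1).add ((memLp_two_iff_integrable_sq_norm m2.1).1 m2)
  have mD := (sto_mem τ T W w1 w2).sub (sto_mem τ T U' m1' m2')
  have iD : Integrable fun z => ‖DD τ T W z - DD τ T U' z‖ ^ 2 :=
    (memLp_two_iff_integrable_sq_norm mD.1).1 mD
  have e : ∫ z, (⟪d1 τ T U z, d1 τ T U' z - d1 τ T U'' z⟫_ℂ -
      ⟪d2 τ T U z, d2 τ T U' z - d2 τ T U'' z⟫_ℂ) =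
      (∫ z, (⟪d1 τ T U z, d1 τ T U' z - d1 τ T W z⟫_ℂ -
        ⟪d2 τ T U z, d2 τ T U' z - d2 τ T W z⟫_ℂ)) +
      ∫ z, (⟪d1 τ T U z, d1 τ T W z - d1 τ T U'' z⟫_ℂ -
        ⟪d2 τ T U z, d2 τ T W z - d2 τ T U'' z⟫_ℂ) := by
    refine Eq.trans (integral_congr_ae (Eventually.of_forall fun z => ?_)) (integral_add i1 i2)
    simp only [inner_sub_right]
    ring
  rw [e, z0, add_zero, zero_add]
  have b := norm_integral_le_of_norm_le (μ := volume)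
    (f := fun z => ⟪d1 τ T U z, d1 τ T U' z - d1 τ T W z⟫_ℂ -
        ⟪d2 τ T U z, d2 τ T U' z - d2 τ T W z⟫_ℂ)
    ((iE.const_mul δ).add (iD.const_mul (2 / δ)))
    (Eventually.of_forall fun z => sto_bd _ _ (DD τ T U' z) (DD τ T W z) hδ)
  refine b.trans ?_
  have e2 : ∫ z, (δ * (‖d1 τ T U z‖ ^ 2 + ‖d2 τ T U z‖ ^ 2) +
      2 / δ * ‖DD τ T W z - DD τ T U' z‖ ^ 2) =
      δ * en τ T U + 2 / δ * ∫ z, ‖DD τ T W z - DD τ T U' z‖ ^ 2 := by
    rw [integral_add (iE.const_mul δ) (iD.const_mul (2 / δ)), integral_const_mul,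
      integral_const_mul]
    rfl
  have e3 : 2 / δ * ∫ z, ‖DD τ T W z - DD τ T U' z‖ ^ 2 ≤ ε / 2 := by
    refine (mul_le_mul_of_nonneg_left k4.le (by positivity)).trans (le_of_eq ?_)
    field_simp
    ring
  refine le_trans (le_of_eq e2) ?_
  linarith

end Pool.Agent.MA2
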