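import Pool.Agent.Lib.MP_c86c76_al.An2.St

/-!
Harmonic supports of the least energy.
-/

set_option autoImplicit false

namespace Pool.Agent.MA2

open Complex MeasureTheory Filter Topology Set Function
open Pool.Agent.MA (cf Nr rc kk Tr bb gz DD d1 d2 en dg QQ KreinSt LioSt ChSt BdSt SegSt)
open scoped InnerProductSpace ENNReal

section Aux

variable {H : Type} [NormedAddCommGroup H] [InnerProductSpace ℂ H]

theorem Sup_inner (u w : Lp H 2 (volume : Measure ℂ)) (g k : ℂ → H) (hu : u =ᵐ[volume] g)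
    (hw : w =ᵐ[volume] k) :
    Integrable (fun z => ⟪g z, k z⟫_ℂ) ∧ ⟪u, w⟫_ℂ = ∫ z, ⟪g z, k z⟫_ℂ := by
  have h : (fun z => ⟪u z, w z⟫_ℂ) =ᵐ[volume] fun z => ⟪g z, k z⟫_ℂ := by
    filter_upwards [hu, hw] with z h1 h2
    rw [h1, h2]
  refine ⟨(L2.integrable_inner (𝕜 := ℂ) u w).congr h, ?_⟩
  rw [L2.inner_def]
  exact integral_congr_ae h

theorem Sup_normsq (u : Lp H 2 (volume : Measure ℂ)) (g : ℂ → H) (hu : u =ᵐ[volume] g) :
    Integrable (fun z => ‖g z‖ ^ 2) ∧ ‖u‖ ^ 2 = ∫ z, ‖g z‖ ^ 2 := by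
  obtain ⟨h1, h2⟩ := Sup_inner u u g g hu hu
  have e : (fun z => ‖g z‖ ^ 2) = fun z => RCLike.re ⟪g z, g z⟫_ℂ := by
    funext z
    rw [inner_self_eq_norm_sq]
  refine ⟨by rw [e]; exact h1.re, ?_⟩
  rw [e, integral_re h1, ← h2, inner_self_eq_norm_sq]

theorem Sup_QQ (e w : Lp H 2 (volume : Measure ℂ) × Lp H 2 (volume : Measure ℂ))
    (g1 g2 k1 k2 : ℂ → H) (h1 : e.1 =ᵐ[volume] g1) (h2 : e.2 =ᵐ[volume] g2)
    (h3 : w.1 =ᵐ[volume] k1) (h4 : w.2 =ᵐ[volume] k2) :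
    QQ e w = ∫ z, (⟪g1 z, k1 z⟫_ℂ - ⟪g2 z, k2 z⟫_ℂ) ∧
      (QQ e w).re = ∫ z, (⟪g1 z, k1 z⟫_ℂ - ⟪g2 z, k2 z⟫_ℂ).re := by
  obtain ⟨a1, a2⟩ := Sup_inner e.1 w.1 g1 k1 h1 h3
  obtain ⟨b1, b2⟩ := Sup_inner e.2 w.2 g2 k2 h2 h4
  have e1 : QQ e w = ∫ z, (⟪g1 z, k1 z⟫_ℂ - ⟪g2 z, k2 z⟫_ℂ) := by
    rw [integral_sub a1 b1, ← a2, ← b2]
    rfl
  refine ⟨e1, ?_⟩
  rw [e1]
  exact (integral_re (a1.sub b1)).symm

theorem Sup_mul (g : ℂ → ℂ) (hg : Continuous g) (M : ℝ) (hM : ∀ z, ‖g z‖ ≤ M) :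
    ∃ b : Lp H 2 (volume : Measure ℂ) →L[ℂ] Lp H 2 (volume : Measure ℂ),
      ∀ f, b f =ᵐ[volume] fun z => g z • f z := by
  have hm : MemLp g ∞ (volume : Measure ℂ) :=
    memLp_top_of_bound hg.aestronglyMeasurable M (Eventually.of_forall hM)
  refine ⟨(ContinuousLinearMap.lsmul ℂ ℂ : ℂ →L[ℂ] H →L[ℂ] H).holderL volume ∞ 2 2 (hm.toLp g),
    fun f => ?_⟩
  have h1 := (ContinuousLinearMap.lsmul ℂ ℂ : ℂ →L[ℂ] H →L[ℂ] H).coeFn_holder (r := 2)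
    (hm.toLp g) f
  filter_upwards [h1, hm.coeFn_toLp] with z hz hz'
  rw [← hz']
  exact hz

end Aux

theorem Sup_bump {n : ℕ} (T : Fin n → ℂ) (j : Fin n) (s0 : ℂ) (hs : ∀ i, i ≠ j → T i ≠ s0) :
    ∃ χ : ℂ → ℝ, ContDiff ℝ 2 χ ∧ HasCompactSupport χ ∧ χ s0 = 1 ∧ ∀ i, i ≠ j → χ (T i) = 0 := by
  have h : ∀ᶠ ε in 𝓝[>] (0 : ℝ), ∀ i, i ≠ j → ε ≤ dist (T i) s0 := by
    refine eventually_all.2 fun i => ?_
    by_cases hi : i = j
    · exact Eventually.of_forall fun _ h => absurd hi h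
    · have hp : 0 < dist (T i) s0 := dist_pos.2 (hs i hi)
      exact ((eventually_le_nhds hp).filter_mono nhdsWithin_le_nhds).mono fun _ h _ => h
  obtain ⟨ε, hε, hp⟩ := (h.and self_mem_nhdsWithin).exists
  have hp' : 0 < ε := hp
  let φ : ContDiffBump s0 := ⟨ε / 2, ε, by linarith, by linarith⟩
  refine ⟨φ, φ.contDiff, φ.hasCompactSupport, ?_, fun i hi => ?_⟩
  · exact φ.one_of_mem_closedBall (Metric.mem_closedBall_self φ.rIn_pos.le)
  · exact φ.zero_of_le_dist (hε i hi)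

theorem Sup_bb (χ : ℂ → ℝ) (h : ContDiff ℝ 2 χ) (hc : HasCompactSupport χ) :
    Continuous (bb χ) ∧ ∃ M : ℝ, 0 < M ∧ ∀ z, ‖bb χ z‖ ≤ M := by
  have hf : Continuous (fderiv ℝ χ) := h.continuous_fderiv (by norm_num)
  have hb : Continuous (bb χ) := by
    unfold bb
    fun_prop
  refine ⟨hb, ?_⟩
  have hs : HasCompactSupport (bb χ) := by
    refine (hc.fderiv ℝ).mono ?_
    intro z hz
    rw [mem_support] at hz ⊢
    intro h0
    apply hz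
    simp [bb, h0]
  obtain ⟨M, hM⟩ := hs.exists_bound_of_continuous hb
  exact ⟨max M 1, lt_max_of_lt_right one_pos, fun z => (hM z).trans (le_max_left _ _)⟩

theorem Sup_ae {n : ℕ} (T : Fin n → ℂ) : ∀ᵐ z ∂(volume : Measure ℂ), ∀ i, T i ≠ z := by
  refine ae_all_iff.2 fun i => ?_
  have h : ∀ᵐ z ∂(volume : Measure ℂ), z ∉ ({T i} : Set ℂ) :=
    (countable_singleton (T i)).ae_notMem _
  filter_upwards [h] with z hz e
  exact hz (by simp [e])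

theorem supSt (hK : KreinSt) (hB : BasSt) (hS : StoSt) (hP : PulSt) : SupSt := by
  intro H _ _ _ n τ T j s0 hT hs0 hNe
  set T0 := update T j s0 with hT0
  have hT0i : Injective T0 := by
    intro i k h
    by_cases hi : i = j <;> by_cases hk : k = j
    · rw [hi, hk]
    · rw [hT0, hi, update_self, update_of_ne hk] at h
      exact absurd h.symm (hs0 k hk)
    · rw [hT0, hk, update_self, update_of_ne hi] at h
      exact absurd h (hs0 i hi)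
    · rw [hT0, update_of_ne hi, update_of_ne hk] at h
      exact hT h
  obtain ⟨χ, hχ, hχc, hχ1, hχ0⟩ := Sup_bump T j s0 hs0
  obtain ⟨hbc, M, hM0, hM⟩ := Sup_bb χ hχ hχc
  obtain ⟨b, hb⟩ := Sup_mul (H := H) (bb χ) hbc M hM
  obtain ⟨a, ha⟩ := Sup_mul (H := H) (fun z => starRingEnd ℂ (bb χ z))
    (Complex.continuous_conj.comp hbc) M (fun z => by simpa using hM z)
  obtain ⟨-, -, -, hL, hA, -⟩ := hB H n τ T0 hT0i
  let D : Set (Lp H 2 (volume : Measure ℂ) × Lp H 2 (volume : Measure ℂ)) :=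
    {e | ∃ U, IsSec τ T0 U ∧ e.1 =ᵐ[volume] d1 τ T0 U ∧ e.2 =ᵐ[volume] d2 τ T0 U}
  have hD : ∀ U, IsSec τ T0 U →
      ∃ e ∈ D, e.1 =ᵐ[volume] d1 τ T0 U ∧ e.2 =ᵐ[volume] d2 τ T0 U := by
    intro U hU
    obtain ⟨h1, h2, -⟩ := hL U hU
    exact ⟨(h1.toLp _, h2.toLp _), ⟨U, hU, h1.coeFn_toLp, h2.coeFn_toLp⟩, h1.coeFn_toLp,
      h2.coeFn_toLp⟩
  have hen : ∀ U (e : Lp H 2 (volume : Measure ℂ) × Lp H 2 (volume : Measure ℂ)),
      e.1 =ᵐ[volume] d1 τ T0 U → e.2 =ᵐ[volume] d2 τ T0 U →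
      ‖e.1‖ ^ 2 + ‖e.2‖ ^ 2 = en τ T0 U := by
    intro U e h1 h2
    obtain ⟨a1, a2⟩ := Sup_normsq e.1 _ h1
    obtain ⟨b1, b2⟩ := Sup_normsq e.2 _ h2
    rw [a2, b2, en, integral_add a1 b1]
  have hDne : D.Nonempty := by
    obtain ⟨U, hU⟩ := hNe.self_of_nhds
    obtain ⟨e, he, -⟩ := hD U hU
    exact ⟨e, he⟩
  have hsub : ∀ (u w : Lp H 2 (volume : Measure ℂ)) (g k : ℂ → H), u =ᵐ[volume] g →
      w =ᵐ[volume] k → (u - w : Lp H 2 (volume : Measure ℂ)) =ᵐ[volume] fun z => g z - k z := by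
    intro u w g k h1 h2
    filter_upwards [Lp.coeFn_sub u w, h1, h2] with z e1 e2 e3
    rw [e1, Pi.sub_apply, e2, e3]
  have hcomb : ∀ (u w : Lp H 2 (volume : Measure ℂ)) (g k : ℂ → H) (c : ℂ), u =ᵐ[volume] g →
      w =ᵐ[volume] k →
      (u + c • w : Lp H 2 (volume : Measure ℂ)) =ᵐ[volume] fun z => g z + c • k z := by
    intro u w g k c h1 h2
    filter_upwards [Lp.coeFn_add u (c • w), Lp.coeFn_smul c w, h1, h2] with z e1 e2 e3 e4
    rw [e1, Pi.add_apply, e2, Pi.smul_apply, e3, e4]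
  have haff : ∀ e ∈ D, ∀ e' ∈ D, ∀ e'' ∈ D, ∀ c : ℂ, e + c • (e' - e'') ∈ D := by
    rintro e ⟨U, hU, h1, h2⟩ e' ⟨U', hU', h1', h2'⟩ e'' ⟨U'', hU'', h1'', h2''⟩ c
    obtain ⟨hV, hDD⟩ := hA U U' U'' c hU hU' hU''
    refine ⟨_, hV, ?_, ?_⟩
    · filter_upwards [hcomb _ _ _ _ c h1 (hsub _ _ _ _ h1' h1''), Sup_ae T0] with z e1 hz
      refine Eq.trans e1 ?_
      simp only [d1, hDD z hz]
      module
    · filter_upwards [hcomb _ _ _ _ c h2 (hsub _ _ _ _ h2' h2''), Sup_ae T0] with z e1 hz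
      refine Eq.trans e1 ?_
      simp only [d2, hDD z hz]
      module
  have hiso : ∀ e ∈ D, ∀ e' ∈ D, ∀ e'' ∈ D, QQ e (e' - e'') = 0 := by
    rintro e ⟨U, hU, h1, h2⟩ e' ⟨U', hU', h1', h2'⟩ e'' ⟨U'', hU'', h1'', h2''⟩
    rw [(Sup_QQ e (e' - e'') _ _ _ _ h1 h2 (hsub _ _ _ _ h1' h1'') (hsub _ _ _ _ h2' h2'')).1]
    exact hS H n τ T0 hT0i U U' U'' hU hU' hU''
  obtain ⟨r, hr, f, h0, hd, hv, hle⟩ := hK _ _ D a b hDne haff hiso
  have hball : ∀ᶠ s in 𝓝 s0, s - s0 ∈ Metric.ball (0 : ℂ) r := by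
    filter_upwards [Metric.ball_mem_nhds s0 hr] with s hs
    rwa [mem_ball_zero_iff, ← dist_eq_norm]
  refine ⟨fun s => h0 (s - s0), ?_, ?_, ?_⟩
  · filter_upwards [hball] with s hs
    exact (hd.differentiableAt (Metric.isOpen_ball.mem_nhds hs)).comp s
      (differentiableAt_id.sub_const s0)
  · simp only [sub_self]
    rw [hv, EE]
    congr 1
    ext x
    constructor
    · rintro ⟨e, ⟨U, hU, h1, h2⟩, rfl⟩
      exact ⟨U, hU, (hen U e h1 h2).symm⟩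
    · rintro ⟨U, hU, rfl⟩
      obtain ⟨e, he, h1, h2⟩ := hD U hU
      exact ⟨e, he, hen U e h1 h2⟩
  · have hsm : ∀ᶠ s in 𝓝 s0, ‖s - s0‖ < 1 / (4 * M) := by
      filter_upwards [Metric.ball_mem_nhds s0 (show 0 < 1 / (4 * M) by positivity)] with s hs
      rwa [← dist_eq_norm]
    filter_upwards [hball, hsm, hNe] with s hs hs' hne
    have hTs : (fun i => T0 i + (s - s0) * χ (T0 i)) = update T j s := by
      funext i
      by_cases hi : i = j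
      · rw [hi, hT0, update_self, update_self, hχ1]
        simp
      · rw [hT0, update_of_ne hi, update_of_ne hi, hχ0 i hi]
        simp
    have hκ : ∀ z, 2 * ‖s - s0‖ * ‖bb χ z‖ ≤ 1 / 2 := by
      intro z
      have h1 : ‖s - s0‖ * ‖bb χ z‖ ≤ 1 / (4 * M) * M :=
        mul_le_mul hs'.le (hM z) (norm_nonneg _) (by positivity)
      have h2 : 1 / (4 * M) * M = 1 / 4 := by field_simp
      linarith
    have hPs := hP H n τ T0 χ (s - s0) (1 / 2) hT0i hχ hχc (by norm_num) hκ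
    rw [hTs] at hPs
    refine le_csInf ?_ ?_
    · obtain ⟨U, hU⟩ := hne
      exact ⟨_, U, hU, rfl⟩
    rintro _ ⟨U, hU, rfl⟩
    obtain ⟨V, hV, -, hin⟩ := hPs U hU
    obtain ⟨e, he, h1, h2⟩ := hD V hV
    have hw1 : (f (s - s0) + (s - s0) • b (f (s - s0)) : Lp H 2 (volume : Measure ℂ)) =ᵐ[volume]
        fun z => (1 + (s - s0) * bb χ z) • f (s - s0) z := by
      filter_upwards [hcomb _ _ _ _ (s - s0) (ae_eq_refl (f (s - s0) : ℂ → H))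
        (hb (f (s - s0)))] with z e1
      rw [e1, add_smul, one_smul, mul_smul]
    have hw2 : ((s - s0) • a (f (s - s0)) : Lp H 2 (volume : Measure ℂ)) =ᵐ[volume]
        fun z => ((s - s0) * starRingEnd ℂ (bb χ z)) • f (s - s0) z := by
      filter_upwards [Lp.coeFn_smul (s - s0) (a (f (s - s0))), ha (f (s - s0))] with z e1 e2
      rw [e1, Pi.smul_apply, e2, mul_smul]
    have key := hle (s - s0) hs e he
    rw [(Sup_QQ e (f (s - s0) + (s - s0) • b (f (s - s0)), (s - s0) • a (f (s - s0))) _ _ _ _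
      h1 h2 hw1 hw2).2, (Sup_normsq _ _ hw1).2, (Sup_normsq _ _ hw2).2, (Sup_normsq _ _ h1).2,
      (Sup_normsq _ _ h2).2] at key
    exact key.trans (hin _ (Lp.memLp _))

end Pool.Agent.MA2
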