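import Pool.Agent.Lib.MP_c86c76_al.An2.St
import Pool.Agent.Lib.MP_c86c76_al.An.Tes

/-!
Test sections from a pair of functions.
-/

set_option autoImplicit false

namespace Pool.Agent.MA2

open Complex MeasureTheory Filter Topology Set Function
open scoped InnerProductSpace
open Pool.Agent.MA (cf Nr rc kk Tr bb gz DD d1 d2 en dg)

theorem tes_par {H : Type} [NormedAddCommGroup H] [InnerProductSpace ℂ H] (L : ℂ →L[ℝ] H) :
    ‖L 1 - I • L I‖ ^ 2 + ‖L 1 + I • L I‖ ^ 2 ≤ 4 * ‖L‖ ^ 2 := by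
  have h3 : ∀ w : ℂ, ‖w‖ = 1 → ‖L w‖ ^ 2 ≤ ‖L‖ ^ 2 := fun w hw =>
    pow_le_pow_left₀ (norm_nonneg _) (by simpa only [hw, mul_one] using L.le_opNorm w) 2
  have h4 := parallelogram_law_with_norm ℂ (L 1) (I • L I)
  rw [norm_smul, norm_I, one_mul] at h4
  nlinarith [h3 1 norm_one, h3 I norm_I]

theorem tes_sm {H : Type} [NormedAddCommGroup H] [InnerProductSpace ℂ H] (g : H ≃ᵃⁱ[ℂ] H)
    {u : ℂ → H} {z : ℂ} (h : ContDiffAt ℝ 2 u z) : ContDiffAt ℝ 2 (fun z => g (u z)) z := by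
  have e : ∀ p, g p = g.linearIsometryEquiv p + g 0 := fun p => by
    simpa using g.map_vadd 0 p
  simp only [e (u _)]
  exact (((g.linearIsometryEquiv.toContinuousLinearEquiv : H →L[ℂ] H).restrictScalars
    ℝ).contDiff.contDiffAt.comp z h).add contDiffAt_const

theorem tesSt (hM : MeaSt) : TesSt := by
  intro H _ _ _ n τ π t u w F hπ h1 hg hF
  let U : ℂ → H := fun z => if 0 < z.im then u z else if z.im < 0 then w z else
    (τ.a π (kk t z.re))⁻¹ (u z)
  have up : ∀ z0 : ℂ, 0 < z0.im → gz τ (rc t) U z0 =ᶠ[𝓝 z0] u := fun z0 h => by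
    filter_upwards [τ.loc z0 (rc t) fun i => by simpa [rc] using h.ne,
      continuous_im.continuousAt.eventually (lt_mem_nhds h)] with z e hz
    simp [gz, e, U, hz]
  have dn : ∀ z0 : ℂ, z0.im < 0 → gz τ (rc t) U z0 =ᶠ[𝓝 z0] w := fun z0 h => by
    filter_upwards [τ.loc z0 (rc t) fun i => by simpa [rc] using h.ne',
      continuous_im.continuousAt.eventually (gt_mem_nhds h)] with z e hz
    simp [gz, e, U, hz, hz.not_gt]
  have hS : IsSm τ (rc t) U := fun z0 h0 => by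
    rcases lt_trichotomy 0 z0.im with h | h | h
    · exact (h1 z0 h0).1.congr_of_eventuallyEq (up z0 h)
    · obtain ⟨x0, rfl⟩ : ∃ x0 : ℝ, z0 = x0 := ⟨z0.re, Complex.ext rfl h.symm⟩
      have ht : ∀ m, t m ≠ x0 := fun m e => h0 m (congrArg _ e)
      refine (tes_sm (τ.a π (kk t x0))⁻¹ (h1 _ h0).1).congr_of_eventuallyEq ?_
      filter_upwards [τ.re π t x0 hπ ht, MA.tes_kk ht, hg x0 ht] with z e hk hz
      simp only [gz, e, U, hk]
      split_ifs
      · rfl
      · rw [hz]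
        exact MA.tes_ga τ π _ _
      · rfl
    · exact (h1 z0 h0).2.1.congr_of_eventuallyEq (dn z0 h)
  have hb : ∀ᵐ z : ℂ, ‖DD τ (rc t) U z‖ ^ 2 ≤ F z := by
    filter_upwards [MA.tes_null] with z hz
    have h0 : ∀ m, (t m : ℂ) ≠ z := fun m e => hz (e ▸ ofReal_im _)
    rcases lt_or_gt_of_ne hz with h | h
    · exact (congrArg (‖·‖ ^ 2) (dn z h).fderiv_eq).trans_le (h1 z h0).2.2.2
    · exact (congrArg (‖·‖ ^ 2) (up z h).fderiv_eq).trans_le (h1 z h0).2.2.1
  have hi : Injective (rc t) := ofReal_injective.comp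
    (hπ.injective.of_comp_right π.surjective)
  have hU : IsSec τ (rc t) U := ⟨hS, hF.mono' ((hM H n τ _ U hi hS).norm.pow 2)
    (hb.mono fun z h => (abs_of_nonneg (sq_nonneg _)).trans_le h)⟩
  refine ⟨⟨U, hU⟩, le_trans (b := en τ (rc t) U) (csInf_le ⟨0, ?_⟩ ⟨U, hU, rfl⟩) ?_⟩
  · rintro _ ⟨V, -, rfl⟩
    exact integral_nonneg fun z => by positivity
  · rw [← integral_const_mul]
    exact integral_mono_of_nonneg (.of_forall fun z => by positivity) (hF.const_mul _)
      (hb.mono fun z h => (tes_par _).trans (by linarith))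

end Pool.Agent.MA2
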