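import Pool.Agent.Lib.MP_c86c76_al.An2.St

/-!
Test sections from annuli with profiles.
-/

set_option autoImplicit false

namespace Pool.Agent.MA2

open Complex MeasureTheory Filter Topology Set Function
open Pool.Agent.MA (cf Nr rc kk Tr bb gz DD d1 d2 en dg)

lemma tree_tel {E : Type} [AddCommGroup E] (f : ℕ → E) {k l n : ℕ} (hkl : k ≤ l) (hln : l ≤ n) :
    ∑ m ∈ Finset.range n, (if k ≤ m ∧ m < l then f m - f (m + 1) else 0) = f k - f l := by
  rw [← Finset.sum_filter]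
  have h : (Finset.range n).filter (fun m => k ≤ m ∧ m < l) = Finset.Ico k l := by
    ext m
    simp only [Finset.mem_filter, Finset.mem_range, Finset.mem_Ico]
    omega
  rw [h, Finset.sum_Ico_eq_sub _ hkl, Finset.sum_range_sub', Finset.sum_range_sub']
  abel

lemma tree_kk_le {n : ℕ} (t : Fin n → ℝ) (x : ℝ) : kk t x ≤ n := by
  unfold kk
  exact (Finset.card_filter_le _ _).trans (by simp)

section Hilbert

variable {H : Type} [NormedAddCommGroup H] [InnerProductSpace ℂ H]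

/-- The linear part, over the reals. -/
noncomputable def treeL (g : H ≃ᵃⁱ[ℂ] H) : H →L[ℝ] H :=
  (g.linearIsometryEquiv.toContinuousLinearEquiv : H →L[ℂ] H).restrictScalars ℝ

lemma tree_aff (g : H ≃ᵃⁱ[ℂ] H) (x : H) : g x = treeL g x + g 0 := by
  have h := g.map_vadd (0 : H) x
  simpa [treeL] using h

lemma tree_L_norm (g : H ≃ᵃⁱ[ℂ] H) (x : H) : ‖treeL g x‖ = ‖x‖ :=
  g.linearIsometryEquiv.norm_map x

lemma tree_aff_cd (g : H ≃ᵃⁱ[ℂ] H) {u : ℂ → H} {z : ℂ} (hu : ContDiffAt ℝ 2 u z) :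
    ContDiffAt ℝ 2 (fun z => g (u z)) z := by
  have h1 : (fun z => g (u z)) = fun z => treeL g (u z) + g 0 := by
    funext z
    exact tree_aff g (u z)
  rw [h1]
  exact ((treeL g).contDiff.contDiffAt.comp z hu).add contDiffAt_const

lemma tree_aff_fd (g : H ≃ᵃⁱ[ℂ] H) {u : ℂ → H} {z : ℂ} {D : ℂ →L[ℝ] H}
    (hu : HasFDerivAt u D z) : HasFDerivAt (fun z => g (u z)) ((treeL g).comp D) z := by
  have h1 : (fun z => g (u z)) = fun z => treeL g (u z) + g 0 := by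
    funext z
    exact tree_aff g (u z)
  rw [h1]
  exact ((treeL g).hasFDerivAt.comp z hu).add_const _

lemma tree_comp_norm (g : H ≃ᵃⁱ[ℂ] H) (D : ℂ →L[ℝ] H) : ‖(treeL g).comp D‖ ≤ ‖D‖ := by
  refine ContinuousLinearMap.opNorm_le_bound _ (norm_nonneg _) fun v => ?_
  rw [ContinuousLinearMap.comp_apply, tree_L_norm]
  exact D.le_opNorm v

lemma tree_lp (g h : H ≃ᵃⁱ[ℂ] H) (x : H) : ‖g x - h x‖ = ‖(h⁻¹ * g) x - x‖ := by
  have h1 : h ((h⁻¹ * g) x) = g x := h.apply_symm_apply (g x)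
  rw [← dist_eq_norm, ← dist_eq_norm, ← h.dist_map ((h⁻¹ * g) x) x, h1]

lemma tree_w (g : ℕ → H ≃ᵃⁱ[ℂ] H) (n : ℕ) (u : ℂ → H) (Λ : ℕ → ℂ → ℝ) (z : ℂ)
    (hu : ContDiffAt ℝ 2 u z) (hΛ : ∀ m, m < n → ContDiffAt ℝ 2 (Λ m) z ∧ |Λ m z| ≤ 3) :
    ContDiffAt ℝ 2 (fun z => g n (u z) +
      ∑ m ∈ Finset.range n, Λ m z • (g m (u z) - g (m + 1) (u z))) z ∧
    ‖fderiv ℝ (fun z => g n (u z) +
      ∑ m ∈ Finset.range n, Λ m z • (g m (u z) - g (m + 1) (u z))) z‖ ≤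
      (1 + 6 * n) * ‖fderiv ℝ u z‖ + ‖∑ m ∈ Finset.range n,
        (fderiv ℝ (Λ m) z).smulRight (g m (u z) - g (m + 1) (u z))‖ := by
  refine ⟨(tree_aff_cd _ hu).add (ContDiffAt.sum fun m hm =>
    (hΛ m (Finset.mem_range.1 hm)).1.smul ((tree_aff_cd _ hu).sub (tree_aff_cd _ hu))), ?_⟩
  have hD : HasFDerivAt u (fderiv ℝ u z) z := (hu.differentiableAt (by norm_num)).hasFDerivAt
  have h1 : HasFDerivAt (fun z => g n (u z) +
      ∑ m ∈ Finset.range n, Λ m z • (g m (u z) - g (m + 1) (u z)))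
      ((treeL (g n)).comp (fderiv ℝ u z) + ∑ m ∈ Finset.range n,
        (Λ m z • ((treeL (g m)).comp (fderiv ℝ u z) - (treeL (g (m + 1))).comp (fderiv ℝ u z)) +
          (fderiv ℝ (Λ m) z).smulRight (g m (u z) - g (m + 1) (u z)))) z := by
    refine (tree_aff_fd _ hD).add (HasFDerivAt.fun_sum fun m hm => ?_)
    exact (((hΛ m (Finset.mem_range.1 hm)).1.differentiableAt (by norm_num)).hasFDerivAt).smul
      ((tree_aff_fd _ hD).sub (tree_aff_fd _ hD))
  rw [h1.fderiv, Finset.sum_add_distrib]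
  have h2 : ‖∑ m ∈ Finset.range n,
      Λ m z • ((treeL (g m)).comp (fderiv ℝ u z) - (treeL (g (m + 1))).comp (fderiv ℝ u z))‖ ≤
      n * (6 * ‖fderiv ℝ u z‖) := by
    refine (norm_sum_le _ _).trans ?_
    have h3 : ∀ m ∈ Finset.range n, ‖Λ m z • ((treeL (g m)).comp (fderiv ℝ u z) -
        (treeL (g (m + 1))).comp (fderiv ℝ u z))‖ ≤ 6 * ‖fderiv ℝ u z‖ := by
      intro m hm
      rw [norm_smul, Real.norm_eq_abs]
      have h4 := (hΛ m (Finset.mem_range.1 hm)).2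
      have h5 : ‖(treeL (g m)).comp (fderiv ℝ u z) - (treeL (g (m + 1))).comp (fderiv ℝ u z)‖ ≤
          2 * ‖fderiv ℝ u z‖ := by
        refine (norm_sub_le _ _).trans ?_
        linarith [tree_comp_norm (g m) (fderiv ℝ u z), tree_comp_norm (g (m + 1)) (fderiv ℝ u z)]
      calc _ ≤ 3 * (2 * ‖fderiv ℝ u z‖) := mul_le_mul h4 h5 (norm_nonneg _) (by norm_num)
        _ = _ := by ring
    refine (Finset.sum_le_sum h3).trans ?_
    simp
  have h6 := tree_comp_norm (g n) (fderiv ℝ u z)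
  refine (norm_add_le _ _).trans ?_
  refine (add_le_add h6 ((norm_add_le _ _).trans (add_le_add h2 le_rfl))).trans (le_of_eq ?_)
  ring

lemma tree_pe_nonneg (T : H ≃ᵃⁱ[ℂ] H) (p : ℝ → H) (s : ℝ) : 0 ≤ pe T p s := by
  unfold pe
  positivity

end Hilbert

theorem treeSt (hT : TesSt) (hR : RadSt) : TreeSt := by
  intro lam M n nc hA
  have hC0 : (0 : ℝ) ≤ 2 * (1 + 6 * n) ^ 2 * nc + 2 * M ^ 2 + 2 + nc := by positivity
  refine ⟨28 * (2 * (1 + 6 * n) ^ 2 * nc + 2 * M ^ 2 + 2 + nc), by positivity, ?_⟩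
  intro H _ _ _ τ π t C _ a J k l p q y0 u Λ F hm hc hu hp hΛ hre hin hout hF0 hFi
  obtain ⟨Cs, hCs⟩ : ∃ Cs : ℝ, Cs = 2 * (1 + 6 * n) ^ 2 * nc + 2 * M ^ 2 + 2 + nc := ⟨_, rfl⟩
  rw [← hCs] at hC0 ⊢
  obtain ⟨I, hI⟩ : ∃ I : C → ℂ → ℝ, ∀ c, I c = (ann (t (a c)) (J c)).indicator fun z =>
      pe (lp τ π (k c) (l c)) (p c) (Real.log ‖z - t (a c)‖) / ‖z - t (a c)‖ ^ 2 :=
    ⟨_, fun _ => rfl⟩
  have hI0 : ∀ c z, 0 ≤ I c z := by
    intro c z
    rw [hI c]
    exact Set.indicator_nonneg (fun z _ => div_nonneg (tree_pe_nonneg _ _ _) (sq_nonneg _)) z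
  have hIi : ∀ c, Integrable (I c) ∧
      ∫ z, I c z ≤ 7 * ∫ s in J c, pe (lp τ π (k c) (l c)) (p c) s := by
    intro c
    rw [hI c]
    exact hR.1 (t (a c)) (J c) _ (hp c).1 (tree_pe_nonneg _ _) (hp c).2.2.2.2.2
  have hS0 : ∀ z, 0 ≤ ∑ c, I c z := fun z => Finset.sum_nonneg fun c _ => hI0 c z
  have hSi : Integrable fun z => ∑ c, I c z := integrable_finsetSum _ fun c _ => (hIi c).1
  have hue : u = fun z : ℂ => y0 + ∑ c, (p c (Real.log ‖z - t (a c)‖) - q c) := funext hu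
  have hrad : ∀ z : ℂ, (∀ i, (t i : ℂ) ≠ z) → ∀ c,
      ContDiffAt ℝ 2 (fun z : ℂ => p c (Real.log ‖z - t (a c)‖)) z ∧
      ‖fderiv ℝ (fun z : ℂ => p c (Real.log ‖z - t (a c)‖)) z‖ ≤
        ‖deriv (p c) (Real.log ‖z - t (a c)‖)‖ / ‖z - t (a c)‖ := fun z hz c =>
    hR.2 H (p c) (t (a c)) z (hp c).2.2.2.1 (hz (a c)).symm
  have hucd : ∀ z : ℂ, (∀ i, (t i : ℂ) ≠ z) → ContDiffAt ℝ 2 u z := by
    intro z hz
    rw [hue]
    exact contDiffAt_const.add
      (ContDiffAt.sum fun c _ => (hrad z hz c).1.sub contDiffAt_const)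
  have hud : ∀ z : ℂ, (∀ i, (t i : ℂ) ≠ z) → ‖fderiv ℝ u z‖ ^ 2 ≤ nc * ∑ c, I c z := by
    intro z hz
    have h1 : HasFDerivAt u
        (∑ c, fderiv ℝ (fun z : ℂ => p c (Real.log ‖z - t (a c)‖)) z) z := by
      rw [hue]
      refine HasFDerivAt.const_add _ (HasFDerivAt.fun_sum fun c _ => ?_)
      exact (((hrad z hz c).1.differentiableAt (by norm_num)).hasFDerivAt).sub_const _
    have h2 : ‖fderiv ℝ u z‖ ≤ ∑ c, ‖deriv (p c) (Real.log ‖z - t (a c)‖)‖ / ‖z - t (a c)‖ := by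
      rw [h1.fderiv]
      exact (norm_sum_le _ _).trans (Finset.sum_le_sum fun c _ => (hrad z hz c).2)
    have h3 : ∀ c, (‖deriv (p c) (Real.log ‖z - t (a c)‖)‖ / ‖z - t (a c)‖) ^ 2 ≤ I c z := by
      intro c
      by_cases hJ : Real.log ‖z - t (a c)‖ ∈ J c
      · have hz' : z ∈ ann (t (a c)) (J c) := ⟨(hz (a c)).symm, hJ⟩
        rw [hI c, Set.indicator_of_mem hz', div_pow]
        refine div_le_div_of_nonneg_right ?_ (sq_nonneg _)
        unfold pe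
        exact le_add_of_nonneg_right (sq_nonneg _)
      · rw [(hp c).2.2.2.2.1 _ hJ]
        simpa using hI0 c z
    have h4 : ((Finset.univ : Finset C).card : ℝ) ≤ nc := by
      rw [Finset.card_univ]
      exact_mod_cast hc
    calc ‖fderiv ℝ u z‖ ^ 2
        ≤ (∑ c, ‖deriv (p c) (Real.log ‖z - t (a c)‖)‖ / ‖z - t (a c)‖) ^ 2 :=
          pow_le_pow_left₀ (norm_nonneg _) h2 2
      _ ≤ (Finset.univ : Finset C).card *
          ∑ c, (‖deriv (p c) (Real.log ‖z - t (a c)‖)‖ / ‖z - t (a c)‖) ^ 2 :=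
          sq_sum_le_card_mul_sum_sq
      _ ≤ nc * ∑ c, I c z :=
          mul_le_mul h4 (Finset.sum_le_sum fun c _ => h3 c)
            (Finset.sum_nonneg fun c _ => sq_nonneg _) (Nat.cast_nonneg _)
  have hG : ∀ z : ℂ, (∀ i, (t i : ℂ) ≠ z) → ‖∑ m ∈ Finset.range n,
      (fderiv ℝ (Λ m) z).smulRight (τ.ga π m (u z) - τ.ga π (m + 1) (u z))‖ ^ 2 ≤
      F z + M ^ 2 * ∑ c, I c z := by
    intro z hz
    by_cases hz' : ∃ c, z ∈ ann (t (a c)) (J c)
    · obtain ⟨c, hc'⟩ := hz'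
      obtain ⟨h1, h2⟩ := hin c z hc' hz
      have h3 : ∑ m ∈ Finset.range n,
          (fderiv ℝ (Λ m) z).smulRight (τ.ga π m (u z) - τ.ga π (m + 1) (u z)) =
          (fderiv ℝ lam (z - t (a c))).smulRight (τ.ga π (k c) (u z) - τ.ga π (l c) (u z)) := by
        rw [← tree_tel (fun m => τ.ga π m (u z)) (hp c).2.1 (hp c).2.2.1]
        ext v
        all_goals
          simp only [_root_.sum_apply, ContinuousLinearMap.smulRight_apply,
            Finset.smul_sum]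
          refine Finset.sum_congr rfl fun m hm => ?_
          rw [h2 m (Finset.mem_range.1 hm)]
          split_ifs <;> simp
      have hne : z - t (a c) ≠ 0 := sub_ne_zero.2 hc'.1
      have h4 := hA.2.2.2.2.1 _ hne
      have h5 : ‖τ.ga π (k c) (u z) - τ.ga π (l c) (u z)‖ ^ 2 ≤
          pe (lp τ π (k c) (l c)) (p c) (Real.log ‖z - t (a c)‖) := by
        rw [tree_lp, h1]
        unfold pe lp
        exact le_add_of_nonneg_left (sq_nonneg _)
      have h6 : I c z ≤ ∑ c, I c z :=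
        Finset.single_le_sum (fun c _ => hI0 c z) (Finset.mem_univ c)
      have h7 : I c z =
          pe (lp τ π (k c) (l c)) (p c) (Real.log ‖z - t (a c)‖) / ‖z - t (a c)‖ ^ 2 := by
        rw [hI c, Set.indicator_of_mem hc']
      rw [h3, ContinuousLinearMap.norm_smulRight_apply, mul_pow]
      calc _ ≤ (M / ‖z - t (a c)‖) ^ 2 *
            pe (lp τ π (k c) (l c)) (p c) (Real.log ‖z - t (a c)‖) :=
            mul_le_mul (pow_le_pow_left₀ (norm_nonneg _) h4 2) h5 (sq_nonneg _) (sq_nonneg _)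
        _ = M ^ 2 * I c z := by rw [h7, div_pow]; ring
        _ ≤ M ^ 2 * ∑ c, I c z := mul_le_mul_of_nonneg_left h6 (sq_nonneg _)
        _ ≤ _ := le_add_of_nonneg_left (hF0 z)
    · exact (hout z hz fun c hc' => hz' ⟨c, hc'⟩).trans
        (le_add_of_nonneg_right (mul_nonneg (sq_nonneg _) (hS0 z)))
  have hFi' : Integrable fun z => Cs * (F z + ∑ c, I c z) := (hFi.add hSi).const_mul Cs
  have hn0 : (0 : ℝ) ≤ n := Nat.cast_nonneg _
  have hnc0 : (0 : ℝ) ≤ nc := Nat.cast_nonneg _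
  have hP0 : (0 : ℝ) ≤ (1 + 6 * n) ^ 2 * nc := by positivity
  obtain ⟨r1, r2⟩ := hT H n τ π t u (fun z => τ.ga π n (u z) +
      ∑ m ∈ Finset.range n, Λ m z • (τ.ga π m (u z) - τ.ga π (m + 1) (u z)))
    (fun z => Cs * (F z + ∑ c, I c z)) hm (by
      intro z hz
      obtain ⟨w1, w2⟩ := tree_w (τ.ga π) n u Λ z (hucd z hz) fun m hm => hΛ m hm z hz
      have e1 := hud z hz
      have e2 := hG z hz
      have e3 := hS0 z
      have e4 := hF0 z
      refine ⟨hucd z hz, w1, ?_, ?_⟩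
      · refine e1.trans ?_
        have e5 : (nc : ℝ) ≤ Cs := by rw [hCs]; nlinarith [sq_nonneg M]
        exact mul_le_mul e5 (le_add_of_nonneg_left e4) e3 hC0
      · refine (pow_le_pow_left₀ (norm_nonneg _) w2 2).trans ?_
        generalize ‖∑ m ∈ Finset.range n,
          (fderiv ℝ (Λ m) z).smulRight (τ.ga π m (u z) - τ.ga π (m + 1) (u z))‖ = G at e2 ⊢
        generalize ‖fderiv ℝ u z‖ = D at e1 ⊢
        generalize ∑ c, I c z = S at e1 e2 e3 ⊢
        have e6 : ((1 + 6 * n) * D + G) ^ 2 ≤ 2 * ((1 + 6 * n) ^ 2 * D ^ 2) + 2 * G ^ 2 := by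
          nlinarith [sq_nonneg ((1 + 6 * n) * D - G)]
        have e7 : (1 + 6 * n : ℝ) ^ 2 * D ^ 2 ≤ (1 + 6 * n) ^ 2 * (nc * S) :=
          mul_le_mul_of_nonneg_left e1 (sq_nonneg _)
        have e8 : 0 ≤ (1 + 6 * n : ℝ) ^ 2 * nc * F z := mul_nonneg hP0 e4
        have e9 : 0 ≤ M ^ 2 * F z := mul_nonneg (sq_nonneg _) e4
        have e10 : 0 ≤ nc * F z := mul_nonneg hnc0 e4
        have e11 : 0 ≤ nc * S := mul_nonneg hnc0 e3
        rw [hCs]
        nlinarith) (by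
      intro x hx
      have h1 : ∀ᶠ z in 𝓝 (x : ℂ), ∀ m ∈ Finset.range n,
          Λ m z = if kk t x ≤ m then 1 else 0 :=
        (eventually_all_finset _).2 fun m hm => hre m (Finset.mem_range.1 hm) x hx
      filter_upwards [h1] with z hz
      have h2 : ∑ m ∈ Finset.range n, Λ m z • (τ.ga π m (u z) - τ.ga π (m + 1) (u z)) =
          τ.ga π (kk t x) (u z) - τ.ga π n (u z) := by
        rw [← tree_tel (fun m => τ.ga π m (u z)) (tree_kk_le t x) le_rfl]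
        refine Finset.sum_congr rfl fun m hm => ?_
        have h3 := Finset.mem_range.1 hm
        rw [hz m hm]
        by_cases h4 : kk t x ≤ m
        · simp [h3, h4]
        · simp [h4]
      rw [h2]
      abel) hFi'
  refine ⟨r1, r2.trans ?_⟩
  have i1 : ∫ z, Cs * (F z + ∑ c, I c z) = Cs * ((∫ z, F z) + ∑ c, ∫ z, I c z) := by
    rw [integral_const_mul, integral_add hFi hSi, integral_finsetSum _ fun c _ => (hIi c).1]
  have i2 : ∑ c, ∫ z, I c z ≤ 7 * ∑ c, ∫ s in J c, pe (lp τ π (k c) (l c)) (p c) s := by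
    rw [Finset.mul_sum]
    exact Finset.sum_le_sum fun c _ => (hIi c).2
  have i3 : 0 ≤ ∫ z, F z := integral_nonneg hF0
  have i4 : (∫ z, F z) + ∑ c, ∫ z, I c z ≤
      7 * ((∫ z, F z) + ∑ c, ∫ s in J c, pe (lp τ π (k c) (l c)) (p c) s) := by linarith
  have i5 := mul_le_mul_of_nonneg_left i4 hC0
  rw [i1]
  linarith

end Pool.Agent.MA2
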