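import Pool.Agent.Lib.MP_c86c76_al.An2.Br2
import Pool.Agent.Lib.MP_c86c76_al.An.Bd
import Pool.Agent.Lib.MP_c86c76_al.An.Ch
import Pool.Agent.Lib.MP_c86c76_al.An.Krein
import Pool.Agent.Lib.MP_c86c76_al.An.Lio
import Pool.Agent.Lib.MP_c86c76_al.An.Log
import Pool.Agent.Lib.MP_c86c76_al.An.Par
import Pool.Agent.Lib.MP_c86c76_al.An.Seg
import Pool.Agent.Lib.MP_c86c76_al.An.Tr
import Pool.Agent.Lib.MP_c86c76_al.An2.Ang
import Pool.Agent.Lib.MP_c86c76_al.An2.Bas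
import Pool.Agent.Lib.MP_c86c76_al.An2.Col
import Pool.Agent.Lib.MP_c86c76_al.An2.Cons
import Pool.Agent.Lib.MP_c86c76_al.An2.Cut
import Pool.Agent.Lib.MP_c86c76_al.An2.Deg
import Pool.Agent.Lib.MP_c86c76_al.An2.Den
import Pool.Agent.Lib.MP_c86c76_al.An2.Fin
import Pool.Agent.Lib.MP_c86c76_al.An2.Inf
import Pool.Agent.Lib.MP_c86c76_al.An2.Kap
import Pool.Agent.Lib.MP_c86c76_al.An2.Lc
import Pool.Agent.Lib.MP_c86c76_al.An2.Neck
import Pool.Agent.Lib.MP_c86c76_al.An2.Path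
import Pool.Agent.Lib.MP_c86c76_al.An2.Pb
import Pool.Agent.Lib.MP_c86c76_al.An2.Pul
import Pool.Agent.Lib.MP_c86c76_al.An2.Rad
import Pool.Agent.Lib.MP_c86c76_al.An2.Sto
import Pool.Agent.Lib.MP_c86c76_al.An2.Sup
import Pool.Agent.Lib.MP_c86c76_al.An2.Tes
import Pool.Agent.Lib.MP_c86c76_al.An2.Tree

/-!
The energy theorem with cusps.
-/

set_option autoImplicit false

namespace Pool.Agent.MA2

open Pool.Agent.MA (BL MM chSt kreinSt lioSt bdSt segSt logSt dirSt trSt)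

theorem pulA : PulSt := pulSt basSt (pbSt basSt meaSt chSt) chSt

theorem lcA : LcSt := lcSt basSt pulA

theorem stoA : StoSt := stoSt basSt (sto0St basSt) (denSt basSt meaSt (cutSt logSt dirSt))

theorem supA : SupSt := supSt kreinSt basSt stoA pulA

theorem neckA : NeckSt := neckSt pathSt kapSt

theorem treeA : TreeSt := treeSt (tesSt meaSt) radSt

theorem conA : ConSt :=
  conSt lioSt lcA supA (colSt angSt kapSt pathSt neckA treeA)
    (infSt angSt kapSt pathSt neckA treeA) bdSt basSt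

theorem mainA : MainSt :=
  mainSt conA (degSt angSt kapSt pathSt neckA treeA) (finSt basSt segSt) basSt

/-- The energy theorem with cusps for actions of the group of braid-like automorphisms. -/
theorem brMain2 {H : Type} [NormedAddCommGroup H]
    [InnerProductSpace ℂ H] [CompleteSpace H] {N : ℕ} (hN : 2 ≤ N)
    (α : BL (N + 1) →* (H ≃ᵃⁱ[ℂ] H))
    (h1 : ∀ k, k < N → ∃ y K, Kap (α ((MM N (k + 1))⁻¹ * MM N k)) y K)
    (h2 : ∀ k, k + 2 ≤ N → ∃ y K, Kap (α ((MM N (k + 2))⁻¹ * MM N k)) y K)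
    (h3 : ∃ y K, Kap (α ((MM N (N - 1))⁻¹ * MM N 0)) y K) (h4 : ∃ y K, Kap (α (MM N 0)) y K)
    (h5 : ∀ k, 1 ≤ k → k < N → ∀ ε > 0, ∃ y, Kap (α ((MM N (k + 1))⁻¹ * MM N k)) y ε ∧
      Kap (α ((MM N k)⁻¹ * MM N 0)) y ε ∧ Kap (α ((MM N (k + 1))⁻¹ * MM N 0)) y ε)
    (ε : ℝ) (hε : 0 < ε) : ∃ x, ∀ k, k ≤ N → ‖α (MM N k) x - x‖ < ε :=
  brMain2' trSt mainA hN α h1 h2 h3 h4 h5 ε hε

end Pool.Agent.MA2
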