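import Pool.Agent.Lib.MP_c86c76_al.An2.St

/-!
Basic facts on flat sections: change of gauge, integrability, affine combinations.
-/

set_option autoImplicit false

namespace Pool.Agent.MA2

open Complex MeasureTheory Filter Topology Set Function
open Pool.Agent.MA (cf Nr rc kk Tr bb gz DD d1 d2 en dg QQ KreinSt LioSt ChSt BdSt SegSt)
open scoped InnerProductSpace

lemma bas_cf_ne {n : ℕ} {T : Fin n → ℂ} (hT : Injective T) {z : ℂ} (hz : ∀ i, T i ≠ z)
    {i j : Option (Fin n)} (hij : i ≠ j) : cf z T j - cf z T i ≠ 0 := by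
  rw [sub_ne_zero]
  cases i with
  | none =>
    cases j with
    | none => exact absurd rfl hij
    | some j => exact hz j
  | some i =>
    cases j with
    | none => exact (hz i).symm
    | some j => exact fun h => hij (congrArg some (hT h).symm)

lemma bas_cf_cont {n : ℕ} (T : Fin n → ℂ) (i : Option (Fin n)) :
    Continuous fun z => cf z T i := by
  cases i with
  | none => exact continuous_id
  | some i => exact continuous_const

lemma bas_nr_ev {n : ℕ} {T : Fin n → ℂ} (hT : Injective T) {z0 : ℂ} (hz : ∀ i, T i ≠ z0) :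
    ∀ᶠ z in 𝓝 z0, Nr (cf z0 T) (cf z T) := by
  unfold Nr
  refine eventually_all.2 fun i => eventually_all.2 fun j => ?_
  by_cases hij : i = j
  · exact Eventually.of_forall fun z h => absurd hij h
  · have hc : Continuous fun z => ‖(cf z T j - cf z T i) - (cf z0 T j - cf z0 T i)‖ :=
      (((bas_cf_cont T j).sub (bas_cf_cont T i)).sub continuous_const).norm
    have h0 : ‖(cf z0 T j - cf z0 T i) - (cf z0 T j - cf z0 T i)‖ < ‖cf z0 T j - cf z0 T i‖ := by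
      rw [sub_self, norm_zero]
      exact norm_pos_iff.2 (bas_cf_ne hT hz hij)
    exact (hc.continuousAt.eventually_lt continuousAt_const h0).mono fun z h _ => h

lemma bas_ne_ev {n : ℕ} {T : Fin n → ℂ} {z0 : ℂ} (hz : ∀ i, T i ≠ z0) :
    ∀ᶠ z in 𝓝 z0, ∀ i, T i ≠ z :=
  eventually_all.2 fun i => (eventually_ne_nhds (hz i).symm).mono fun _ h => h.symm

lemma bas_line_null (c : ℝ) : volume {z : ℂ | z.im = c} = 0 := by
  have h := Measure.addHaar_affineSubspace (volume : Measure ℂ)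
    (AffineSubspace.mk' (c * I : ℂ) (LinearMap.ker Complex.imLm)) (by
      intro h
      have h1 : ((c * I + I : ℂ)) ∈ AffineSubspace.mk' (c * I : ℂ) (LinearMap.ker Complex.imLm) := by
        rw [h]; trivial
      rw [AffineSubspace.mem_mk'] at h1
      simp at h1)
  refine measure_mono_null (fun z hz => ?_) h
  have hz' : z.im = c := hz
  show z ∈ AffineSubspace.mk' (c * I : ℂ) (LinearMap.ker Complex.imLm)
  rw [AffineSubspace.mem_mk']
  simp [hz']

lemma bas_ae_off {n : ℕ} (T : Fin n → ℂ) : ∀ᵐ z : ℂ, ∀ i, (T i).im ≠ z.im := by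
  rw [ae_all_iff]
  intro i
  have h := bas_line_null (T i).im
  rw [ae_iff]
  convert h using 2
  ext z
  simp [eq_comm]

section Hilbert

variable {H : Type} [NormedAddCommGroup H] [InnerProductSpace ℂ H] {n : ℕ}

lemma bas_aff (g : H ≃ᵃⁱ[ℂ] H) (x : H) : g x = g.linearIsometryEquiv x + g 0 := by
  have h := g.map_vadd (0 : H) x
  simpa using h

lemma bas_aff_comb (g : H ≃ᵃⁱ[ℂ] H) (x y w : H) (c : ℂ) :
    g (x + c • (y - w)) = g x + c • (g y - g w) := by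
  rw [bas_aff g (x + c • (y - w)), bas_aff g x, bas_aff g y, bas_aff g w]
  simp only [map_add, map_smul, map_sub, smul_sub, smul_add]
  abel

lemma bas_fderiv (g : H ≃ᵃⁱ[ℂ] H) (u : ℂ → H) (z v : ℂ) :
    fderiv ℝ (fun z => g (u z)) z v = g.linearIsometryEquiv (fderiv ℝ u z v) := by
  have h1 : (fun z => g (u z)) = fun z =>
      ((g.linearIsometryEquiv.toContinuousLinearEquiv.restrictScalars ℝ) ∘ u) z + g 0 := by
    funext z
    exact bas_aff g (u z)
  rw [h1, fderiv_add_const, ContinuousLinearEquiv.comp_fderiv]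
  rfl

lemma bas_one (τ : Tr n (H ≃ᵃⁱ[ℂ] H)) {T : Fin n → ℂ} (hT : Injective T) {z : ℂ}
    (hz : ∀ i, T i ≠ z) : τ.c (cf z T) (cf z T) = 1 := by
  have h := (bas_nr_ev hT hz).self_of_nhds
  have h1 := τ.co _ _ _ h h h
  exact left_eq_mul.1 h1

lemma bas_gauge (τ : Tr n (H ≃ᵃⁱ[ℂ] H)) {T : Fin n → ℂ} (hT : Injective T) (U : ℂ → H) {z0 : ℂ}
    (hz : ∀ i, T i ≠ z0) : ∀ᶠ z1 in 𝓝 z0, (∀ i, T i ≠ z1) ∧
    gz τ T U z1 =ᶠ[𝓝 z1] fun z => τ.c (cf z0 T) (cf z1 T) (gz τ T U z0 z) := by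
  filter_upwards [bas_ne_ev hz, bas_nr_ev hT hz, (bas_nr_ev hT hz).eventually_nhds] with
    z1 h1 h2 h3
  refine ⟨h1, ?_⟩
  filter_upwards [h3, bas_nr_ev hT h1] with z h4 h5
  have h6 := τ.co _ _ _ h2 h4 h5
  have h7 : (τ.c (cf z1 T) (cf z T))⁻¹ =
      τ.c (cf z0 T) (cf z1 T) * (τ.c (cf z0 T) (cf z T))⁻¹ := by
    rw [h6]; group
  show (τ.c (cf z1 T) (cf z T))⁻¹ (U z) =
    τ.c (cf z0 T) (cf z1 T) ((τ.c (cf z0 T) (cf z T))⁻¹ (U z))
  rw [h7]
  rfl

lemma bas_dd (τ : Tr n (H ≃ᵃⁱ[ℂ] H)) {T : Fin n → ℂ} (hT : Injective T) (U : ℂ → H) {z0 : ℂ}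
    (hz : ∀ i, T i ≠ z0) : ∀ᶠ z1 in 𝓝 z0, ∀ v, DD τ T U z1 v =
    (τ.c (cf z0 T) (cf z1 T)).linearIsometryEquiv (fderiv ℝ (gz τ T U z0) z1 v) := by
  filter_upwards [bas_gauge τ hT U hz] with z1 h v
  unfold DD
  rw [h.2.fderiv_eq, bas_fderiv]

lemma bas_meas (τ : Tr n (H ≃ᵃⁱ[ℂ] H)) {T : Fin n → ℂ} (hT : Injective T) {U : ℂ → H}
    (hU : IsSm τ T U) : AEStronglyMeasurable (DD τ T U) volume := by
  have hO : IsOpen {z : ℂ | ∀ i, (T i).im ≠ z.im} := by
    rw [Set.ofPred_forall]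
    exact isOpen_iInter_of_finite fun i =>
      isOpen_ne_fun continuous_const Complex.continuous_im
  have hc : ContinuousOn (DD τ T U) {z : ℂ | ∀ i, (T i).im ≠ z.im} := by
    intro z0 hz0
    have hz : ∀ i, T i ≠ z0 := fun i h => hz0 i (by rw [h])
    have h1 : ContinuousAt (fderiv ℝ (gz τ T U z0)) z0 :=
      (hU z0 hz).continuousAt_fderiv (by norm_num)
    refine (h1.congr ?_).continuousWithinAt
    filter_upwards [bas_dd τ hT U hz, τ.loc z0 T hz0] with z1 h2 h3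
    ext1 v
    rw [h2 v, h3]
    rfl
  have h := hc.aestronglyMeasurable (μ := volume) hO.measurableSet
  have hae : ∀ᵐ z : ℂ, z ∈ {z : ℂ | ∀ i, (T i).im ≠ z.im} := bas_ae_off T
  rwa [Measure.restrict_eq_self_of_ae_mem hae] at h

lemma bas_memLp (τ : Tr n (H ≃ᵃⁱ[ℂ] H)) {T : Fin n → ℂ} (hT : Injective T) {U : ℂ → H}
    (hU : IsSec τ T U) : MemLp (DD τ T U) 2 volume :=
  (memLp_two_iff_integrable_sq_norm (bas_meas τ hT hU.1)).2 hU.2

lemma bas_pt (D : ℂ →L[ℝ] H) :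
    ‖D‖ ^ 2 ≤ ‖D 1 - I • D I‖ ^ 2 + ‖D 1 + I • D I‖ ^ 2 := by
  have hpar := parallelogram_law_with_norm ℂ (D 1) (I • D I)
  have hI : ‖I • D I‖ = ‖D I‖ := by rw [norm_smul, Complex.norm_I, one_mul]
  rw [hI] at hpar
  have hb : ‖D‖ ≤ ‖D 1‖ + ‖D I‖ := by
    refine ContinuousLinearMap.opNorm_le_bound _ (by positivity) fun z => ?_
    have hz : z = z.re • (1 : ℂ) + z.im • I := by
      apply Complex.ext <;> simp
    have h1 : D z = z.re • D 1 + z.im • D I := by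
      conv_lhs => rw [hz]
      rw [map_add, map_smul, map_smul]
    rw [h1]
    calc ‖z.re • D 1 + z.im • D I‖ ≤ ‖z.re • D 1‖ + ‖z.im • D I‖ := norm_add_le _ _
      _ = |z.re| * ‖D 1‖ + |z.im| * ‖D I‖ := by
        rw [norm_smul, norm_smul, Real.norm_eq_abs, Real.norm_eq_abs]
      _ ≤ ‖z‖ * ‖D 1‖ + ‖z‖ * ‖D I‖ :=
        add_le_add (mul_le_mul_of_nonneg_right (Complex.abs_re_le_norm z) (norm_nonneg _))
          (mul_le_mul_of_nonneg_right (Complex.abs_im_le_norm z) (norm_nonneg _))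
      _ = (‖D 1‖ + ‖D I‖) * ‖z‖ := by ring
  have h2 : ‖D‖ ^ 2 ≤ (‖D 1‖ + ‖D I‖) ^ 2 := pow_le_pow_left₀ (norm_nonneg _) hb 2
  nlinarith [sq_nonneg (‖D 1‖ - ‖D I‖)]

lemma bas_int (τ : Tr n (H ≃ᵃⁱ[ℂ] H)) {T : Fin n → ℂ} (hT : Injective T) {U : ℂ → H}
    (hU : IsSec τ T U) : MemLp (d1 τ T U) 2 volume ∧ MemLp (d2 τ T U) 2 volume ∧
    Integrable (fun z => ‖DD τ T U z‖ ^ 2) ∧ ∫ z, ‖DD τ T U z‖ ^ 2 ≤ en τ T U := by
  have h := bas_memLp τ hT hU
  have hv : ∀ v : ℂ, MemLp (fun z => DD τ T U z v) 2 volume := fun v =>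
    (ContinuousLinearMap.apply ℝ H v).comp_memLp' h
  have h1 : MemLp (d1 τ T U) 2 volume := (hv 1).sub ((hv I).const_smul I)
  have h2 : MemLp (d2 τ T U) 2 volume := (hv 1).add ((hv I).const_smul I)
  have h3 := (memLp_two_iff_integrable_sq_norm h.1).1 h
  refine ⟨h1, h2, h3, ?_⟩
  exact integral_mono h3 (((memLp_two_iff_integrable_sq_norm h1.1).1 h1).add
    ((memLp_two_iff_integrable_sq_norm h2.1).1 h2)) fun z => bas_pt (DD τ T U z)

lemma bas_comb (τ : Tr n (H ≃ᵃⁱ[ℂ] H)) {T : Fin n → ℂ} (hT : Injective T) (U U' U'' : ℂ → H)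
    (c : ℂ) (hU : IsSec τ T U) (hU' : IsSec τ T U') (hU'' : IsSec τ T U'') :
    IsSec τ T (fun z => U z + c • (U' z - U'' z)) ∧ ∀ z, (∀ i, T i ≠ z) → ∀ v,
      DD τ T (fun z => U z + c • (U' z - U'' z)) z v =
        DD τ T U z v + c • (DD τ T U' z v - DD τ T U'' z v) := by
  have hg : ∀ z0, gz τ T (fun z => U z + c • (U' z - U'' z)) z0 =
      fun z => gz τ T U z0 z + c • (gz τ T U' z0 z - gz τ T U'' z0 z) := by
    intro z0
    funext z
    exact bas_aff_comb _ _ _ _ c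
  have hs : IsSm τ T (fun z => U z + c • (U' z - U'' z)) := fun z0 hz => by
    rw [hg]
    exact (hU.1 z0 hz).add (((hU'.1 z0 hz).sub (hU''.1 z0 hz)).const_smul c)
  have hd : ∀ z, (∀ i, T i ≠ z) → ∀ v, DD τ T (fun z => U z + c • (U' z - U'' z)) z v =
      DD τ T U z v + c • (DD τ T U' z v - DD τ T U'' z v) := fun z hz v => by
    have d0 := ((hU.1 z hz).differentiableAt (by norm_num)).hasFDerivAt
    have d1 := ((hU'.1 z hz).differentiableAt (by norm_num)).hasFDerivAt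
    have d2 := ((hU''.1 z hz).differentiableAt (by norm_num)).hasFDerivAt
    have d3 := d0.fun_add ((d1.fun_sub d2).fun_const_smul c)
    unfold DD
    rw [hg, d3.fderiv]
    rfl
  refine ⟨⟨hs, ?_⟩, hd⟩
  have h : MemLp (fun z => ‖DD τ T U z‖ + ‖c‖ * (‖DD τ T U' z‖ + ‖DD τ T U'' z‖)) 2 volume :=
    (bas_memLp τ hT hU).norm.add
      (((bas_memLp τ hT hU').norm.add (bas_memLp τ hT hU'').norm).const_mul ‖c‖)
  refine (memLp_two_iff_integrable_sq_norm (bas_meas τ hT hs)).1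
    (h.of_le (bas_meas τ hT hs) ?_)
  filter_upwards [bas_ae_off T] with z hz0
  rw [Real.norm_of_nonneg (by positivity)]
  refine ContinuousLinearMap.opNorm_le_bound _ (by positivity) fun v => ?_
  rw [hd z (fun i h => hz0 i (by rw [h])) v]
  have a1 := (DD τ T U z).le_opNorm v
  have a2 := (DD τ T U' z).le_opNorm v
  have a3 := (DD τ T U'' z).le_opNorm v
  have a4 := norm_add_le (DD τ T U z v) (c • (DD τ T U' z v - DD τ T U'' z v))
  rw [norm_smul] at a4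
  have a5 := mul_le_mul_of_nonneg_left ((norm_sub_le (DD τ T U' z v) (DD τ T U'' z v)).trans
    (add_le_add a2 a3)) (norm_nonneg c)
  linarith

lemma bas_en (τ : Tr n (H ≃ᵃⁱ[ℂ] H)) (T : Fin n → ℂ) (U : ℂ → H) : 0 ≤ en τ T U :=
  integral_nonneg fun _ => by positivity

end Hilbert

theorem basSt : BasSt := by
  intro H _ _ _ n τ T hT
  refine ⟨fun z hz => bas_one τ hT hz, fun U z0 hz => bas_gauge τ hT U hz,
    fun U _ z0 hz => bas_dd τ hT U hz, fun U hU => bas_int τ hT hU,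
    fun U U' U'' c hU hU' hU'' => bas_comb τ hT U U' U'' c hU hU' hU'', bas_en τ T, ?_,
    fun U hU => ?_⟩
  · exact Real.sInf_nonneg fun x ⟨U, _, h⟩ => h ▸ bas_en τ T U
  · exact csInf_le ⟨0, fun x ⟨V, _, h⟩ => h ▸ bas_en τ T V⟩ ⟨U, hU, rfl⟩

theorem meaSt : MeaSt := fun _ _ _ _ _ τ _ _ hT hU => bas_meas τ hT hU

end Pool.Agent.MA2
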