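import Pool.Agent.Lib.MP_c86c76_al.An2.St
import Pool.Agent.Lib.MP_c86c76_al.An.Br

/-!
The energy theorem with cusps for the group of braid-like automorphisms, from its statement for
transports.
-/

set_option autoImplicit false

namespace Pool.Agent.MA2

open Pool.Agent.MA (TrSt BL MM AA AA_swp gg gg_eq MM_top)

theorem brMain2' (hT : TrSt) (hM : MainSt) {H : Type} [NormedAddCommGroup H]
    [InnerProductSpace ℂ H] [CompleteSpace H] {N : ℕ} (hN : 2 ≤ N)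
    (α : BL (N + 1) →* (H ≃ᵃⁱ[ℂ] H))
    (h1 : ∀ k, k < N → ∃ y K, Kap (α ((MM N (k + 1))⁻¹ * MM N k)) y K)
    (h2 : ∀ k, k + 2 ≤ N → ∃ y K, Kap (α ((MM N (k + 2))⁻¹ * MM N k)) y K)
    (h3 : ∃ y K, Kap (α ((MM N (N - 1))⁻¹ * MM N 0)) y K) (h4 : ∃ y K, Kap (α (MM N 0)) y K)
    (h5 : ∀ k, 1 ≤ k → k < N → ∀ ε > 0, ∃ y, Kap (α ((MM N (k + 1))⁻¹ * MM N k)) y ε ∧
      Kap (α ((MM N k)⁻¹ * MM N 0)) y ε ∧ Kap (α ((MM N (k + 1))⁻¹ * MM N 0)) y ε)
    (ε : ℝ) (hε : 0 < ε) : ∃ x, ∀ k, k ≤ N → ‖α (MM N k) x - x‖ < ε := by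
  obtain ⟨n, rfl⟩ : ∃ n, N = n + 1 := ⟨N - 1, by omega⟩
  obtain ⟨τ, hτ⟩ := hT (n + 1) _ (fun ρ s => α (AA ρ s)) fun l1 l2 i j h => by
    obtain ⟨c, hc⟩ := AA_swp l1 l2 i j h
    exact ⟨α c, fun s f g => by simp only [hc s f g, map_mul]⟩
  have e0 : ∀ π k, k ≤ n + 1 → τ.ga π k = α (gg π (n + 1)) * α (MM (n + 1) k) := by
    intro π k hk
    rw [hτ π k hk, ← map_inv, ← map_mul, ← gg, gg_eq π hk, map_mul]
  have e : ∀ π k, k ≤ n + 1 → ∀ x, τ.ga π k x = α (gg π (n + 1)) (α (MM (n + 1) k) x) :=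
    fun π k hk x => by rw [e0 π k hk]; rfl
  have el : ∀ π k l, k ≤ n + 1 → l ≤ n + 1 →
      lp τ π k l = α ((MM (n + 1) l)⁻¹ * MM (n + 1) k) := by
    intro π k l hk hl
    rw [lp, e0 π k hk, e0 π l hl, map_mul, map_inv]
    group
  obtain ⟨x, hx⟩ := hM H n τ (by omega) (fun π _ =>
    ⟨fun k hk => by rw [Fk, el π _ _ (by omega) (by omega)]; exact h1 k (by omega),
      fun k hk => by rw [Fk, el π _ _ (by omega) (by omega)]; exact h2 k (by omega),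
      by rw [Fk, el π _ _ (by omega) (by omega)]; exact h3,
      by rw [Fk, el π _ _ (by omega) le_rfl, MM_top, inv_one, one_mul]; exact h4⟩)
    (fun k k1 k2 δ hδ => by
      rw [el 1 _ _ (by omega) (by omega), el 1 _ _ (by omega) (by omega),
        el 1 _ _ (by omega) (by omega)]
      exact h5 k k1 (by omega) δ hδ) (ε / 2) (by positivity)
  have d : ∀ k, k ≤ n + 1 → ‖α (MM (n + 1) k) x - α (MM (n + 1) 0) x‖ < ε / 2 := by
    intro k hk
    have := hx k hk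
    rwa [e _ _ hk, e _ _ (by omega), ← dist_eq_norm, AffineIsometryEquiv.dist_map,
      dist_eq_norm] at this
  refine ⟨x, fun k hk => ?_⟩
  have a := d k hk
  have b := d (n + 1) le_rfl
  rw [MM_top, map_one] at b
  calc _ = ‖(α (MM (n + 1) k) x - α (MM (n + 1) 0) x) - (x - α (MM (n + 1) 0) x)‖ := by
        congr 1; abel
    _ ≤ _ := norm_sub_le _ _
    _ < ε / 2 + ε / 2 := add_lt_add a b
    _ = ε := by ring

end Pool.Agent.MA2
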