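import Pool.Agent.Lib.MP_c86c76_al.An2.St
import Pool.Agent.Lib.MP_c86c76_al.An.Deg

/-!
The angular functions of the degenerate configuration.
-/

set_option autoImplicit false

namespace Pool.Agent.MA2

open Complex MeasureTheory Filter Topology Set Function
open Pool.Agent.MA (cf Nr rc kk Tr bb gz DD d1 d2 en dg)

/-- The angular functions of the degenerate configuration. -/
noncomputable def degL (lam La : ℂ → ℝ) (R : ℝ) (m : ℕ) (z : ℂ) : ℝ :=
  if m = 0 then lam z else La (z / (R ^ m : ℝ))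

variable {lam La : ℂ → ℝ} {M R : ℝ}

lemma deg_norm_div (hR : 0 < R) (m : ℕ) (z : ℂ) : ‖z / ((R ^ m : ℝ) : ℂ)‖ = ‖z‖ / R ^ m := by
  rw [norm_div, norm_real, Real.norm_of_nonneg (by positivity)]

lemma deg_hom (hA : Ang lam M) {r : ℝ} (hr : 0 < r) (z : ℂ) : lam (z / (r : ℂ)) = lam z := by
  have h := hA.2.2.2.2.2 (z / (r : ℂ)) r hr
  rw [mul_div_cancel₀ _ (ofReal_ne_zero.2 hr.ne')] at h
  exact h.symm

lemma deg_lam_one (hA : Ang lam M) {z : ℂ} (h : z.re < -(‖z‖ / 2)) : ∀ᶠ w in 𝓝 z, lam w = 1 := by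
  have h0 : z ≠ 0 := by
    rintro rfl
    simp at h
  have hc : Continuous fun w : ℂ => -(‖w‖ / 2) := by fun_prop
  filter_upwards [eventually_ne_nhds h0,
    continuous_re.continuousAt.eventually_lt hc.continuousAt h] with w a b
  exact hA.2.2.1 w a b.le

lemma deg_lam_zero (hA : Ang lam M) {z : ℂ} (h : ‖z‖ / 2 < z.re) : ∀ᶠ w in 𝓝 z, lam w = 0 := by
  have h0 : z ≠ 0 := by
    rintro rfl
    simp at h
  have hc : Continuous fun w : ℂ => ‖w‖ / 2 := by fun_prop
  filter_upwards [eventually_ne_nhds h0,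
    hc.continuousAt.eventually_lt continuous_re.continuousAt h] with w a b
  exact hA.2.2.2.1 w a b.le

/-- Far from the puncture the function is the angular function of the origin. -/
lemma deg_far (hA : Ang lam M) (hL : Lam lam La M) (hR : 0 < R) {m : ℕ} {z : ℂ}
    (h : m ≠ 0 → 5 / 2 * R ^ m < ‖z‖) : degL lam La R m =ᶠ[𝓝 z] lam := by
  by_cases h0 : m = 0
  · exact Eventually.of_forall fun w => if_pos h0
  have p : 0 < R ^ m := by positivity
  filter_upwards [continuousAt_const.eventually_lt continuous_norm.continuousAt (h h0)] with w hw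
  rw [degL, if_neg h0, hL.2.2.2.1 _ (by rw [deg_norm_div hR, lt_div_iff₀ p]; exact hw),
    deg_hom hA p]

/-- Near to the origin the function is constant. -/
lemma deg_in (hA : Ang lam M) (hL : Lam lam La M) (hR : 0 < R) {m : ℕ} (h0 : m ≠ 0) {z : ℂ}
    (h : ‖z‖ < R ^ m / 3) : fderiv ℝ (degL lam La R m) z = 0 := by
  have p : 0 < R ^ m := by positivity
  have e : degL lam La R m =ᶠ[𝓝 z] fun _ => 1 := by
    filter_upwards [continuous_norm.continuousAt.eventually_lt continuousAt_const h] with w hw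
    have h1 : ‖w / ((R ^ m : ℝ) : ℂ)‖ < 1 / 3 := by
      rw [deg_norm_div hR, div_lt_iff₀ p]
      linarith
    rw [degL, if_neg h0]
    generalize w / ((R ^ m : ℝ) : ℂ) = v at h1
    have h2 : v.re ≤ ‖v‖ := re_le_norm v
    have h3 : ‖v - 1‖ ≤ ‖v‖ + 1 := by simpa using norm_sub_le v 1
    rw [hL.2.2.1 v (by linarith)]
    refine hA.2.2.1 _ (fun e => ?_) ?_
    · rw [sub_eq_zero.1 e, norm_one] at h1
      linarith
    · rw [sub_re, one_re]
      linarith
  rw [e.fderiv_eq]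
  simp

/-- Near to the puncture the function is the angular function of the puncture. -/
lemma deg_near (hA : Ang lam M) (hL : Lam lam La M) (hR : 0 < R) {m : ℕ} (h0 : m ≠ 0) {z : ℂ}
    (h : ‖z‖ < 2 * R ^ m) :
    fderiv ℝ (degL lam La R m) z = fderiv ℝ lam (z - ((R ^ m : ℝ) : ℂ)) := by
  have p : 0 < R ^ m := by positivity
  have e : degL lam La R m =ᶠ[𝓝 z] fun w => lam (w - ((R ^ m : ℝ) : ℂ)) := by
    filter_upwards [continuous_norm.continuousAt.eventually_lt continuousAt_const h] with w hw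
    rw [degL, if_neg h0, hL.2.2.1 _ (by rw [deg_norm_div hR, div_lt_iff₀ p]; exact hw),
      ← deg_hom hA p (w - _), sub_div, div_self (ofReal_ne_zero.2 p.ne')]
  rw [e.fderiv_eq, fderiv_comp_sub]

lemma deg_core (hL : Lam lam La M) (hR : 0 < R) {m : ℕ} (h0 : m ≠ 0) {z : ℂ}
    (h : ‖z‖ ≤ 3 * R ^ m) (h' : R ^ m / 4 ≤ ‖z - ((R ^ m : ℝ) : ℂ)‖) :
    ‖fderiv ℝ (degL lam La R m) z‖ ≤ M / R ^ m := by
  have p : 0 < R ^ m := by positivity
  have e : ∀ w : ℂ, w / ((R ^ m : ℝ) : ℂ) = (R ^ m)⁻¹ • w := fun w => by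
    rw [real_smul, ofReal_inv, div_eq_inv_mul]
  have e1 : degL lam La R m = fun w => La ((R ^ m)⁻¹ • w) := by
    funext w
    rw [degL, if_neg h0, e]
  have h1 := hL.2.2.2.2.2.2 (z / ((R ^ m : ℝ) : ℂ))
    (by rw [deg_norm_div hR, div_le_iff₀ p]; exact h) (by
      rw [← div_self (ofReal_ne_zero.2 p.ne'), ← sub_div, deg_norm_div hR, le_div_iff₀ p]
      linarith)
  rw [e1, fderiv_comp_smul, norm_smul, Real.norm_of_nonneg (by positivity), ← e, inv_mul_eq_div]
  exact div_le_div_of_nonneg_right h1 p.le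

lemma deg_cd (hA : Ang lam M) (hL : Lam lam La M) (hR : 0 < R) {n m : ℕ} (hm : m < n + 1) {z : ℂ}
    (hz : ∀ i, (dg n R i : ℂ) ≠ z) :
    ContDiffAt ℝ 2 (degL lam La R m) z ∧ |degL lam La R m z| ≤ 3 := by
  have p : 0 < R ^ m := by positivity
  unfold degL
  split_ifs with h0
  · refine ⟨hA.1 z fun e => hz 0 (by rw [e]; simp [dg]), ?_⟩
    rw [abs_of_nonneg (hA.2.1 z).1]
    linarith [(hA.2.1 z).2]
  · refine ⟨(hL.1 _ fun e => hz ⟨m, hm⟩ ?_).comp z (contDiffAt_id.div_const _), ?_⟩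
    · rw [MA.deg_ne R h0]
      exact ((div_eq_one_iff_eq (ofReal_ne_zero.2 p.ne')).1 e).symm
    · rw [abs_of_nonneg (hL.2.1 _).1]
      linarith [(hL.2.1 (z / ((R ^ m : ℝ) : ℂ))).2]

lemma deg_real (hA : Ang lam M) (hL : Lam lam La M) (hR : 1 < R) {n m : ℕ} (hm : m < n + 1)
    {x : ℝ} (hx : ∀ i, dg n R i ≠ x) :
    ∀ᶠ z in 𝓝 (x : ℂ), degL lam La R m z = if kk (dg n R) x ≤ m then 1 else 0 := by
  have p : 0 < R ^ m := by positivity
  have mo := (MA.deg_mono (n := n) hR).monotone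
  have ht : Tendsto (fun z : ℂ => z / ((R ^ m : ℝ) : ℂ)) (𝓝 (x : ℂ))
      (𝓝 ((x / R ^ m : ℝ) : ℂ)) := by
    rw [ofReal_div]
    exact (continuous_id.div_const _).continuousAt
  rcases lt_or_gt_of_ne (hx ⟨m, hm⟩) with h | h
  · rw [if_neg (by have := MA.deg_lt_kk mo h; simp only at this; omega)]
    unfold degL
    split_ifs with h0
    · subst h0
      have h1 : 0 < x := by simpa [dg] using h
      refine deg_lam_zero hA ?_
      rw [norm_real, Real.norm_of_nonneg h1.le, ofReal_re]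
      linarith
    · rw [MA.deg_ne R h0] at h
      exact ht.eventually (hL.2.2.2.2.2.1 _ ((one_lt_div p).2 h))
  · rw [if_pos (MA.deg_kk_le mo h.le)]
    unfold degL
    split_ifs with h0
    · subst h0
      have h1 : x < 0 := by simpa [dg] using h
      refine deg_lam_one hA ?_
      rw [norm_real, Real.norm_of_nonpos h1.le, ofReal_re]
      linarith
    · rw [MA.deg_ne R h0] at h
      exact ht.eventually (hL.2.2.2.2.1 _ ((div_lt_one p).2 h))

/-- The radial intervals. -/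
def degJ (n : ℕ) (R : ℝ) (j : ℕ) : Set ℝ :=
  {s | (j ≠ 0 → Real.log (3 * R ^ j) ≤ s) ∧ (j ≠ n → s ≤ Real.log (R ^ (j + 1) / 4))}

lemma degJ_meas (n : ℕ) (R : ℝ) (j : ℕ) : MeasurableSet (degJ n R j) := by
  refine MeasurableSet.inter (s₁ := {s | j ≠ 0 → Real.log (3 * R ^ j) ≤ s})
    (s₂ := {s | j ≠ n → s ≤ Real.log (R ^ (j + 1) / 4)}) ?_ ?_
  · by_cases h : j = 0
    · simp [h]
    · rw [show {s | j ≠ 0 → Real.log (3 * R ^ j) ≤ s} = Ici (Real.log (3 * R ^ j)) from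
        Set.ext fun s => ⟨fun e => e h, fun e _ => e⟩]
      exact measurableSet_Ici
  · by_cases h : j = n
    · simp [h]
    · rw [show {s | j ≠ n → s ≤ Real.log (R ^ (j + 1) / 4)} = Iic (Real.log (R ^ (j + 1) / 4)) from
        Set.ext fun s => ⟨fun e => e h, fun e _ => e⟩]
      exact measurableSet_Iic

lemma degJ_mem (hR : 0 < R) {n j : ℕ} {z : ℂ} (hz : z ≠ 0) : Real.log ‖z‖ ∈ degJ n R j ↔
    (j ≠ 0 → 3 * R ^ j ≤ ‖z‖) ∧ (j ≠ n → ‖z‖ ≤ R ^ (j + 1) / 4) := by
  have h0 : 0 < ‖z‖ := norm_pos_iff.2 hz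
  rw [degJ, mem_ofPred_eq, Real.log_le_log_iff (by positivity) h0,
    Real.log_le_log_iff h0 (by positivity)]

lemma deg_place (hR : 0 < R) {n : ℕ} (hn : 1 ≤ n) {z : ℂ} (hz : z ≠ 0)
    (h : ∀ j, j ≤ n → Real.log ‖z‖ ∉ degJ n R j) :
    ∃ k, 1 ≤ k ∧ k ≤ n ∧ R ^ k / 4 < ‖z‖ ∧ ‖z‖ < 3 * R ^ k := by
  have key : ∀ j, j + 1 ≤ n → R ^ (j + 1) / 4 < ‖z‖ ∨
      ∃ k, 1 ≤ k ∧ k ≤ n ∧ R ^ k / 4 < ‖z‖ ∧ ‖z‖ < 3 * R ^ k := by
    intro j
    induction j with
    | zero =>
      intro _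
      refine Or.inl (lt_of_not_ge fun e => h 0 (by omega) ((degJ_mem hR hz).2 ⟨?_, fun _ => e⟩))
      exact fun e => absurd rfl e
    | succ j ih =>
      intro hj
      rcases ih (by omega) with a | a
      · by_cases b : ‖z‖ < 3 * R ^ (j + 1)
        · exact Or.inr ⟨j + 1, by omega, by omega, a, b⟩
        · exact Or.inl (lt_of_not_ge fun e => h (j + 1) (by omega)
            ((degJ_mem hR hz).2 ⟨fun _ => le_of_not_gt b, fun _ => e⟩))
      · exact Or.inr a
  obtain ⟨j, rfl⟩ : ∃ j, n = j + 1 := ⟨n - 1, by omega⟩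
  rcases key j le_rfl with a | a
  · exact ⟨j + 1, by omega, le_rfl, a, lt_of_not_ge fun e => h (j + 1) le_rfl
      ((degJ_mem hR hz).2 ⟨fun _ => e, fun e => absurd rfl e⟩)⟩
  · exact a

/-- The bound for the energy density on the cores. -/
noncomputable def degF (n : ℕ) (R c : ℝ) (z : ℂ) : ℝ :=
  ∑ k ∈ Finset.range (n + 1), (Metric.closedBall (0 : ℂ) (3 * R ^ k)).indicator
    (fun _ => c / (R ^ k) ^ 2) z

lemma degF_int (hR : 0 < R) (n : ℕ) {c : ℝ} (hc : 0 ≤ c) : (∀ z, 0 ≤ degF n R c z) ∧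
    Integrable (degF n R c) ∧ ∫ z, degF n R c z ≤ (n + 1) * (36 * c) := by
  have hi : ∀ k : ℕ, Integrable ((Metric.closedBall (0 : ℂ) (3 * R ^ k)).indicator
      fun _ => c / (R ^ k) ^ 2) := fun k =>
    (integrableOn_const measure_closedBall_lt_top.ne).integrable_indicator measurableSet_closedBall
  refine ⟨fun z => Finset.sum_nonneg fun k _ => indicator_nonneg (fun _ _ => by positivity) z,
    integrable_finsetSum _ fun k _ => hi k, ?_⟩
  unfold degF
  rw [integral_finsetSum _ fun k _ => hi k]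
  refine (Finset.sum_le_card_nsmul _ _ (36 * c) fun k _ => ?_).trans (by simp)
  have p : 0 < R ^ k := by positivity
  rw [integral_indicator_const _ measurableSet_closedBall, measureReal_def,
    Complex.volume_closedBall, ENNReal.toReal_mul, ENNReal.toReal_pow,
    ENNReal.toReal_ofReal (by positivity), ENNReal.coe_toReal, NNReal.coe_real_pi, smul_eq_mul]
  have e : (3 * R ^ k) ^ 2 * Real.pi * (c / (R ^ k) ^ 2) = 9 * Real.pi * c := by
    field_simp
    ring
  rw [e]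
  nlinarith [Real.pi_le_four]

lemma degF_ge (hR : 0 < R) {n k : ℕ} (hk : k ≤ n) {c : ℝ} (hc : 0 ≤ c) {z : ℂ}
    (hz : ‖z‖ ≤ 3 * R ^ k) : c / (R ^ k) ^ 2 ≤ degF n R c z := by
  refine le_trans (le_of_eq ?_) (Finset.single_le_sum (f := fun k : ℕ =>
    (Metric.closedBall (0 : ℂ) (3 * R ^ k)).indicator (fun _ => c / (R ^ k) ^ 2) z)
    (fun k _ => indicator_nonneg (fun _ _ => by positivity) z)
    (Finset.mem_range.2 (Nat.lt_succ_of_le hk)))
  rw [indicator_of_mem (mem_closedBall_zero_iff.2 hz)]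

end Pool.Agent.MA2
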