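import Pool.Agent.Lib.MP_c86c76_al.An2.St

/-!
Profiles of cusps.
-/

set_option autoImplicit false

namespace Pool.Agent.MA2

open Complex MeasureTheory Filter Topology Set Function

section Hilbert

variable {H : Type} [NormedAddCommGroup H] [InnerProductSpace ℂ H]

/-- The means of the orbit. -/
noncomputable def pathX (T : H ≃ᵃⁱ[ℂ] H) (y : H) (N : ℕ) : H :=
  ((N : ℂ) + 1)⁻¹ • ∑ j ∈ Finset.range (N + 1), (T ^ j) y

lemma path_pow (T : H ≃ᵃⁱ[ℂ] H) (y : H) (j : ℕ) : (T ^ (j + 1)) y = T ((T ^ j) y) := by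
  rw [pow_succ']; rfl

lemma path_norm (N : ℕ) : ‖((N : ℂ) + 1)⁻¹‖ = ((N : ℝ) + 1)⁻¹ := by
  rw [norm_inv, ← Nat.cast_succ, Complex.norm_natCast, Nat.cast_succ]

lemma path_fix (T : H ≃ᵃⁱ[ℂ] H) (y : H) (N : ℕ) :
    ‖T (pathX T y N) - pathX T y N‖ ^ 2 = ‖(T ^ (N + 1)) y - y‖ ^ 2 / ((N : ℝ) + 1) ^ 2 := by
  have h : ∀ v, T v = T.linearIsometryEquiv v + T 0 := fun v => by
    simpa using T.map_vadd 0 v
  have h0 : (N : ℂ) + 1 ≠ 0 := Nat.cast_add_one_ne_zero N
  have e : T (pathX T y N) = ((N : ℂ) + 1)⁻¹ • ∑ j ∈ Finset.range (N + 1), (T ^ (j + 1)) y := by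
    simp only [path_pow, h ((T ^ _) y), Finset.sum_add_distrib, Finset.sum_const, Finset.card_range,
      smul_add]
    rw [h, pathX, map_smul, map_sum, ← Nat.cast_smul_eq_nsmul ℂ, Nat.cast_succ, inv_smul_smul₀ h0]
  rw [e, pathX, ← smul_sub, ← Finset.sum_sub_distrib, Finset.sum_range_sub fun j => (T ^ j) y,
    norm_smul, path_norm, mul_pow, inv_pow, pow_zero, div_eq_inv_mul]
  rfl

lemma path_step (T : H ≃ᵃⁱ[ℂ] H) (y : H) (N : ℕ) :
    ‖pathX T y (N + 1) - pathX T y N‖ ^ 2 ≤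
      (∑ i ∈ Finset.range (N + 1), ‖(T ^ (i + 1)) y - y‖ ^ 2) / ((N + 1) * (N + 2) ^ 2) := by
  have h0 : (N : ℂ) + 1 ≠ 0 := Nat.cast_add_one_ne_zero N
  have h1 : ((N + 1 : ℕ) : ℂ) + 1 ≠ 0 := Nat.cast_add_one_ne_zero _
  have e : pathX T y (N + 1) - pathX T y N = (((N + 1 : ℕ) : ℂ) + 1)⁻¹ • ((N : ℂ) + 1)⁻¹ •
      ∑ j ∈ Finset.range (N + 1), ((T ^ (N + 1)) y - (T ^ j) y) := by
    rw [pathX, pathX, Finset.sum_range_succ _ (N + 1), Finset.sum_sub_distrib, Finset.sum_const,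
      Finset.card_range, ← Nat.cast_smul_eq_nsmul ℂ]
    push_cast at h1 ⊢
    match_scalars <;> (field_simp; try ring)
  have e2 : ∑ j ∈ Finset.range (N + 1), ‖(T ^ (N + 1)) y - (T ^ j) y‖ ^ 2 =
      ∑ i ∈ Finset.range (N + 1), ‖(T ^ (i + 1)) y - y‖ ^ 2 := by
    rw [← Finset.sum_range_reflect]
    refine Finset.sum_congr rfl fun i hi => ?_
    have := Finset.mem_range.1 hi
    rw [← dist_eq_norm, ← dist_eq_norm, ← (T ^ (N + 1 - 1 - i)).dist_map ((T ^ (i + 1)) y) y,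
      show T ^ (N + 1) = T ^ (N + 1 - 1 - i) * T ^ (i + 1) by rw [← pow_add]; congr 1; omega]
    rfl
  have e3 := (pow_le_pow_left₀ (norm_nonneg _) (norm_sum_le (Finset.range (N + 1))
    fun j => (T ^ (N + 1)) y - (T ^ j) y) 2).trans sq_sum_le_card_mul_sum_sq
  rw [e2, Finset.card_range] at e3
  rw [e, norm_smul, norm_smul, path_norm, path_norm, le_div_iff₀ (by positivity)]
  push_cast at e3 ⊢
  refine le_of_mul_le_mul_left (le_trans (le_of_eq ?_) e3) (by positivity : (0 : ℝ) < N + 1)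
  field_simp
  ring

lemma path_hardy (a : ℕ → ℝ) (ha : ∀ i, 0 ≤ a i) (n : ℕ) :
    ∑ N ∈ Finset.range n, (∑ i ∈ Finset.range (N + 1), a i) / ((N + 1) * (N + 2) ^ 2) +
      (∑ i ∈ Finset.range n, a i) / ((n : ℝ) + 1) ^ 2 ≤
      ∑ i ∈ Finset.range n, a i / ((i : ℝ) + 1) ^ 2 := by
  induction n with
  | zero => simp
  | succ n ih =>
    have h : (∑ i ∈ Finset.range (n + 1), a i) / ((n + 1) * (n + 2) ^ 2) +
        (∑ i ∈ Finset.range (n + 1), a i) / (((n + 1 : ℕ) : ℝ) + 1) ^ 2 ≤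
        (∑ i ∈ Finset.range (n + 1), a i) / ((n : ℝ) + 1) ^ 2 := by
      have e : ∀ S : ℝ, S / ((n + 1) * (n + 2) ^ 2) + S / (((n + 1 : ℕ) : ℝ) + 1) ^ 2 =
          S / ((n + 1) * (n + 2)) := fun S => by
        push_cast
        field_simp
        ring
      rw [e]
      exact div_le_div_of_nonneg_left (Finset.sum_nonneg fun i _ => ha i) (by positivity)
        (by nlinarith [Nat.cast_nonneg (α := ℝ) n])
    rw [Finset.sum_range_succ _ n, Finset.sum_range_succ (fun i => a i / _) n]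
    rw [Finset.sum_range_succ a n, add_div _ _ (((n : ℝ) + 1) ^ 2),
      ← Finset.sum_range_succ a n] at h
    linarith

/-- The interpolation of the first points of a sequence. -/
noncomputable def pathQ (x : ℕ → H) (s0 : ℝ) (N : ℕ) (s : ℝ) : H :=
  x 0 + ∑ m ∈ Finset.range N, Real.smoothTransition (s - (s0 + m)) • (x (m + 1) - x m)

lemma path_eq (x : ℕ → H) (s0 : ℝ) {N : ℕ} {s : ℝ} (h : s ≤ s0 + N) :
    pathQ x s0 ⌈s - s0⌉₊ s = pathQ x s0 N s := by
  refine congrArg (x 0 + ·) (Finset.sum_subset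
    (Finset.range_subset_range.2 (Nat.ceil_le.2 (by linarith))) fun m _ hm => ?_)
  have := Nat.ceil_le.1 (not_lt.1 (mt Finset.mem_range.2 hm))
  rw [Real.smoothTransition.zero_of_nonpos (by linarith), zero_smul]

lemma path_int (x : ℕ → H) (s0 : ℝ) {N : ℕ} {s : ℝ} (h : s ∈ Ioo (s0 + N) (s0 + (N + 1 : ℕ))) :
    pathQ x s0 ⌈s - s0⌉₊ s = x N + Real.smoothTransition (s - (s0 + N)) • (x (N + 1) - x N) := by
  rw [path_eq x s0 h.2.le, pathQ, Finset.sum_range_succ, ← add_assoc,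
    Finset.sum_congr rfl (g := fun m => x (m + 1) - x m) fun m hm => ?_, Finset.sum_range_sub,
    add_sub_cancel]
  have : ((m + 1 : ℕ) : ℝ) ≤ N := Nat.cast_le.2 (Finset.mem_range.1 hm)
  rw [Nat.cast_succ] at this
  rw [Real.smoothTransition.one_of_one_le (by linarith [h.1]), one_smul]

lemma path_one {M : ℝ} (hM : ∀ t ∈ Icc (0 : ℝ) 1, ‖deriv Real.smoothTransition t‖ ≤ M)
    (T : H ≃ᵃⁱ[ℂ] H) (y : H) (K s0 : ℝ) (hK : Kap T y K) :
    ∃ p : ℝ → H, ContDiff ℝ 2 p ∧ (∀ s, s ≤ s0 → p s = y) ∧ IntegrableOn (pe T p) (Ici s0) ∧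
      ∫ s in Ici s0, pe T p s ≤ (M ^ 2 + 10) * K := by
  set x := pathX T y
  set p : ℝ → H := fun s => pathQ x s0 ⌈s - s0⌉₊ s
  have th : ContDiff ℝ 2 Real.smoothTransition := Real.smoothTransition.contDiff
  have hp : ContDiff ℝ 2 p := contDiff_iff_contDiffAt.2 fun s => by
    obtain ⟨N, hN⟩ := exists_nat_gt (s - s0)
    have : ContDiff ℝ 2 (pathQ x s0 N) := contDiff_const.add (ContDiff.sum fun m _ =>
      (th.comp (contDiff_id.sub contDiff_const)).smul contDiff_const)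
    refine this.contDiffAt.congr_of_eventuallyEq ?_
    filter_upwards [Iio_mem_nhds (show s < s0 + N by linarith)] with t ht using path_eq x s0 ht.le
  have hc : Continuous (pe T p) := ((hp.continuous_deriv one_le_two).norm.pow 2).add
    (((T.continuous.comp hp.continuous).sub hp.continuous).norm.pow 2)
  have hb : ∀ (N : ℕ) (s : ℝ), s ∈ Ioo (s0 + N) (s0 + (N + 1 : ℕ)) → pe T p s ≤
      (M ^ 2 + 8) * ‖x (N + 1) - x N‖ ^ 2 + 2 * ‖T (x N) - x N‖ ^ 2 := fun N s hs => by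
    have h1 : p =ᶠ[𝓝 s]
        fun t => x N + Real.smoothTransition (t - (s0 + N)) • (x (N + 1) - x N) := by
      filter_upwards [isOpen_Ioo.mem_nhds hs] with t ht using path_int x s0 ht
    have h2 := ((((th.differentiable two_ne_zero) (s - (s0 + N))).hasDerivAt.comp_sub_const s
      (s0 + N)).smul_const (x (N + 1) - x N)).const_add (x N)
    have h3 : ‖deriv p s‖ ≤ M * ‖x (N + 1) - x N‖ := by
      rw [h1.deriv_eq, h2.deriv, norm_smul]
      refine mul_le_mul_of_nonneg_right (hM _ ⟨by linarith [hs.1], ?_⟩) (norm_nonneg _)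
      have := hs.2
      rw [Nat.cast_succ] at this
      linarith
    have h4 : ‖p s - x N‖ ≤ ‖x (N + 1) - x N‖ := by
      rw [h1.eq_of_nhds, add_sub_cancel_left, norm_smul,
        Real.norm_of_nonneg (Real.smoothTransition.nonneg _)]
      exact mul_le_of_le_one_left (norm_nonneg _) (Real.smoothTransition.le_one _)
    have h5 := dist_triangle4 (T (p s)) (T (x N)) (x N) (p s)
    rw [T.dist_map, dist_comm (x N)] at h5
    simp only [dist_eq_norm] at h5
    have h6 := pow_le_pow_left₀ (norm_nonneg _) h3 2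
    have h7 := pow_le_pow_left₀ (norm_nonneg _)
      (show ‖T (p s) - p s‖ ≤ 2 * ‖x (N + 1) - x N‖ + ‖T (x N) - x N‖ by linarith) 2
    rw [pe]
    nlinarith [sq_nonneg (2 * ‖x (N + 1) - x N‖ - ‖T (x N) - x N‖)]
  have hI : ∀ n : ℕ, ∫ s in s0..s0 + n, pe T p s ≤ (M ^ 2 + 10) * K := fun n => by
    have e := intervalIntegral.sum_integral_adjacent_intervals (μ := volume) (n := n)
      (a := fun k : ℕ => s0 + k) fun k _ => hc.intervalIntegrable _ _
    simp only [Nat.cast_zero, add_zero] at e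
    have h1 := path_hardy (fun i => ‖(T ^ (i + 1)) y - y‖ ^ 2) (fun _ => sq_nonneg _) n
    have h2 : ∑ N ∈ Finset.range n, ‖x (N + 1) - x N‖ ^ 2 ≤ K :=
      (Finset.sum_le_sum fun N _ => path_step T y N).trans
        (((le_add_of_nonneg_right (by positivity)).trans h1).trans (hK n))
    have h3 : ∑ N ∈ Finset.range n, ‖T (x N) - x N‖ ^ 2 ≤ K :=
      (Finset.sum_congr rfl fun N _ => path_fix T y N).trans_le (hK n)
    rw [← e]
    refine (Finset.sum_le_sum fun N _ => (intervalIntegral.integral_mono_on_of_le_Ioo (by simp)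
      (hc.intervalIntegrable _ _) intervalIntegrable_const (hb N)).trans_eq (by simp)).trans
      (b := ∑ N ∈ Finset.range n,
        ((M ^ 2 + 8) * ‖x (N + 1) - x N‖ ^ 2 + 2 * ‖T (x N) - x N‖ ^ 2)) ?_
    rw [Finset.sum_add_distrib, ← Finset.mul_sum, ← Finset.mul_sum]
    nlinarith [mul_le_mul_of_nonneg_left h2 (by positivity : 0 ≤ M ^ 2 + 8)]
  have ht : Tendsto (fun n : ℕ => s0 + n) atTop atTop :=
    tendsto_atTop_add_const_left _ _ tendsto_natCast_atTop_atTop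
  have hi : IntegrableOn (pe T p) (Ioi s0) :=
    integrableOn_Ioi_of_intervalIntegral_norm_bounded _ s0
      (fun n => (hc.integrableOn_Icc).mono_set Ioc_subset_Icc_self) ht (Eventually.of_forall
        fun n => by
          simpa only [Real.norm_of_nonneg (show 0 ≤ pe T p _ from add_nonneg (sq_nonneg _)
            (sq_nonneg _))] using hI n)
  refine ⟨p, hp, fun s hs => ?_, (integrableOn_Ici_iff_integrableOn_Ioi).2 hi, ?_⟩
  · exact (path_eq x s0 (N := 0) (by simpa using hs)).trans (by simp [pathQ, x, pathX])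
  · rw [integral_Ici_eq_integral_Ioi]
    exact le_of_tendsto' (intervalIntegral_tendsto_integral_Ioi s0 hi ht) hI

end Hilbert

theorem pathSt : PathSt := by
  obtain ⟨M, hM⟩ := isCompact_Icc.exists_bound_of_continuousOn (s := Icc (0 : ℝ) 1)
    ((Real.smoothTransition.contDiff (n := 1)).continuous_deriv le_rfl).continuousOn
  refine ⟨M ^ 2 + 10, by positivity, fun H _ _ _ T y K s0 hK => ⟨path_one hM T y K s0 hK, ?_⟩⟩
  obtain ⟨p, h1, h2, h3, h4⟩ := path_one hM T y K (-s0) hK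
  have e : pe T (fun s => p (-s)) = fun s => pe T p (-s) := funext fun s => by
    rw [pe, pe, deriv_comp_neg, norm_neg]
  refine ⟨fun s => p (-s), h1.comp contDiff_neg, fun s hs => h2 _ (neg_le_neg hs), ?_, ?_⟩
  · rw [e]
    simpa using h3.comp_neg
  · rw [e, integral_comp_neg_Iic, ← integral_Ici_eq_integral_Ioi]
    exact h4

end Pool.Agent.MA2
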