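import Pool.Agent.Lib.MP_c86c76_al.An.St

/-!
The energy of sections of finite energy over the punctured plane: definitions and statements.
-/

set_option autoImplicit false

namespace Pool.Agent.MA2

open Complex MeasureTheory Filter Topology Set Function
open scoped InnerProductSpace
open Pool.Agent.MA (cf Nr rc kk Tr bb gz DD d1 d2 en dg)

section Hilbert

variable {H : Type} [NormedAddCommGroup H] [InnerProductSpace ℂ H] {n : ℕ}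

/-- The cusp norm of `T` at `y` is at most `K`. -/
def Kap (T : H ≃ᵃⁱ[ℂ] H) (y : H) (K : ℝ) : Prop :=
  ∀ n0 : ℕ, ∑ m ∈ Finset.range n0, ‖(T ^ (m + 1)) y - y‖ ^ 2 / ((m : ℝ) + 1) ^ 2 ≤ K

/-- The energy density of a profile. -/
noncomputable def pe (T : H ≃ᵃⁱ[ℂ] H) (p : ℝ → H) (s : ℝ) : ℝ :=
  ‖deriv p s‖ ^ 2 + ‖T (p s) - p s‖ ^ 2

/-- Smooth sections. -/
def IsSm (τ : Tr n (H ≃ᵃⁱ[ℂ] H)) (T : Fin n → ℂ) (U : ℂ → H) : Prop :=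
  ∀ z0, (∀ i, T i ≠ z0) → ContDiffAt ℝ 2 (gz τ T U z0) z0

/-- Sections of finite energy. -/
def IsSec (τ : Tr n (H ≃ᵃⁱ[ℂ] H)) (T : Fin n → ℂ) (U : ℂ → H) : Prop :=
  IsSm τ T U ∧ Integrable fun z => ‖DD τ T U z‖ ^ 2

/-- There is a section. -/
def Ne (τ : Tr n (H ≃ᵃⁱ[ℂ] H)) (T : Fin n → ℂ) : Prop := ∃ U, IsSec τ T U

/-- The least energy. -/
noncomputable def EE (τ : Tr n (H ≃ᵃⁱ[ℂ] H)) (T : Fin n → ℂ) : ℝ :=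
  sInf (en τ T '' {U | IsSec τ T U})

/-- The loop around the punctures `k, …, l - 1`. -/
noncomputable def lp (τ : Tr n (H ≃ᵃⁱ[ℂ] H)) (π : Equiv.Perm (Fin n)) (k l : ℕ) : H ≃ᵃⁱ[ℂ] H :=
  (τ.ga π l)⁻¹ * τ.ga π k

/-- The loop has finite cusp norm. -/
def Fk (τ : Tr n (H ≃ᵃⁱ[ℂ] H)) (π : Equiv.Perm (Fin n)) (k l : ℕ) : Prop :=
  ∃ y K, Kap (lp τ π k l) y K

/-- The loops around one puncture, two punctures, all punctures but the last, and all punctures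
have finite cusp norm. -/
def Hyp (τ : Tr (n + 1) (H ≃ᵃⁱ[ℂ] H)) : Prop := ∀ π : Equiv.Perm (Fin (n + 1)), π 0 = 0 →
  (∀ k, k ≤ n → Fk τ π k (k + 1)) ∧ (∀ k, k + 1 ≤ n → Fk τ π k (k + 2)) ∧ Fk τ π 0 n ∧
    Fk τ π 0 (n + 1)

/-- The three loops of each pair of pants have small cusp norm at a common point. -/
def Hyp3 (τ : Tr (n + 1) (H ≃ᵃⁱ[ℂ] H)) : Prop := ∀ k, 1 ≤ k → k ≤ n → ∀ ε > 0, ∃ y,
  Kap (lp τ 1 k (k + 1)) y ε ∧ Kap (lp τ 1 0 k) y ε ∧ Kap (lp τ 1 0 (k + 1)) y ε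

end Hilbert

/-- An angular cut-off function. -/
def Ang (lam : ℂ → ℝ) (M : ℝ) : Prop :=
  (∀ z, z ≠ 0 → ContDiffAt ℝ 2 lam z) ∧ (∀ z, 0 ≤ lam z ∧ lam z ≤ 1) ∧
  (∀ z : ℂ, z ≠ 0 → z.re ≤ -(‖z‖ / 2) → lam z = 1) ∧
  (∀ z : ℂ, z ≠ 0 → ‖z‖ / 2 ≤ z.re → lam z = 0) ∧
  (∀ z, z ≠ 0 → ‖fderiv ℝ lam z‖ ≤ M / ‖z‖) ∧ ∀ (z : ℂ) (r : ℝ), 0 < r → lam (r * z) = lam z

/-- The angular function of the point `1`, which far away is that of the point `0`. -/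
def Lam (lam La : ℂ → ℝ) (M : ℝ) : Prop :=
  (∀ z, z ≠ 1 → ContDiffAt ℝ 2 La z) ∧ (∀ z, 0 ≤ La z ∧ La z ≤ 1) ∧
  (∀ z : ℂ, ‖z‖ < 2 → La z = lam (z - 1)) ∧ (∀ z : ℂ, 5 / 2 < ‖z‖ → La z = lam z) ∧
  (∀ x : ℝ, x < 1 → ∀ᶠ z in 𝓝 (x : ℂ), La z = 1) ∧
  (∀ x : ℝ, 1 < x → ∀ᶠ z in 𝓝 (x : ℂ), La z = 0) ∧
  ∀ z : ℂ, ‖z‖ ≤ 3 → 1 / 4 ≤ ‖z - 1‖ → ‖fderiv ℝ La z‖ ≤ M

/-- Angular functions exist. -/
def AngSt : Prop := ∃ (lam La : ℂ → ℝ) (M : ℝ), Ang lam M ∧ Lam lam La M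

/-- Soft facts on the cusp norm. -/
def KapSt : Prop := ∀ (H : Type) [NormedAddCommGroup H] [InnerProductSpace ℂ H]
  (T : H ≃ᵃⁱ[ℂ] H) (y : H) (K : ℝ), Kap T y K →
  0 ≤ K ∧ ‖T y - y‖ ^ 2 ≤ K ∧ Kap T⁻¹ y K ∧ (∀ y', Kap T y' (2 * K + 16 * ‖y - y'‖ ^ 2)) ∧
    ∀ g : H ≃ᵃⁱ[ℂ] H, Kap (g * T * g⁻¹) (g y) K

/-- Profiles of cusps. -/
def PathSt : Prop := ∃ C : ℝ, 0 ≤ C ∧
  ∀ (H : Type) [NormedAddCommGroup H] [InnerProductSpace ℂ H] [CompleteSpace H]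
  (T : H ≃ᵃⁱ[ℂ] H) (y : H) (K s0 : ℝ), Kap T y K →
  (∃ p : ℝ → H, ContDiff ℝ 2 p ∧ (∀ s, s ≤ s0 → p s = y) ∧ IntegrableOn (pe T p) (Ici s0) ∧
    ∫ s in Ici s0, pe T p s ≤ C * K) ∧
  ∃ p : ℝ → H, ContDiff ℝ 2 p ∧ (∀ s, s0 ≤ s → p s = y) ∧ IntegrableOn (pe T p) (Iic s0) ∧
    ∫ s in Iic s0, pe T p s ≤ C * K

/-- Profiles of necks. -/
def NeckSt : Prop := ∃ C : ℝ, 0 ≤ C ∧
  ∀ (H : Type) [NormedAddCommGroup H] [InnerProductSpace ℂ H] [CompleteSpace H]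
  (T : H ≃ᵃⁱ[ℂ] H) (y y' : H) (K K' s0 s1 : ℝ), Kap T y K → Kap T y' K' → s0 + 1 ≤ s1 →
  ∃ p : ℝ → H, ContDiff ℝ 2 p ∧ (∀ s, s ≤ s0 → p s = y) ∧ (∀ s, s1 ≤ s → p s = y') ∧
    IntegrableOn (pe T p) (Icc s0 s1) ∧
    ∫ s in Icc s0 s1, pe T p s ≤ C * (K + K' + ‖y - y'‖ ^ 2 / (s1 - s0))

/-- An annulus. -/
def ann (a : ℂ) (J : Set ℝ) : Set ℂ := {z | z ≠ a ∧ Real.log ‖z - a‖ ∈ J}

/-- Radial functions. -/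
def RadSt : Prop :=
  (∀ (a : ℂ) (J : Set ℝ) (f : ℝ → ℝ), MeasurableSet J → (∀ s, 0 ≤ f s) → IntegrableOn f J →
    Integrable ((ann a J).indicator fun z => f (Real.log ‖z - a‖) / ‖z - a‖ ^ 2) ∧
    ∫ z, (ann a J).indicator (fun z => f (Real.log ‖z - a‖) / ‖z - a‖ ^ 2) z ≤
      7 * ∫ s in J, f s) ∧
  ∀ (H : Type) [NormedAddCommGroup H] [InnerProductSpace ℂ H] (p : ℝ → H) (a z : ℂ),
    ContDiff ℝ 2 p → z ≠ a → ContDiffAt ℝ 2 (fun z => p (Real.log ‖z - a‖)) z ∧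
      ‖fderiv ℝ (fun z => p (Real.log ‖z - a‖)) z‖ ≤ ‖deriv p (Real.log ‖z - a‖)‖ / ‖z - a‖

/-- Cut-off functions that vanish near a finite set and near infinity. -/
def CutSt : Prop := ∀ (n : ℕ) (T : Fin n → ℂ), ∃ η : ℕ → ℂ → ℝ,
  (∀ k, ContDiff ℝ 2 (η k) ∧ HasCompactSupport (η k) ∧ (∀ i, ∀ᶠ z in 𝓝 (T i), η k z = 0) ∧
    ∀ z, 0 ≤ η k z ∧ η k z ≤ 1) ∧
  (∀ z, (∀ i, T i ≠ z) → ∀ᶠ k in atTop, η k z = 1) ∧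
  Tendsto (fun k => ∫ z, ‖fderiv ℝ (η k) z‖ ^ 2) atTop (𝓝 0)

/-- Basic facts: change of gauge, integrability, affine combinations. -/
def BasSt : Prop := ∀ (H : Type) [NormedAddCommGroup H] [InnerProductSpace ℂ H] [CompleteSpace H]
  (n : ℕ) (τ : Tr n (H ≃ᵃⁱ[ℂ] H)) (T : Fin n → ℂ), Injective T →
  (∀ z, (∀ i, T i ≠ z) → τ.c (cf z T) (cf z T) = 1) ∧
  (∀ U z0, (∀ i, T i ≠ z0) → ∀ᶠ z1 in 𝓝 z0, (∀ i, T i ≠ z1) ∧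
    gz τ T U z1 =ᶠ[𝓝 z1] fun z => τ.c (cf z0 T) (cf z1 T) (gz τ T U z0 z)) ∧
  (∀ U, IsSec τ T U → ∀ z0, (∀ i, T i ≠ z0) → ∀ᶠ z1 in 𝓝 z0, ∀ v, DD τ T U z1 v =
    (τ.c (cf z0 T) (cf z1 T)).linearIsometryEquiv (fderiv ℝ (gz τ T U z0) z1 v)) ∧
  (∀ U, IsSec τ T U → MemLp (d1 τ T U) 2 volume ∧ MemLp (d2 τ T U) 2 volume ∧
    Integrable (fun z => ‖DD τ T U z‖ ^ 2) ∧ ∫ z, ‖DD τ T U z‖ ^ 2 ≤ en τ T U) ∧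
  (∀ U U' U'' (c : ℂ), IsSec τ T U → IsSec τ T U' → IsSec τ T U'' →
    IsSec τ T (fun z => U z + c • (U' z - U'' z)) ∧ ∀ z, (∀ i, T i ≠ z) → ∀ v,
      DD τ T (fun z => U z + c • (U' z - U'' z)) z v =
        DD τ T U z v + c • (DD τ T U' z v - DD τ T U'' z v)) ∧
  (∀ U, 0 ≤ en τ T U) ∧ 0 ≤ EE τ T ∧ ∀ U, IsSec τ T U → EE τ T ≤ en τ T U

/-- Measurability of the covariant derivative. -/
def MeaSt : Prop := ∀ (H : Type) [NormedAddCommGroup H] [InnerProductSpace ℂ H] [CompleteSpace H]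
  (n : ℕ) (τ : Tr n (H ≃ᵃⁱ[ℂ] H)) (T : Fin n → ℂ) (U : ℂ → H), Injective T → IsSm τ T U →
  AEStronglyMeasurable (DD τ T U) volume

/-- Stokes for a difference with compact support. -/
def Sto0St : Prop := ∀ (H : Type) [NormedAddCommGroup H] [InnerProductSpace ℂ H] [CompleteSpace H]
  (n : ℕ) (τ : Tr n (H ≃ᵃⁱ[ℂ] H)) (T : Fin n → ℂ), Injective T → ∀ U U' U'' (K : Set ℂ),
  IsSec τ T U → IsSec τ T U' → IsSec τ T U'' → IsCompact K → (∀ i, T i ∉ K) →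
  (∀ z, z ∉ K → U' z = U'' z) →
  ∫ z, (⟪d1 τ T U z, d1 τ T U' z - d1 τ T U'' z⟫_ℂ - ⟪d2 τ T U z, d2 τ T U' z - d2 τ T U'' z⟫_ℂ) = 0

/-- Density of the differences with compact support. -/
def DenSt : Prop := ∀ (H : Type) [NormedAddCommGroup H] [InnerProductSpace ℂ H] [CompleteSpace H]
  (n : ℕ) (τ : Tr n (H ≃ᵃⁱ[ℂ] H)) (T : Fin n → ℂ), Injective T → ∀ U' U'',
  IsSec τ T U' → IsSec τ T U'' → ∀ ε > 0, ∃ (W : ℂ → H) (K : Set ℂ), IsSec τ T W ∧ IsCompact K ∧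
    (∀ i, T i ∉ K) ∧ (∀ z, z ∉ K → W z = U'' z) ∧ ∫ z, ‖DD τ T W z - DD τ T U' z‖ ^ 2 < ε

/-- Stokes. -/
def StoSt : Prop := ∀ (H : Type) [NormedAddCommGroup H] [InnerProductSpace ℂ H] [CompleteSpace H]
  (n : ℕ) (τ : Tr n (H ≃ᵃⁱ[ℂ] H)) (T : Fin n → ℂ), Injective T → ∀ U U' U'',
  IsSec τ T U → IsSec τ T U' → IsSec τ T U'' →
  ∫ z, (⟪d1 τ T U z, d1 τ T U' z - d1 τ T U'' z⟫_ℂ - ⟪d2 τ T U z, d2 τ T U' z - d2 τ T U'' z⟫_ℂ) = 0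

/-- The pull back of a section, pointwise. -/
def PbSt : Prop := ∀ (H : Type) [NormedAddCommGroup H] [InnerProductSpace ℂ H] [CompleteSpace H]
  (n : ℕ) (τ : Tr n (H ≃ᵃⁱ[ℂ] H)) (T : Fin n → ℂ) (χ : ℂ → ℝ) (s : ℂ) (κ : ℝ), Injective T →
  ContDiff ℝ 2 χ → HasCompactSupport χ → κ < 1 → (∀ z, 2 * ‖s‖ * ‖bb χ z‖ ≤ κ) →
  Injective (fun z => z + s * χ z) ∧
  ∀ U, IsSec τ (fun i => T i + s * χ (T i)) U → ∃ (V : ℂ → H) (R : ℂ → H ≃ₗᵢ[ℂ] H),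
    IsSec τ T V ∧ ∀ z, (∀ i, T i ≠ z) →
      d1 τ T V z = R z ((1 + s * bb χ z) • d1 τ (fun i => T i + s * χ (T i)) U (z + s * χ z) +
        (starRingEnd ℂ s * bb χ z) • d2 τ (fun i => T i + s * χ (T i)) U (z + s * χ z)) ∧
      d2 τ T V z = R z ((s * starRingEnd ℂ (bb χ z)) •
          d1 τ (fun i => T i + s * χ (T i)) U (z + s * χ z) +
        starRingEnd ℂ (1 + s * bb χ z) • d2 τ (fun i => T i + s * χ (T i)) U (z + s * χ z))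

/-- The pull back of a section, integrated. -/
def PulSt : Prop := ∀ (H : Type) [NormedAddCommGroup H] [InnerProductSpace ℂ H] [CompleteSpace H]
  (n : ℕ) (τ : Tr n (H ≃ᵃⁱ[ℂ] H)) (T : Fin n → ℂ) (χ : ℂ → ℝ) (s : ℂ) (κ : ℝ), Injective T →
  ContDiff ℝ 2 χ → HasCompactSupport χ → κ < 1 → (∀ z, 2 * ‖s‖ * ‖bb χ z‖ ≤ κ) →
  ∀ U, IsSec τ (fun i => T i + s * χ (T i)) U → ∃ V : ℂ → H, IsSec τ T V ∧
    (1 - κ) * en τ T V ≤ (1 + κ) * en τ (fun i => T i + s * χ (T i)) U ∧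
    ∀ f : ℂ → H, MemLp f 2 volume →
      4 * (∫ z, (⟪d1 τ T V z, (1 + s * bb χ z) • f z⟫_ℂ -
          ⟪d2 τ T V z, (s * starRingEnd ℂ (bb χ z)) • f z⟫_ℂ).re) -
        2 * ((∫ z, ‖(1 + s * bb χ z) • f z‖ ^ 2) - ∫ z, ‖(s * starRingEnd ℂ (bb χ z)) • f z‖ ^ 2) -
        ((∫ z, ‖d1 τ T V z‖ ^ 2) - ∫ z, ‖d2 τ T V z‖ ^ 2) ≤
      en τ (fun i => T i + s * χ (T i)) U

/-- Comparison of near configurations. -/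
def LcSt : Prop := ∀ κ : ℝ, 0 < κ → κ < 1 → ∃ c > 0,
  ∀ (H : Type) [NormedAddCommGroup H] [InnerProductSpace ℂ H] [CompleteSpace H]
  (n : ℕ) (τ : Tr n (H ≃ᵃⁱ[ℂ] H)) (T : Fin n → ℂ) (j : Fin n) (s s' : ℂ) (d : ℝ), Injective T →
  0 < d → (∀ i, i ≠ j → d ≤ ‖s - T i‖) → ‖s' - s‖ ≤ c * d →
  (Ne τ (update T j s) ↔ Ne τ (update T j s')) ∧
  (1 - κ) * EE τ (update T j s) ≤ (1 + κ) * EE τ (update T j s') ∧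
  (1 - κ) * EE τ (update T j s') ≤ (1 + κ) * EE τ (update T j s)

/-- Harmonic supports of the least energy. -/
def SupSt : Prop := ∀ (H : Type) [NormedAddCommGroup H] [InnerProductSpace ℂ H] [CompleteSpace H]
  (n : ℕ) (τ : Tr n (H ≃ᵃⁱ[ℂ] H)) (T : Fin n → ℂ) (j : Fin n) (s0 : ℂ), Injective T →
  (∀ i, i ≠ j → T i ≠ s0) → (∀ᶠ s in 𝓝 s0, Ne τ (update T j s)) →
  ∃ h : ℂ → ℂ, (∀ᶠ s in 𝓝 s0, DifferentiableAt ℂ h s) ∧ (h s0).re = EE τ (update T j s0) ∧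
    ∀ᶠ s in 𝓝 s0, (h s).re ≤ EE τ (update T j s)

/-- Test sections from a pair of functions. -/
def TesSt : Prop := ∀ (H : Type) [NormedAddCommGroup H] [InnerProductSpace ℂ H] [CompleteSpace H]
  (n : ℕ) (τ : Tr n (H ≃ᵃⁱ[ℂ] H)) (π : Equiv.Perm (Fin n)) (t : Fin n → ℝ) (u w : ℂ → H)
  (F : ℂ → ℝ), StrictMono (t ∘ π) →
  (∀ z : ℂ, (∀ m, (t m : ℂ) ≠ z) → ContDiffAt ℝ 2 u z ∧ ContDiffAt ℝ 2 w z ∧
    ‖fderiv ℝ u z‖ ^ 2 ≤ F z ∧ ‖fderiv ℝ w z‖ ^ 2 ≤ F z) →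
  (∀ x : ℝ, (∀ m, t m ≠ x) → ∀ᶠ z in 𝓝 (x : ℂ), w z = τ.ga π (kk t x) (u z)) →
  Integrable F → Ne τ (rc t) ∧ EE τ (rc t) ≤ 4 * ∫ z, F z

/-- Test sections from annuli with profiles. -/
def TreeSt : Prop := ∀ (lam : ℂ → ℝ) (M : ℝ) (n nc : ℕ), Ang lam M → ∃ K0 : ℝ, 0 ≤ K0 ∧
  ∀ (H : Type) [NormedAddCommGroup H] [InnerProductSpace ℂ H] [CompleteSpace H]
  (τ : Tr n (H ≃ᵃⁱ[ℂ] H)) (π : Equiv.Perm (Fin n)) (t : Fin n → ℝ) (C : Type) [Fintype C]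
  (a : C → Fin n) (J : C → Set ℝ) (k l : C → ℕ) (p : C → ℝ → H) (q : C → H) (y0 : H)
  (u : ℂ → H) (Λ : ℕ → ℂ → ℝ) (F : ℂ → ℝ), StrictMono (t ∘ π) → Fintype.card C ≤ nc →
  (∀ z, u z = y0 + ∑ c, (p c (Real.log ‖z - t (a c)‖) - q c)) →
  (∀ c, MeasurableSet (J c) ∧ k c ≤ l c ∧ l c ≤ n ∧ ContDiff ℝ 2 (p c) ∧
    (∀ s, s ∉ J c → deriv (p c) s = 0) ∧ IntegrableOn (pe (lp τ π (k c) (l c)) (p c)) (J c)) →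
  (∀ m, m < n → ∀ z : ℂ, (∀ i, (t i : ℂ) ≠ z) → ContDiffAt ℝ 2 (Λ m) z ∧ |Λ m z| ≤ 3) →
  (∀ m, m < n → ∀ x : ℝ, (∀ i, t i ≠ x) →
    ∀ᶠ z in 𝓝 (x : ℂ), Λ m z = if kk t x ≤ m then 1 else 0) →
  (∀ c, ∀ z ∈ ann (t (a c)) (J c), (∀ i, (t i : ℂ) ≠ z) →
    u z = p c (Real.log ‖z - t (a c)‖) ∧ ∀ m, m < n →
      fderiv ℝ (Λ m) z = if k c ≤ m ∧ m < l c then fderiv ℝ lam (z - t (a c)) else 0) →
  (∀ z : ℂ, (∀ i, (t i : ℂ) ≠ z) → (∀ c, z ∉ ann (t (a c)) (J c)) →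
    ‖∑ m ∈ Finset.range n,
      (fderiv ℝ (Λ m) z).smulRight (τ.ga π m (u z) - τ.ga π (m + 1) (u z))‖ ^ 2 ≤ F z) →
  (∀ z, 0 ≤ F z) → Integrable F →
  Ne τ (rc t) ∧ EE τ (rc t) ≤
    K0 * ((∫ z, F z) + ∑ c, ∫ s in J c, pe (lp τ π (k c) (l c)) (p c) s)

/-- The least energy is bounded when a puncture runs into another one from the right. -/
def ColSt : Prop := ∀ (H : Type) [NormedAddCommGroup H] [InnerProductSpace ℂ H] [CompleteSpace H]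
  (n : ℕ) (τ : Tr (n + 1) (H ≃ᵃⁱ[ℂ] H)) (t : Fin (n + 1) → ℝ) (i j : Fin (n + 1)), Hyp τ →
  StrictMono t → j ≠ 0 → i ≠ j → ∃ C : ℝ, ∀ᶠ r in 𝓝[>] (0 : ℝ),
    Ne τ (rc (update t j (t i + r))) ∧ EE τ (rc (update t j (t i + r))) ≤ C

/-- The least energy is bounded when a puncture runs to infinity to the right. -/
def InfSt : Prop := ∀ (H : Type) [NormedAddCommGroup H] [InnerProductSpace ℂ H] [CompleteSpace H]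
  (n : ℕ) (τ : Tr (n + 1) (H ≃ᵃⁱ[ℂ] H)) (t : Fin (n + 1) → ℝ) (j : Fin (n + 1)), Hyp τ →
  StrictMono t → j ≠ 0 → ∃ C : ℝ, ∀ᶠ R in atTop,
    Ne τ (rc (update t j R)) ∧ EE τ (rc (update t j R)) ≤ C

/-- The least energy tends to zero at the degeneration. -/
def DegSt : Prop := ∀ (H : Type) [NormedAddCommGroup H] [InnerProductSpace ℂ H] [CompleteSpace H]
  (n : ℕ) (τ : Tr (n + 1) (H ≃ᵃⁱ[ℂ] H)), 1 ≤ n → Hyp3 τ → ∀ ε > 0, ∀ᶠ R in atTop,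
    Ne τ (rc (dg n R)) ∧ EE τ (rc (dg n R)) ≤ ε

/-- The least energy does not depend on the place of one puncture. -/
def ConSt : Prop := ∀ (H : Type) [NormedAddCommGroup H] [InnerProductSpace ℂ H] [CompleteSpace H]
  (n : ℕ) (τ : Tr (n + 1) (H ≃ᵃⁱ[ℂ] H)) (t : Fin (n + 1) → ℝ) (j : Fin (n + 1)) (x : ℝ), Hyp τ →
  StrictMono t → j ≠ 0 → (∀ i, i ≠ j → t i ≠ x) →
  Ne τ (rc t) ∧ EE τ (rc t) = EE τ (rc (update t j x))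

/-- Least energy zero gives almost fixed points. -/
def FinSt : Prop := ∀ (H : Type) [NormedAddCommGroup H] [InnerProductSpace ℂ H] [CompleteSpace H]
  (n : ℕ) (τ : Tr n (H ≃ᵃⁱ[ℂ] H)) (t : Fin n → ℝ), StrictMono t → Ne τ (rc t) → EE τ (rc t) = 0 →
  ∀ ε > 0, ∃ x, ∀ k, k ≤ n → ‖τ.ga 1 k x - τ.ga 1 0 x‖ < ε

/-- The analytic theorem. -/
def MainSt : Prop := ∀ (H : Type) [NormedAddCommGroup H] [InnerProductSpace ℂ H] [CompleteSpace H]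
  (n : ℕ) (τ : Tr (n + 1) (H ≃ᵃⁱ[ℂ] H)), 1 ≤ n → Hyp τ → Hyp3 τ →
  ∀ ε > 0, ∃ x, ∀ k, k ≤ n + 1 → ‖τ.ga 1 k x - τ.ga 1 0 x‖ < ε

end Pool.Agent.MA2
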